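import Pool.Agent.K9h16.PT.One

/-!
All the finite separable extensions of the field of constants and all the twists by constants.
-/

set_option autoImplicit false
set_option linter.all false

open Polynomial IsDedekindDomain WeierstrassCurve WeierstrassCurve.Affine
open scoped Classical Pointwise

namespace Pool.Agent.K9h16.PT

open Pool.Agent.TH115.GD

/-- The tower over a field with a given separable closure. -/
theorem mk_tower (k0 L' F : Type) [Field k0] [Field L'] [Algebra k0 L'] [IsSepClosure k0 L']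
    [Field F] [Algebra L'[X] F] [IsFractionRing L'[X] F] :
    ∃ (K0 : Type) (_ : Field K0) (_ : Algebra k0[X] K0) (_ : Algebra K0 F),
      IsTower k0 L' K0 F := by
  let g : k0[X] →+* F := (algebraMap L'[X] F).comp (mapRingHom (algebraMap k0 L'))
  have hg : Function.Injective g :=
    (IsFractionRing.injective L'[X] F).comp (map_injective _ (algebraMap k0 L').injective)
  letI : Algebra (FractionRing k0[X]) F :=
    (IsFractionRing.lift (A := k0[X]) (K := FractionRing k0[X]) hg).toAlgebra
  exact ⟨FractionRing k0[X], inferInstance, inferInstance, inferInstance, ⟨inferInstance,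
    inferInstance, fun p => IsFractionRing.lift_algebraMap hg p⟩⟩

section fin

variable {k L L' K F : Type} [Field k] [Field L] [Field L'] [Algebra k L] [Algebra L L']
    [Algebra k L'] [IsScalarTower k L L'] [FiniteDimensional k L] [Algebra.IsSeparable k L]
    [Field K] [Algebra L[X] K] [Field F] [Algebra L'[X] F] [IsFractionRing L'[X] F] [Algebra K F]
    (hT : IsTower L L' K F)

include hT in
theorem fin_nul (h2 : (2 : k) ≠ 0) {a b : k[X]} (k1 : IntermediateField k L')
    (hSB : SB (a.map (algebraMap k k1)) (b.map (algebraMap k k1)))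
    (hcard : ∀ δ : k1, δ ≠ 0 → (Triples2 (C δ * a.map (algebraMap k k1))
      (C δ * b.map (algebraMap k k1))).encard ≤ 2 ^ (0 + 2)) {δ : L} (hδ : δ ≠ 0)
    {c : Cc (crv (algebraMap L[X] K (C δ * a.map (algebraMap k L)))
      (algebraMap L[X] K (C δ * b.map (algebraMap k L)))) F}
    (hc : IsTateClass L' _ c) : Nul _ c := by
  haveI := hT.sep
  haveI := hT.fracK
  haveI : IsSepClosed L' := IsSepClosure.sep_closed L
  haveI : Algebra.IsSeparable L L' := IsSepClosure.separable
  haveI : Algebra.IsSeparable k L' := Algebra.IsSeparable.trans k L L'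
  haveI : Algebra.IsSeparable k1 L' := Algebra.isSeparable_tower_top_of_isSeparable k k1 L'
  haveI : IsSepClosure k1 L' := ⟨inferInstance, inferInstance⟩
  haveI : IsGalois k1 L' := IsSepClosure.isGalois
  obtain ⟨K1, _, _, _, hT1⟩ := mk_tower k1 L' F
  haveI := hT1.fracK
  have h2k1 : (2 : k1) ≠ 0 := by
    rw [← map_ofNat (algebraMap k k1) 2]
    exact (_root_.map_ne_zero _).2 h2
  haveI : NeZero ((2 : ℕ) : L') := ⟨by
    rw [Nat.cast_ofNat, ← map_ofNat (algebraMap k L') 2]
    exact (map_ne_zero_iff _ (algebraMap k L').injective).2 h2⟩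
  obtain ⟨ρ, hρ⟩ : ∃ ρ : L', ρ ^ 2 = algebraMap L L' δ⁻¹ := IsSepClosed.exists_pow_nat_eq _ 2
  have hδ' : algebraMap L L' δ ≠ 0 := (_root_.map_ne_zero _).2 hδ
  have hρ0 : ρ ≠ 0 := by
    rintro rfl
    rw [zero_pow two_ne_zero, map_inv₀] at hρ
    exact inv_ne_zero hδ' hρ.symm
  -- the transport
  have htr : IsTr (F := F) (algebraMap L[X] K (C δ * a.map (algebraMap k L)))
      (algebraMap L[X] K (C δ * b.map (algebraMap k L)))
      (algebraMap k1[X] K1 (a.map (algebraMap k k1)))
      (algebraMap k1[X] K1 (b.map (algebraMap k k1))) (cst L' F ρ) := by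
    have e : ∀ p : k[X], algebraMap K1 F (algebraMap k1[X] K1 (p.map (algebraMap k k1))) =
        cst L' F ρ ^ 2 * algebraMap K F (algebraMap L[X] K (C δ * p.map (algebraMap k L))) := by
      intro p
      rw [hT1.map, hT.map, Polynomial.map_mul, map_C, Polynomial.map_map, Polynomial.map_map,
        ← IsScalarTower.algebraMap_eq, ← IsScalarTower.algebraMap_eq, map_mul, ← map_pow, hρ,
        ← mul_assoc]
      have e1 : cst L' F (algebraMap L L' δ⁻¹) * algebraMap L'[X] F (C (algebraMap L L' δ)) = 1 := by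
        have : cst L' F (algebraMap L L' δ⁻¹) = algebraMap L'[X] F (C (algebraMap L L' δ⁻¹)) := rfl
        rw [this, ← map_mul, ← C_mul, ← map_mul, inv_mul_cancel₀ hδ, map_one, C_1, map_one]
      rw [e1, one_mul]
    exact ⟨(_root_.map_ne_zero _).2 hρ0, e a, e b⟩
  -- the field `M`
  obtain ⟨S, hS⟩ : ∃ S : Set L', S = {ρ} ∪ Set.range
    (fun i => algebraMap L L' (Module.finBasis k L i)) := ⟨_, rfl⟩
  have hSf : S.Finite := by
    rw [hS]
    exact (Set.finite_singleton _).union (Set.finite_range _)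
  haveI : Finite S := hSf
  obtain ⟨M, hM⟩ : ∃ M : FiniteGaloisIntermediateField k1 L',
    M = FiniteGaloisIntermediateField.adjoin k1 S := ⟨_, rfl⟩
  have hSM : ∀ x ∈ S, x ∈ M.toIntermediateField := by
    rw [hM]
    exact fun x hx => FiniteGaloisIntermediateField.subset_adjoin k1 S hx
  have hρM : ρ ∈ M.toIntermediateField := hSM _ (by rw [hS]; exact Or.inl rfl)
  have hkM : ∀ x : k, algebraMap k L' x ∈ M.toIntermediateField := fun x => by
    rw [IsScalarTower.algebraMap_apply k k1 L']
    exact M.toIntermediateField.algebraMap_mem _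
  have hLM : ∀ x : L, algebraMap L L' x ∈ M.toIntermediateField := by
    intro x
    rw [← (Module.finBasis k L).sum_repr x, map_sum]
    refine sum_mem fun i _ => ?_
    rw [Algebra.smul_def, map_mul, ← IsScalarTower.algebraMap_apply]
    exact mul_mem (hkM _) (hSM _ (by rw [hS]; exact Or.inr ⟨i, rfl⟩))
  have hpc : PC L' _ (⊤ : Subgroup (Sep F ≃ₐ[K] Sep F)) c := ⟨hc.tc, hc.loc, fun τ _ => hc.inv τ⟩
  have hpc1 := pc_tr htr (H' := HM L' K1 F (M.toIntermediateField : Set L')) (fun τ' hτ' => by
    obtain ⟨s, hs⟩ := exists_restr hT1 τ'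
    have hsM := (lifts_mem_HM hs _).1 hτ'
    have hfix : ∀ p : L[X], τ' (algebraMap K (Sep F) (algebraMap L[X] K p)) =
        algebraMap K (Sep F) (algebraMap L[X] K p) := by
      intro p
      rw [IsScalarTower.algebraMap_apply K F (Sep F), hT.map, hs, Polynomial.map_map]
      congr 3
      ext x
      exact hsM _ (hLM x)
    refine ⟨AlgEquiv.ofRingEquiv (f := τ'.toRingEquiv) (by
      intro x
      obtain ⟨n, d, hd, rfl⟩ := IsFractionRing.div_surjective (A := L[X]) x
      show τ' _ = _
      rw [map_div₀, map_div₀, hfix, hfix]), trivial, fun x => rfl, ?_⟩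
    exact hτ' ρ hρM) hpc
  haveI : FiniteDimensional k1 M.toIntermediateField := M.finiteDimensional
  haveI : IsGalois k1 M.toIntermediateField := M.isGalois
  haveI : Normal k1 M.toIntermediateField := inferInstance
  exact nul_tr' htr (one hT1 h2k1 hSB hcard M.toIntermediateField hpc1)

include hT in
/-- The Tate conjecture at two and the vanishing. -/
theorem fin_main (h2 : (2 : k) ≠ 0) {a b : k[X]} (k1 : IntermediateField k L')
    (hSB : SB (a.map (algebraMap k k1)) (b.map (algebraMap k k1)))
    (hcard : ∀ δ : k1, δ ≠ 0 → (Triples2 (C δ * a.map (algebraMap k k1))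
      (C δ * b.map (algebraMap k k1))).encard ≤ 2 ^ (0 + 2)) {δ : L} (hδ : δ ≠ 0) :
    TateAtTwo (F := F) L' (crv (algebraMap L[X] K (C δ * a.map (algebraMap k L)))
      (algebraMap L[X] K (C δ * b.map (algebraMap k L)))) ∧
    GeneratedBy (F := F) L' (crv (algebraMap L[X] K (C δ * a.map (algebraMap k L)))
      (algebraMap L[X] K (C δ * b.map (algebraMap k L)))) 0 := by
  haveI := hT.sep
  haveI := hT.fracK
  have hinj := (algebraMap k k1).injective
  have ha : a ≠ 0 := fun h => hSB.ha (by rw [h, Polynomial.map_zero])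
  have hb : b ≠ 0 := fun h => hSB.hb (by rw [h, Polynomial.map_zero])
  have hab : a ≠ b := fun h => hSB.hab (by rw [h])
  have h2L : (2 : L) ≠ 0 := by
    rw [← map_ofNat (algebraMap k L) 2]
    exact (_root_.map_ne_zero _).2 h2
  have h2K : (2 : K) ≠ 0 := tt h2L
  have inj := IsFractionRing.injective L[X] K
  have hC : (C δ : L[X]) ≠ 0 := C_ne_zero.2 hδ
  have hm0 : ∀ p : k[X], p ≠ 0 → algebraMap L[X] K (C δ * p.map (algebraMap k L)) ≠ 0 := by
    intro p hp
    rw [Ne, map_eq_zero_iff _ inj, mul_eq_zero]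
    push Not
    exact ⟨hC, (Polynomial.map_ne_zero_iff (algebraMap k L).injective).2 hp⟩
  have habK : algebraMap L[X] K (C δ * a.map (algebraMap k L)) ≠
      algebraMap L[X] K (C δ * b.map (algebraMap k L)) := fun h =>
    hab (map_injective _ (algebraMap k L).injective (mul_left_cancel₀ hC (inj h)))
  have hL := isE _ _ (Sep F) h2K (hm0 a ha) (hm0 b hb) habK
  have hnul := fun c (hc : IsTateClass (F := F) L' _ c) => fin_nul hT h2 k1 hSB hcard hδ hc
  refine ⟨?_, 0, fun i => i.elim0, le_rfl, fun i => i.elim0, fun c hc n => ?_⟩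
  · intro c hc hl hi n
    obtain ⟨R, hR, e⟩ := hnul c ⟨hc, hl, hi⟩ n
    have hTT : 2 ^ n • R + 2 ^ n • R = 0 := by
      rw [← two_nsmul, ← mul_smul, ← pow_succ', hR]
    haveI : IsSepClosure K (Sep F) := sepKΩ (Ω := Sep F) hT.map
    haveI : IsGalois K (Sep F) := IsSepClosure.isGalois
    obtain ⟨P, hP⟩ := fixed_point (K := K) (F := K) (Ω := Sep F) _ (2 ^ n • R)
      (fun τ => act_tor _ hL _ hTT)
    exact ⟨P, R, hP.symm, e⟩
  · obtain ⟨R, hR, e⟩ := hnul c hc n
    refine ⟨fun i => i.elim0, R, hR, fun σ => ?_⟩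
    rw [e σ, Finset.univ_eq_empty, Finset.sum_empty, zero_add]

end fin

end Pool.Agent.K9h16.PT
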