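import Pool.Agent.K9h16.PT.Fro

/-!
From finite Galois extensions to the separable closure.
-/

set_option autoImplicit false
set_option linter.all false

open Polynomial
open scoped Classical

namespace Pool.Agent.K9h16.PT

open Pool.Agent.X243.Gen Pool.Agent.X243.Tate Pool.Agent.X243.Sol

section sw

variable {I : Type*}

/-- The transposition. -/
noncomputable def sw (x y : I) : Equiv.Perm I := Equiv.swap x y

theorem swap_inst (i1 i2 : DecidableEq I) (x y : I) :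
    @Equiv.swap I i1 x y = @Equiv.swap I i2 x y := by
  rw [Subsingleton.elim i1 i2]

theorem sw_eq {inst : DecidableEq I} (x y : I) : sw x y = @Equiv.swap I inst x y :=
  swap_inst _ _ x y

theorem sw_inv (x y : I) : (sw x y)⁻¹ = sw x y := Equiv.swap_inv x y

theorem sw_conj (g : Equiv.Perm I) (x y : I) : g * sw x y * g⁻¹ = sw (g x) (g y) :=
  (Equiv.swap_apply_apply g x y).symm

theorem sw_isConj {x y z w : I} (h : x ≠ y) (h' : z ≠ w) : ∃ c, c * sw x y * c⁻¹ = sw z w :=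
  isConj_iff.1 (Equiv.Perm.isConj_swap h h')

theorem sw_of_isSwap {inst : DecidableEq I} {π : Equiv.Perm I} (h : π.IsSwap) :
    ∃ x y, x ≠ y ∧ π = sw x y := by
  obtain ⟨x, y, h1, h2⟩ := h
  exact ⟨x, y, h1, by rw [h2, sw_eq]⟩

theorem sw_apply (x y i : I) : sw x y i = if i = x then y else if i = y then x else i :=
  Equiv.swap_apply_def x y i

theorem sw_equiv {J : Type*} (e : I ≃ J) (x y : I) (i : J) :
    e (sw x y (e.symm i)) = sw (e x) (e y) i := by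
  rw [sw_apply, sw_apply]
  by_cases h1 : i = e x
  · rw [if_pos h1, if_pos (by rw [h1, Equiv.symm_apply_apply])]
  · rw [if_neg h1, if_neg (fun h => h1 (by rw [← h, Equiv.apply_symm_apply]))]
    by_cases h2 : i = e y
    · rw [if_pos h2, if_pos (by rw [h2, Equiv.symm_apply_apply])]
    · rw [if_neg h2, if_neg (fun h => h2 (by rw [← h, Equiv.apply_symm_apply])),
        Equiv.apply_symm_apply]

end sw

section tra

variable {k Ω : Type} [Field k] [Field Ω] [Algebra k Ω] [IsSepClosure k Ω]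

/-- A finite Galois extension which contains a finite set. -/
theorem exists_E (T : Set Ω) (hT : T.Finite) : ∃ E : IntermediateField k Ω,
    FiniteDimensional k E ∧ IsGalois k E ∧ ∀ x ∈ T, x ∈ E := by
  haveI : IsSepClosed Ω := IsSepClosure.sep_closed k
  haveI : IsGalois k Ω := IsSepClosure.isGalois
  haveI : Finite T := hT
  refine ⟨(FiniteGaloisIntermediateField.adjoin k T).toIntermediateField,
    (FiniteGaloisIntermediateField.adjoin k T).finiteDimensional,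
    (FiniteGaloisIntermediateField.adjoin k T).isGalois,
    fun x hx => FiniteGaloisIntermediateField.subset_adjoin k T hx⟩

theorem lift_E (E : IntermediateField k Ω) [IsGalois k E] (σ : E ≃ₐ[k] E) :
    ∃ τ : Ω ≃ₐ[k] Ω, ∀ x : E, τ (x : Ω) = (σ x : Ω) := by
  haveI : IsSepClosed Ω := IsSepClosure.sep_closed k
  haveI : IsGalois k Ω := IsSepClosure.isGalois
  exact ⟨σ.liftNormal Ω, fun x => AlgEquiv.liftNormal_commutes σ Ω x⟩

theorem splits_E {P : k[X]} (hP : P.Separable) (E : IntermediateField k Ω)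
    (h : ∀ θ ∈ P.rootSet Ω, θ ∈ E) : (P.map (algebraMap k E)).Splits := by
  haveI : IsSepClosed Ω := IsSepClosure.sep_closed k
  have hspK : (P.map (algebraMap k Ω)).Splits := IsSepClosed.splits_of_separable _ hP.map
  exact IntermediateField.splits_of_splits (F := E) hspK h

/-- `σ` acts on the roots of `P` by the permutation `π`. -/
def Acts {P : k[X]} (σ : Ω ≃ₐ[k] Ω) (π : Equiv.Perm (P.rootSet Ω)) : Prop :=
  ∀ i : P.rootSet Ω, σ (i : Ω) = (π i : P.rootSet Ω)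

theorem Acts.mul {P : k[X]} {σ σ' : Ω ≃ₐ[k] Ω} {π π' : Equiv.Perm (P.rootSet Ω)} (h : Acts σ π)
    (h' : Acts σ' π') : Acts (σ * σ') (π * π') := by
  intro i
  show σ (σ' i) = (π (π' i) : P.rootSet Ω)
  rw [h', h]

theorem Acts.inv {P : k[X]} {σ : Ω ≃ₐ[k] Ω} {π : Equiv.Perm (P.rootSet Ω)} (h : Acts σ π) :
    Acts σ⁻¹ π⁻¹ := by
  intro i
  have h1 := h (π⁻¹ i)
  have h2 : π (π⁻¹ i) = i := π.apply_symm_apply i
  rw [h2] at h1
  rw [← h1]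
  exact σ.symm_apply_apply _

/-- The roots in a field which contains them. -/
theorem exists_equiv {P : k[X]} (hP : P ≠ 0) (E : IntermediateField k Ω)
    (h : ∀ θ ∈ P.rootSet Ω, θ ∈ E) :
    ∃ e : P.rootSet E ≃ P.rootSet Ω, ∀ i, ((e i : P.rootSet Ω) : Ω) = ((i : E) : Ω) := by
  refine ⟨Equiv.ofBijective (fun i => ⟨((i : E) : Ω), (mem_rs hP).2 ?_⟩) ⟨?_, ?_⟩, fun i => rfl⟩
  · have h1 : aeval (algebraMap E Ω (i : E)) P = algebraMap E Ω (aeval (i : E) P) :=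
      aeval_algebraMap_apply Ω (i : E) P
    rw [aeval_eq_zero_of_mem_rootSet i.2, map_zero] at h1
    exact h1
  · intro i j hij
    exact Subtype.ext (Subtype.ext (congrArg (fun z : P.rootSet Ω => (z : Ω)) hij))
  · intro j
    refine ⟨⟨⟨(j : Ω), h _ j.2⟩, mem_rootSet.2 ⟨hP, ?_⟩⟩, Subtype.ext rfl⟩
    apply (algebraMap E Ω).injective
    rw [map_zero, ← aeval_algebraMap_apply]
    exact rs_root j

theorem full_acts {P : k[X]} (hP : P.Separable) (hf : FullG P) (π : Equiv.Perm (P.rootSet Ω)) :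
    ∃ σ : Ω ≃ₐ[k] Ω, Acts σ π := by
  obtain ⟨E, hE1, hE2, hE⟩ := exists_E (k := k) (P.rootSet Ω) (rootSet_finite P Ω)
  haveI := hE1
  haveI := hE2
  obtain ⟨e, he⟩ := exists_equiv hP.ne_zero E hE
  obtain ⟨σ, hσ⟩ := hf E (splits_E hP E hE) ((e.trans π).trans e.symm)
  obtain ⟨τ, hτ⟩ := lift_E E σ
  refine ⟨τ, fun i => ?_⟩
  have h1 : (i : Ω) = ((e.symm i : P.rootSet E) : E) := by
    rw [← he, Equiv.apply_symm_apply]
  rw [h1, hτ]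
  have h2 : σ ((e.symm i : P.rootSet E) : E) =
      ((MulAction.toPermHom (E ≃ₐ[k] E) (P.rootSet E) σ (e.symm i) : P.rootSet E) : E) := rfl
  rw [h2, hσ, ← he]
  simp

theorem pair_acts {P Q : k[X]} (hP : P.Separable) (hQ : Q.Separable) (h : PairG P Q) :
    ∃ (σ : Ω ≃ₐ[k] Ω) (x y : Q.rootSet Ω), x ≠ y ∧ (∀ θ : Ω, aeval θ P = 0 → σ θ = θ) ∧
      Acts σ (sw x y) := by
  obtain ⟨E, hE1, hE2, hE⟩ := exists_E (k := k) (P.rootSet Ω ∪ Q.rootSet Ω)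
    ((rootSet_finite P Ω).union (rootSet_finite Q Ω))
  haveI := hE1
  haveI := hE2
  have hEP : ∀ θ ∈ P.rootSet Ω, θ ∈ E := fun θ h => hE θ (Or.inl h)
  have hEQ : ∀ θ ∈ Q.rootSet Ω, θ ∈ E := fun θ h => hE θ (Or.inr h)
  obtain ⟨e, he⟩ := exists_equiv hQ.ne_zero E hEQ
  obtain ⟨σ, hσ, hsw'⟩ := h E (splits_E hP E hEP) (splits_E hQ E hEQ)
  obtain ⟨x, y, hxy, hsw⟩ := sw_of_isSwap hsw'
  obtain ⟨τ, hτ⟩ := lift_E E σ
  refine ⟨τ, e x, e y, fun h => hxy (e.injective h), fun θ hθ => ?_, fun i => ?_⟩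
  · have h1 : θ ∈ E := hEP θ ((mem_rs hP.ne_zero).2 hθ)
    have h2 : aeval (⟨θ, h1⟩ : E) P = 0 := by
      apply (algebraMap E Ω).injective
      rw [map_zero, ← aeval_algebraMap_apply]
      exact hθ
    have h3 := hτ ⟨θ, h1⟩
    rw [hσ _ h2] at h3
    exact h3
  · have h1 : (i : Ω) = ((e.symm i : Q.rootSet E) : E) := by
      rw [← he, Equiv.apply_symm_apply]
    rw [h1, hτ]
    have h2 : σ ((e.symm i : Q.rootSet E) : E) =
        ((MulAction.toPermHom (E ≃ₐ[k] E) (Q.rootSet E) σ (e.symm i) : Q.rootSet E) : E) := rfl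
    rw [h2, hsw, ← he, sw_equiv]

/-- All the transpositions. -/
theorem all_swaps {P Q : k[X]} (hP : P.Separable) (hQ : Q.Separable) (hf : FullG Q)
    (h : PairG P Q) {x y : Q.rootSet Ω} (hxy : x ≠ y) :
    ∃ σ : Ω ≃ₐ[k] Ω, (∀ θ : Ω, aeval θ P = 0 → σ θ = θ) ∧ Acts σ (sw x y) := by
  obtain ⟨σ, x0, y0, hne, hσ, hact⟩ := pair_acts (Ω := Ω) hP hQ h
  obtain ⟨π, hπ⟩ := sw_isConj hne hxy
  obtain ⟨τ, hτ⟩ := full_acts hQ hf π
  refine ⟨τ * σ * τ⁻¹, fun θ hθ => ?_, ?_⟩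
  · show τ (σ (τ⁻¹ θ)) = θ
    rw [hσ _ (root_map τ⁻¹ hθ)]
    exact τ.apply_symm_apply θ
  · rw [← hπ]
    exact (hτ.mul hact).mul hτ.inv

/-- The double transpositions which fix the roots of the two other polynomials. -/
theorem pure_dt {P P' Q : k[X]} (hP : P.Separable) (hP' : P'.Separable) (hQ : Q.Separable)
    (hf : FullG Q) (h : PairG P Q) (h' : PairG P' Q) {x y z w : Q.rootSet Ω} (h1 : x ≠ y)
    (h2 : x ≠ z) (h3 : x ≠ w) (h4 : y ≠ z) (h5 : y ≠ w) (h6 : z ≠ w) :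
    ∃ u : Ω ≃ₐ[k] Ω, (∀ i : Q.rootSet Ω, u (i : Ω) = (dt x y z w i : Q.rootSet Ω)) ∧
      (∀ θ : Ω, aeval θ P = 0 → u θ = θ) ∧ ∀ θ : Ω, aeval θ P' = 0 → u θ = θ := by
  haveI : IsSepClosed Ω := IsSepClosure.sep_closed k
  obtain ⟨s, s1, s2⟩ := all_swaps (Ω := Ω) hP hQ hf h h1
  obtain ⟨t, t1, t2⟩ := all_swaps (Ω := Ω) hP' hQ hf h' h2
  obtain ⟨t', t1', t2'⟩ := all_swaps (Ω := Ω) hP' hQ hf h' h5
  obtain ⟨g, hg⟩ : ∃ g, g = t * t' := ⟨_, rfl⟩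
  have g1 : ∀ θ : Ω, aeval θ P' = 0 → g θ = θ := by
    intro θ hθ
    rw [hg]
    show t (t' θ) = θ
    rw [t1' θ hθ, t1 θ hθ]
  have g2 : Acts g (dt x z y w) := by
    rw [hg]
    exact t2.mul t2'
  refine ⟨s * (g * s⁻¹ * g⁻¹), ?_, fun θ hθ => ?_, fun θ hθ => ?_⟩
  · have hact := s2.mul ((g2.mul s2.inv).mul g2.inv)
    have e : sw x y * (dt x z y w * (sw x y)⁻¹ * (dt x z y w)⁻¹) = dt x y z w := by
      rw [sw_inv, sw_conj, dt_1 h1 h3, dt_3 h3 h6]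
      rfl
    rw [e] at hact
    exact hact
  · show s (g (s⁻¹ (g⁻¹ θ))) = θ
    have e1 : s⁻¹ (g⁻¹ θ) = g⁻¹ θ := fix_inv (s1 _ (root_map g⁻¹ hθ))
    have e2 : g (g⁻¹ θ) = θ := g.apply_symm_apply θ
    rw [e1, e2, s1 θ hθ]
  · show s (g (s⁻¹ (g⁻¹ θ))) = θ
    rw [fix_inv (g1 θ hθ), g1 _ (root_map s⁻¹ hθ)]
    exact s.apply_symm_apply θ

/-- The signs. -/
theorem sgn_acts (h2 : (2 : Ω) ≠ 0) {a b : k[X]} (ha : a.Separable) (h : SgnG a b) :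
    ∃ (s : Ω ≃ₐ[k] Ω) (θ₁ θ₂ : Ω), aeval θ₁ a = 0 ∧ aeval θ₂ a = 0 ∧
      (∀ θ : Ω, aeval θ a = 0 → s θ = θ) ∧ sg s (aeval θ₁ b) = 0 ∧ sg s (aeval θ₂ b) = 1 := by
  haveI : IsSepClosed Ω := IsSepClosure.sep_closed k
  obtain ⟨E, hE1, hE2, hE⟩ := exists_E (k := k) (a.rootSet Ω ∪
    (fun θ : Ω => rt (aeval θ b)) '' a.rootSet Ω)
    ((rootSet_finite a Ω).union ((rootSet_finite a Ω).image _))
  haveI := hE1
  haveI := hE2
  have hEa : ∀ θ ∈ a.rootSet Ω, θ ∈ E := fun θ h => hE θ (Or.inl h)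
  have hco : ∀ (x : E) (P : k[X]), aeval (x : Ω) P = ((aeval x P : E) : Ω) := fun x P =>
    aeval_algebraMap_apply Ω x P
  have hex : ∀ θ : E, aeval θ a = 0 → ∃ y : E, y ^ 2 = aeval θ b := by
    intro θ hθ
    have h1 : aeval (θ : Ω) a = 0 := by rw [hco, hθ]; rfl
    refine ⟨⟨rt (aeval (θ : Ω) b), hE _ (Or.inr ⟨θ, (mem_rs ha.ne_zero).2 h1, rfl⟩)⟩, ?_⟩
    apply Subtype.ext
    show rt (aeval (θ : Ω) b) ^ 2 = ((aeval θ b : E) : Ω)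
    rw [rt_sq h2, hco]
  obtain ⟨β, hβ⟩ : ∃ β : E → E, ∀ θ, aeval θ a = 0 → β θ ^ 2 = aeval θ b := by
    refine ⟨fun θ => if h : ∃ y : E, y ^ 2 = aeval θ b then h.choose else 0, fun θ hθ => ?_⟩
    have h := hex θ hθ
    show (if h : ∃ y : E, y ^ 2 = aeval θ b then h.choose else 0) ^ 2 = _
    rw [dif_pos h]
    exact h.choose_spec
  obtain ⟨s, θ₁, θ₂, z₁, z₂, n₁, n₂, s₁, s₂, sfix⟩ := h E (splits_E ha E hEa) β hβ
  obtain ⟨τ, hτ⟩ := lift_E E s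
  have key : ∀ (θ : E) (ε : ZMod 2), aeval θ a = 0 → β θ ≠ 0 →
      s (β θ) = pm E ε * β θ → sg τ (aeval (θ : Ω) b) = ε := by
    intro θ ε hθ hn hs
    have h1 : (β θ : Ω) ^ 2 = aeval (θ : Ω) b := by
      rw [hco, ← hβ θ hθ]
      rfl
    have h3 : (β θ : Ω) ≠ 0 := fun h => hn (Subtype.ext h)
    refine sg_unique h2 (by rw [← h1]; exact pow_ne_zero 2 h3) h1 ?_
    rw [hτ, hs]
    rcases zcases ε with rfl | rfl
    · rw [pm_zero, pm_zero, one_mul, one_mul]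
    · rw [pm_one, pm_one, neg_one_mul, neg_one_mul]
      rfl
  refine ⟨τ, θ₁, θ₂, by rw [hco, z₁]; rfl, by rw [hco, z₂]; rfl, fun θ hθ => ?_,
    key θ₁ 0 z₁ n₁ (by rw [pm_zero, one_mul, s₁]), key θ₂ 1 z₂ n₂ (by
      rw [pm_one, neg_one_mul, s₂])⟩
  have h1 : θ ∈ E := hEa θ ((mem_rs ha.ne_zero).2 hθ)
  have h3 : aeval (⟨θ, h1⟩ : E) a = 0 := Subtype.ext (by rw [← hco]; exact hθ)
  have h4 := hτ ⟨θ, h1⟩
  rw [sfix _ h3] at h4
  exact h4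

/-- The minors. -/
theorem min_acts (h2 : (2 : Ω) ≠ 0) {P Q : k[X]} (hP : P.Separable) (hQ : Q.Separable)
    (hne : ∀ θ η : Ω, aeval θ P = 0 → aeval η Q = 0 → θ - η ≠ 0) (h : MinG P Q) :
    ∃ (s : Ω ≃ₐ[k] Ω) (p q : P.rootSet Ω) (y y' : Q.rootSet Ω),
      (∀ θ : Ω, aeval θ P = 0 → s θ = θ) ∧ (∀ θ : Ω, aeval θ Q = 0 → s θ = θ) ∧
      sg s ((p : Ω) - y) + sg s ((q : Ω) - y) + sg s ((p : Ω) - y') + sg s ((q : Ω) - y') = 1 := by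
  haveI : IsSepClosed Ω := IsSepClosure.sep_closed k
  obtain ⟨f, hf⟩ : ∃ f : Ω × Ω × Ω × Ω → Ω, f = fun x =>
    rt ((x.1 - x.2.2.1) * (x.2.1 - x.2.2.1) * ((x.1 - x.2.2.2) * (x.2.1 - x.2.2.2))) := ⟨_, rfl⟩
  obtain ⟨U, hU⟩ : ∃ U : Set (Ω × Ω × Ω × Ω), U =
    (P.rootSet Ω) ×ˢ ((P.rootSet Ω) ×ˢ ((Q.rootSet Ω) ×ˢ (Q.rootSet Ω))) := ⟨_, rfl⟩
  have hUf : U.Finite := by
    rw [hU]
    exact (rootSet_finite P Ω).prod ((rootSet_finite P Ω).prod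
      ((rootSet_finite Q Ω).prod (rootSet_finite Q Ω)))
  obtain ⟨E, hE1, hE2, hE⟩ := exists_E (k := k) (P.rootSet Ω ∪ Q.rootSet Ω ∪ f '' U)
    (((rootSet_finite P Ω).union (rootSet_finite Q Ω)).union (hUf.image _))
  haveI := hE1
  haveI := hE2
  have hEP : ∀ θ ∈ P.rootSet Ω, θ ∈ E := fun θ h => hE θ (Or.inl (Or.inl h))
  have hEQ : ∀ θ ∈ Q.rootSet Ω, θ ∈ E := fun θ h => hE θ (Or.inl (Or.inr h))
  have hco : ∀ (x : E) (P : k[X]), aeval (x : Ω) P = ((aeval x P : E) : Ω) := fun x P =>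
    aeval_algebraMap_apply Ω x P
  obtain ⟨σ, s1, s2, θ₁, θ₂, η₁, η₂, z₁, z₂, y₁, y₂, hr⟩ := h E (splits_E hP E hEP) (splits_E hQ E hEQ)
  obtain ⟨τ, hτ⟩ := lift_E E σ
  have z₁' : aeval (θ₁ : Ω) P = 0 := by rw [hco, z₁]; rfl
  have z₂' : aeval (θ₂ : Ω) P = 0 := by rw [hco, z₂]; rfl
  have y₁' : aeval (η₁ : Ω) Q = 0 := by rw [hco, y₁]; rfl
  have y₂' : aeval (η₂ : Ω) Q = 0 := by rw [hco, y₂]; rfl
  have t1 : ∀ θ : Ω, aeval θ P = 0 → τ θ = θ := by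
    intro θ hθ
    have h1 : θ ∈ E := hEP θ ((mem_rs hP.ne_zero).2 hθ)
    have h3 : aeval (⟨θ, h1⟩ : E) P = 0 := Subtype.ext (by rw [← hco]; exact hθ)
    have h4 := hτ ⟨θ, h1⟩
    rw [s1 _ h3] at h4
    exact h4
  have t2 : ∀ θ : Ω, aeval θ Q = 0 → τ θ = θ := by
    intro θ hθ
    have h1 : θ ∈ E := hEQ θ ((mem_rs hQ.ne_zero).2 hθ)
    have h3 : aeval (⟨θ, h1⟩ : E) Q = 0 := Subtype.ext (by rw [← hco]; exact hθ)
    have h4 := hτ ⟨θ, h1⟩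
    rw [s2 _ h3] at h4
    exact h4
  refine ⟨τ, ⟨θ₁, (mem_rs hP.ne_zero).2 z₁'⟩, ⟨θ₂, (mem_rs hP.ne_zero).2 z₂'⟩,
    ⟨η₁, (mem_rs hQ.ne_zero).2 y₁'⟩, ⟨η₂, (mem_rs hQ.ne_zero).2 y₂'⟩, t1, t2, ?_⟩
  have n11 := hne _ _ z₁' y₁'
  have n21 := hne _ _ z₂' y₁'
  have n12 := hne _ _ z₁' y₂'
  have n22 := hne _ _ z₂' y₂'
  have w11 : τ ((θ₁ : Ω) - η₁) = (θ₁ : Ω) - η₁ := by rw [map_sub, t1 _ z₁', t2 _ y₁']
  have w21 : τ ((θ₂ : Ω) - η₁) = (θ₂ : Ω) - η₁ := by rw [map_sub, t1 _ z₂', t2 _ y₁']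
  have w12 : τ ((θ₁ : Ω) - η₂) = (θ₁ : Ω) - η₂ := by rw [map_sub, t1 _ z₁', t2 _ y₂']
  have w22 : τ ((θ₂ : Ω) - η₂) = (θ₂ : Ω) - η₂ := by rw [map_sub, t1 _ z₂', t2 _ y₂']
  have hmem : f ((θ₁ : Ω), (θ₂ : Ω), (η₁ : Ω), (η₂ : Ω)) ∈ E := by
    apply hE
    refine Or.inr ⟨_, ?_, rfl⟩
    rw [hU]
    exact ⟨(mem_rs hP.ne_zero).2 z₁', (mem_rs hP.ne_zero).2 z₂', (mem_rs hQ.ne_zero).2 y₁',
      (mem_rs hQ.ne_zero).2 y₂'⟩
  obtain ⟨r, hrr⟩ : ∃ r : E, (r : Ω) = f ((θ₁ : Ω), (θ₂ : Ω), (η₁ : Ω), (η₂ : Ω)) := ⟨⟨_, hmem⟩, rfl⟩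
  have hr2 : (r : Ω) ^ 2 = ((θ₁ : Ω) - η₁) * ((θ₂ : Ω) - η₁) * (((θ₁ : Ω) - η₂) *
      ((θ₂ : Ω) - η₂)) := by
    rw [hrr, hf]
    exact rt_sq h2 _
  obtain ⟨k1, -⟩ := hr r (Subtype.ext hr2)
  have hsg : sg τ (((θ₁ : Ω) - η₁) * ((θ₂ : Ω) - η₁) * (((θ₁ : Ω) - η₂) *
      ((θ₂ : Ω) - η₂))) = 1 := by
    refine sg_unique h2 (mul_ne_zero (mul_ne_zero n11 n21) (mul_ne_zero n12 n22)) hr2 ?_
    rw [hτ, k1, pm_one, neg_one_mul]
    rfl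
  rw [sg_mul h2 (mul_ne_zero n11 n21) (mul_ne_zero n12 n22) (by rw [map_mul, w11, w21])
    (by rw [map_mul, w12, w22]), sg_mul h2 n11 n21 w11 w21, sg_mul h2 n12 n22 w12 w22,
    ← add_assoc] at hsg
  exact hsg

/-- **The group theoretic hypotheses.** -/
theorem gh_of (h2 : (2 : Ω) ≠ 0) {a b : k[X]} (sa : a.Separable) (sb : b.Separable)
    (sd : (a - b).Separable) (hco : IsCoprime a b) (fa : FullG a) (fb : FullG b)
    (fd : FullG (a - b)) (hs : SgnG a b)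
    (hba : PairG b a) (hda : PairG (a - b) a) (hab : PairG a b) (hdb : PairG (a - b) b)
    (had : PairG a (a - b)) (hbd : PairG b (a - b)) (hf : MinG a b) (hg : MinG a (a - b)) :
    GH Ω a b := by
  haveI : IsSepClosed Ω := IsSepClosure.sep_closed k
  exact ⟨fun x y z w h1 h2 h3 h4 h5 h6 => pure_dt sb sd sa fa hba hda h1 h2 h3 h4 h5 h6,
    fun x y z w h1 h2 h3 h4 h5 h6 => pure_dt sa sd sb fb hab hdb h1 h2 h3 h4 h5 h6,
    fun x y z w h1 h2 h3 h4 h5 h6 => pure_dt sa sb sd fd had hbd h1 h2 h3 h4 h5 h6,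
    sgn_acts h2 sa hs, min_acts h2 sa sb (fun _ _ => ne_ab hco) hf,
    min_acts h2 sa sd (fun _ _ => ne_ad hco) hg⟩

end tra

end Pool.Agent.K9h16.PT
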