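import Pool.Agent.K9h16.PT.Nrm

/-!
The combinatorics of the second descent over the splitting field.
-/

set_option autoImplicit false
set_option linter.all false

open scoped Classical

namespace Pool.Agent.K9h16.PT

section cmb

variable {I J L : Type} [Fintype I] [Fintype J] [Fintype L]

/-- The triples of functions. -/
abbrev VV (I J L : Type) : Type := (I → J → ZMod 2) × (I → L → ZMod 2) × (J → L → ZMod 2)

/-- The indicator function. -/
noncomputable def ee {I : Type} (u i : I) : ZMod 2 := if i = u then 1 else 0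

theorem ee_self {I : Type} (u : I) : ee u u = 1 := if_pos rfl

theorem ee_ne {I : Type} {u i : I} (h : i ≠ u) : ee u i = 0 := if_neg h

theorem sum_ee (u : I) (φ : I → ZMod 2) : ∑ i, φ i * ee u i = φ u := by
  unfold ee
  simp

theorem zz (x : ZMod 2) : x + x = 0 := CharTwo.add_self_eq_zero x

theorem zz_fun {X : Type} (φ : X → ZMod 2) : φ + φ = 0 := funext fun x => zz _

theorem zz_fun2 {X Y : Type} (φ : X → Y → ZMod 2) : φ + φ = 0 := funext fun x => zz_fun _

/-- The equations at a triple of functions. -/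
def Sys (α : I → ZMod 2) (β : J → ZMod 2) (γ : L → ZMod 2) (s : VV I J L) : Prop :=
  ∃ pI pJ pL d : ZMod 2, pI = pJ + pL ∧
    (∀ i, pI + ∑ j, β j * s.1 i j + ∑ l, γ l * s.2.1 i l + α i * (d + ∑ j, s.1 i j) = 0) ∧
    (∀ j, pJ + ∑ i, α i * s.1 i j + ∑ l, γ l * s.2.2 j l + β j * (d + ∑ i, s.1 i j) = 0) ∧
    (∀ l, pL + ∑ i, α i * s.2.1 i l + ∑ j, β j * s.2.2 j l + γ l * (d + ∑ i, s.2.1 i l) = 0)

/-- The homomorphism for the norms over the permutations of `I`. -/
def eI : (I → (J → ZMod 2) × (L → ZMod 2)) × (J → L → ZMod 2) →+ VV I J L where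
  toFun x := (fun i => (x.1 i).1, fun i => (x.1 i).2, x.2)
  map_zero' := rfl
  map_add' _ _ := rfl

/-- The homomorphism for the norms over the permutations of `J`. -/
def eJ : (J → (I → ZMod 2) × (L → ZMod 2)) × (I → L → ZMod 2) →+ VV I J L where
  toFun x := (fun i j => (x.1 j).1 i, x.2, fun j l => (x.1 j).2 l)
  map_zero' := rfl
  map_add' _ _ := rfl

/-- The homomorphism for the norms over the permutations of `L`. -/
def eL : (L → (I → ZMod 2) × (J → ZMod 2)) × (I → J → ZMod 2) →+ VV I J L where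
  toFun x := (x.2, fun i l => (x.1 l).1 i, fun j l => (x.1 l).2 j)
  map_zero' := rfl
  map_add' _ _ := rfl

/-- Stable under the double transpositions. -/
structure Stab (S : AddSubgroup (VV I J L)) : Prop where
  hI : ∀ x y z w : I, x ≠ y → x ≠ z → x ≠ w → y ≠ z → y ≠ w → z ≠ w → ∀ s ∈ S,
    ((fun i => s.1 (dt x y z w i), fun i => s.2.1 (dt x y z w i), s.2.2) : VV I J L) ∈ S
  hJ : ∀ x y z w : J, x ≠ y → x ≠ z → x ≠ w → y ≠ z → y ≠ w → z ≠ w → ∀ s ∈ S,
    ((fun i j => s.1 i (dt x y z w j), s.2.1, fun j => s.2.2 (dt x y z w j)) : VV I J L) ∈ S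
  hL : ∀ x y z w : L, x ≠ y → x ≠ z → x ≠ w → y ≠ z → y ≠ w → z ≠ w → ∀ s ∈ S,
    ((s.1, fun i l => s.2.1 i (dt x y z w l), fun j l => s.2.2 j (dt x y z w l)) : VV I J L) ∈ S

theorem zz_prod {X Y : Type} (φ : (X → ZMod 2) × (Y → ZMod 2)) : φ + φ = 0 :=
  Prod.ext (zz_fun _) (zz_fun _)

theorem single_eq {X A : Type} [AddCommGroup A] (u v : X) (a : A) (i : X) :
    (Pi.single u a + Pi.single v a : X → A) i =
      (if i = u then a else 0) + (if i = v then a else 0) := by
  simp only [Pi.add_apply, Pi.single_apply]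

theorem pr_aux {X A : Type} [AddCommGroup A] (π : A →+ ZMod 2) (u v i : X) (a : A) :
    (ee u i + ee v i) * π a = π ((if i = u then a else 0) + (if i = v then a else 0)) := by
  rw [map_add, add_mul]
  congr 1
  · unfold ee
    split_ifs <;> simp
  · unfold ee
    split_ifs <;> simp

/-- The coordinates. -/
def pr1 {X Y : Type} (x : X) : (X → ZMod 2) × (Y → ZMod 2) →+ ZMod 2 where
  toFun z := z.1 x
  map_zero' := rfl
  map_add' _ _ := rfl

/-- The coordinates. -/
def pr2 {X Y : Type} (y : Y) : (X → ZMod 2) × (Y → ZMod 2) →+ ZMod 2 where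
  toFun z := z.2 y
  map_zero' := rfl
  map_add' _ _ := rfl

variable {S : AddSubgroup (VV I J L)} (hS : Stab S) (cI : 5 ≤ Nat.card I) (cJ : 5 ≤ Nat.card J)
  (cL : 5 ≤ Nat.card L)

include hS cI in
theorem stepI {s : VV I J L} (h : s ∈ S) (p q u v : I) :
    ((fun i j => (ee u i + ee v i) * (s.1 p j + s.1 q j),
      fun i l => (ee u i + ee v i) * (s.2.1 p l + s.2.1 q l), 0) : VV I J L) ∈ S := by
  have h1 : ((fun i => (s.1 i, s.2.1 i), s.2.2) :
      (I → (J → ZMod 2) × (L → ZMod 2)) × (J → L → ZMod 2)) ∈ S.comap (eI (I := I) (J := J) (L := L)) :=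
    h
  have h2 := nrm (A := (J → ZMod 2) × (L → ZMod 2)) (B := J → L → ZMod 2) zz_prod zz_fun2 _
    (fun x y z w h1 h2 h3 h4 h5 h6 φ b hb => hS.hI x y z w h1 h2 h3 h4 h5 h6 _ hb) cI h1 p q u v
  have h3 : eI ((Pi.single u ((s.1 p, s.2.1 p) + (s.1 q, s.2.1 q)) +
      Pi.single v ((s.1 p, s.2.1 p) + (s.1 q, s.2.1 q)) : I → (J → ZMod 2) × (L → ZMod 2)),
      (0 : J → L → ZMod 2)) ∈ S := h2
  convert h3 using 1
  refine Prod.ext ?_ (Prod.ext ?_ rfl)
  · funext i j
    show _ = ((Pi.single u _ + Pi.single v _ : I → (J → ZMod 2) × (L → ZMod 2)) i).1 j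
    rw [single_eq]
    exact pr_aux (pr1 (Y := L) j) u v i ((s.1 p, s.2.1 p) + (s.1 q, s.2.1 q))
  · funext i l
    show _ = ((Pi.single u _ + Pi.single v _ : I → (J → ZMod 2) × (L → ZMod 2)) i).2 l
    rw [single_eq]
    exact pr_aux (pr2 (X := J) l) u v i ((s.1 p, s.2.1 p) + (s.1 q, s.2.1 q))

include hS cJ in
theorem stepJ {s : VV I J L} (h : s ∈ S) (p q u v : J) :
    ((fun i j => (ee u j + ee v j) * (s.1 i p + s.1 i q), 0,
      fun j l => (ee u j + ee v j) * (s.2.2 p l + s.2.2 q l)) : VV I J L) ∈ S := by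
  have h1 : ((fun j => (fun i => s.1 i j, s.2.2 j), s.2.1) :
      (J → (I → ZMod 2) × (L → ZMod 2)) × (I → L → ZMod 2)) ∈ S.comap (eJ (I := I) (J := J) (L := L)) :=
    h
  have h2 := nrm (A := (I → ZMod 2) × (L → ZMod 2)) (B := I → L → ZMod 2) zz_prod zz_fun2 _
    (fun x y z w h1 h2 h3 h4 h5 h6 φ b hb => hS.hJ x y z w h1 h2 h3 h4 h5 h6 _ hb) cJ h1 p q u v
  have h3 : eJ ((Pi.single u ((fun i => s.1 i p, s.2.2 p) + (fun i => s.1 i q, s.2.2 q)) +
      Pi.single v ((fun i => s.1 i p, s.2.2 p) + (fun i => s.1 i q, s.2.2 q)) :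
        J → (I → ZMod 2) × (L → ZMod 2)), (0 : I → L → ZMod 2)) ∈ S := h2
  convert h3 using 1
  refine Prod.ext ?_ (Prod.ext rfl ?_)
  · funext i j
    show _ = ((Pi.single u _ + Pi.single v _ : J → (I → ZMod 2) × (L → ZMod 2)) j).1 i
    rw [single_eq]
    exact pr_aux (pr1 (Y := L) i) u v j ((fun i => s.1 i p, s.2.2 p) + (fun i => s.1 i q, s.2.2 q))
  · funext j l
    show _ = ((Pi.single u _ + Pi.single v _ : J → (I → ZMod 2) × (L → ZMod 2)) j).2 l
    rw [single_eq]
    exact pr_aux (pr2 (X := I) l) u v j ((fun i => s.1 i p, s.2.2 p) + (fun i => s.1 i q, s.2.2 q))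

include hS cL in
theorem stepL {s : VV I J L} (h : s ∈ S) (p q u v : L) :
    ((0, fun i l => (ee u l + ee v l) * (s.2.1 i p + s.2.1 i q),
      fun j l => (ee u l + ee v l) * (s.2.2 j p + s.2.2 j q)) : VV I J L) ∈ S := by
  have h1 : ((fun l => (fun i => s.2.1 i l, fun j => s.2.2 j l), s.1) :
      (L → (I → ZMod 2) × (J → ZMod 2)) × (I → J → ZMod 2)) ∈ S.comap (eL (I := I) (J := J) (L := L)) :=
    h
  have h2 := nrm (A := (I → ZMod 2) × (J → ZMod 2)) (B := I → J → ZMod 2) zz_prod zz_fun2 _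
    (fun x y z w h1 h2 h3 h4 h5 h6 φ b hb => hS.hL x y z w h1 h2 h3 h4 h5 h6 _ hb) cL h1 p q u v
  have h3 : eL ((Pi.single u ((fun i => s.2.1 i p, fun j => s.2.2 j p) +
        (fun i => s.2.1 i q, fun j => s.2.2 j q)) +
      Pi.single v ((fun i => s.2.1 i p, fun j => s.2.2 j p) + (fun i => s.2.1 i q,
        fun j => s.2.2 j q)) :
        L → (I → ZMod 2) × (J → ZMod 2)), (0 : I → J → ZMod 2)) ∈ S := h2
  convert h3 using 1
  refine Prod.ext rfl (Prod.ext ?_ ?_)
  · funext i l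
    show _ = ((Pi.single u _ + Pi.single v _ : L → (I → ZMod 2) × (J → ZMod 2)) l).1 i
    rw [single_eq]
    exact pr_aux (pr1 (Y := J) i) u v l ((fun i => s.2.1 i p, fun j => s.2.2 j p) +
      (fun i => s.2.1 i q, fun j => s.2.2 j q))
  · funext j l
    show _ = ((Pi.single u _ + Pi.single v _ : L → (I → ZMod 2) × (J → ZMod 2)) l).2 j
    rw [single_eq]
    exact pr_aux (pr2 (X := I) j) u v l ((fun i => s.2.1 i p, fun j => s.2.2 j p) +
      (fun i => s.2.1 i q, fun j => s.2.2 j q))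

/-- An additive function of two variables has constant sums over an even set. -/
theorem minor {X Y : Type} [Fintype X] [Fintype Y] (hY : Even (Nat.card Y)) (f : X → Y → ZMod 2)
    {p q : X} (h : ∑ y, f p y ≠ ∑ y, f q y) : ∃ y y', f p y + f q y + f p y' + f q y' = 1 := by
  by_contra hcon
  push Not at hcon
  have hz : ∀ x : ZMod 2, x ≠ 1 → x = 0 := by decide
  have h1 : ∀ y y', f p y + f q y = f p y' + f q y' := by
    intro y y'
    have h2 := hz _ (hcon y y')
    have h3 : ∀ a b c d : ZMod 2, a + b + c + d = 0 → a + b = c + d := by decide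
    exact h3 _ _ _ _ h2
  apply h
  rcases isEmpty_or_nonempty Y with hE | ⟨⟨y0⟩⟩
  · simp
  have h4 : ∑ y, (f p y + f q y) = 0 := by
    rw [Finset.sum_congr rfl fun y _ => h1 y y0, Finset.sum_const, Finset.card_univ,
      ← Nat.card_eq_fintype_card, nsmul_eq_mul]
    obtain ⟨m, hm⟩ := hY
    rw [hm]
    push_cast
    rw [zz, zero_mul]
  rw [Finset.sum_add_distrib] at h4
  have h5 : ∀ a b : ZMod 2, a + b = 0 → a = b := by decide
  exact h5 _ _ h4

include hS cI cJ in
theorem pure_f {s : VV I J L} (h : s ∈ S) {p q : I} {y y' : J}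
    (h1 : s.1 p y + s.1 q y + s.1 p y' + s.1 q y' = 1) (u v : I) (x z : J) :
    ((fun i j => (ee u i + ee v i) * (ee x j + ee z j), 0, 0) : VV I J L) ∈ S := by
  have k1 := stepJ hS cJ (stepI hS cI h p q u v) y y' x z
  convert k1 using 1
  refine Prod.ext ?_ (Prod.ext rfl ?_)
  · funext i j
    show (ee u i + ee v i) * (ee x j + ee z j) = (ee x j + ee z j) *
      ((ee u i + ee v i) * (s.1 p y + s.1 q y) + (ee u i + ee v i) * (s.1 p y' + s.1 q y'))
    rw [← mul_add, ← add_assoc, h1, mul_one, mul_comm]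
  · funext j l
    show (0 : ZMod 2) = (ee x j + ee z j) * (0 + 0)
    rw [add_zero, mul_zero]

include hS cI cL in
theorem pure_g {s : VV I J L} (h : s ∈ S) {p q : I} {y y' : L}
    (h1 : s.2.1 p y + s.2.1 q y + s.2.1 p y' + s.2.1 q y' = 1) (u v : I) (x z : L) :
    ((0, fun i l => (ee u i + ee v i) * (ee x l + ee z l), 0) : VV I J L) ∈ S := by
  have k1 := stepL hS cL (stepI hS cI h p q u v) y y' x z
  convert k1 using 1
  refine Prod.ext rfl (Prod.ext ?_ ?_)
  · funext i l
    show (ee u i + ee v i) * (ee x l + ee z l) = (ee x l + ee z l) *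
      ((ee u i + ee v i) * (s.2.1 p y + s.2.1 q y) + (ee u i + ee v i) * (s.2.1 p y' + s.2.1 q y'))
    rw [← mul_add, ← add_assoc, h1, mul_one, mul_comm]
  · funext j l
    show (0 : ZMod 2) = (ee x l + ee z l) * (0 + 0)
    rw [add_zero, mul_zero]

theorem sum_pair (x z : I) (φ : I → ZMod 2) (c : ZMod 2) :
    ∑ j, φ j * (c * (ee x j + ee z j)) = c * (φ x + φ z) := by
  have : ∀ j, φ j * (c * (ee x j + ee z j)) = c * (φ j * ee x j) + c * (φ j * ee z j) := by
    intro j; ring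
  rw [Finset.sum_congr rfl fun j _ => this j, Finset.sum_add_distrib, ← Finset.mul_sum,
    ← Finset.mul_sum, sum_ee, sum_ee]
  ring

theorem sum_pair' (x z : I) (c : ZMod 2) : ∑ j, (c * (ee x j + ee z j)) = 0 := by
  have := sum_pair x z (fun _ => 1) c
  simp only [one_mul] at this
  rw [this, zz, mul_zero]

include hS cI cJ cL in
/-- **The combinatorial theorem.** -/
theorem cmb (hmf : ∃ s ∈ S, ∃ (p q : I) (y y' : J), s.1 p y + s.1 q y + s.1 p y' + s.1 q y' = 1)
    (hmg : ∃ s ∈ S, ∃ (p q : I) (y y' : L),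
      s.2.1 p y + s.2.1 q y + s.2.1 p y' + s.2.1 q y' = 1) {α : I → ZMod 2} {β : J → ZMod 2}
    {γ : L → ZMod 2} (hsys : ∀ s ∈ S, Sys α β γ s) {s : VV I J L} (hs : s ∈ S)
    (hfg : ∀ i, ∑ j, s.1 i j = ∑ l, s.2.1 i l) {p q : I}
    (hne : ∑ j, s.1 p j ≠ ∑ j, s.1 q j) :
    ∃ a b c : ZMod 2, (∀ i, α i = a) ∧ (∀ j, β j = b) ∧ (∀ l, γ l = c) ∧ a + b + c = 0 := by
  obtain ⟨s₁, hs₁, p₁, q₁, y₁, y₁', hy⟩ := hmf
  obtain ⟨s₂, hs₂, p₂, q₂, y₂, y₂', hw⟩ := hmg
  have hf := fun u v x z => hsys _ (pure_f hS cI cJ hs₁ hy u v x z)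
  have hg := fun u v x z => hsys _ (pure_g hS cI cL hs₂ hw u v x z)
  -- the equations for the pure elements
  have ef : ∀ (u v : I) (x z : J), ∃ pI pJ d : ZMod 2,
      (∀ i, pI + (ee u i + ee v i) * (β x + β z) + α i * d = 0) ∧
      (∀ j, pJ + (α u + α v) * (ee x j + ee z j) + β j * d = 0) := by
    intro u v x z
    obtain ⟨pI, pJ, pL, d, -, e1, e2, -⟩ := hf u v x z
    refine ⟨pI, pJ, d, fun i => ?_, fun j => ?_⟩
    · have := e1 i
      simp only [sum_pair, sum_pair', Pi.zero_apply, mul_zero, Finset.sum_const_zero, add_zero] at this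
      exact this
    · have := e2 j
      have k1 : ∀ i, (ee u i + ee v i) * (ee x j + ee z j) = (ee x j + ee z j) * (ee u i + ee v i) :=
        fun i => mul_comm _ _
      simp only [k1, sum_pair, sum_pair', Pi.zero_apply, mul_zero, Finset.sum_const_zero,
        add_zero] at this
      rw [mul_comm (α u + α v)]
      exact this
  have eg : ∀ (u v : I) (x z : L), ∃ pI d : ZMod 2,
      (∀ i, pI + (ee u i + ee v i) * (γ x + γ z) + α i * d = 0) := by
    intro u v x z
    obtain ⟨pI, pJ, pL, d, -, e1, -, -⟩ := hg u v x z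
    refine ⟨pI, d, fun i => ?_⟩
    have := e1 i
    simp only [sum_pair, sum_pair', Pi.zero_apply, mul_zero, Finset.sum_const_zero, add_zero] at this
    exact this
  have hpq : p ≠ q := fun h => hne (by rw [h])
  obtain ⟨t, pt, qt, -, -⟩ := exists_ne_four cI p q q q
  -- `β` is constant
  have hβ : ∀ x z, β x = β z := by
    intro x z
    by_contra hxz
    have h1 : β x + β z = 1 := by
      have : ∀ a b : ZMod 2, a ≠ b → a + b = 1 := by decide
      exact this _ _ hxz
    have key : ∀ u v t : I, u ≠ v → u ≠ t → v ≠ t → α u = α v ∧ α u ≠ α t := by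
      intro u v t h2 h3 h4
      obtain ⟨pI, -, d, e1, -⟩ := ef u v x z
      have k1 := e1 u
      have k2 := e1 v
      have k3 := e1 t
      rw [ee_self, ee_ne h2, h1] at k1
      rw [ee_self, ee_ne h2.symm, h1] at k2
      rw [ee_ne h3.symm, ee_ne h4.symm, h1] at k3
      clear e1
      revert k1 k2 k3
      generalize α u = A
      generalize α v = B
      generalize α t = D
      revert pI d A B D
      decide
    exact (key p q t hpq pt qt).2 (key p t q pt hpq qt.symm).1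
  have hα : ∀ u v, α u = α v := by
    intro u v
    obtain ⟨x⟩ : Nonempty J := by
      by_contra h
      rw [not_nonempty_iff] at h
      rw [Nat.card_eq_zero.2 (Or.inl h)] at cJ
      omega
    obtain ⟨z, xz, -, -, -⟩ := exists_ne_four cJ x x x x
    obtain ⟨t, xt, zt, -, -⟩ := exists_ne_four cJ x z z z
    obtain ⟨-, pJ, d, -, e2⟩ := ef u v x z
    have k1 := e2 x
    have k2 := e2 t
    rw [ee_self, ee_ne xz] at k1
    rw [ee_ne xt.symm, ee_ne zt.symm, hβ t x] at k2
    clear e2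
    revert k1 k2
    generalize α u = A
    generalize α v = B
    generalize β x = D
    revert pJ d A B D
    decide
  have hγ : ∀ x z, γ x = γ z := by
    intro x z
    obtain ⟨pI, d, e1⟩ := eg p q x z
    have k1 := e1 p
    have k2 := e1 t
    rw [ee_self, ee_ne hpq] at k1
    rw [ee_ne pt.symm, ee_ne qt.symm, hα t p] at k2
    clear e1
    revert k1 k2
    generalize γ x = A
    generalize γ z = B
    generalize α p = D
    revert pI d A B D
    decide
  have eJ0 : ∃ b, ∀ j, β j = b := by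
    rcases isEmpty_or_nonempty J with hE | ⟨⟨y0⟩⟩
    · exact ⟨0, fun j => hE.elim j⟩
    · exact ⟨β y0, fun j => hβ _ _⟩
  have eL0 : ∃ c, ∀ l, γ l = c := by
    rcases isEmpty_or_nonempty L with hE | ⟨⟨y0⟩⟩
    · exact ⟨0, fun j => hE.elim j⟩
    · exact ⟨γ y0, fun j => hγ _ _⟩
  obtain ⟨b, hb⟩ := eJ0
  obtain ⟨c, hc⟩ := eL0
  refine ⟨α p, b, c, fun i => hα _ _, hb, hc, ?_⟩
  obtain ⟨pI, pJ, pL, d, -, e1, -, -⟩ := hsys _ hs
  have k1 := e1 p
  have k2 := e1 q
  simp only [hb, hc, ← Finset.mul_sum, ← hfg] at k1 k2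
  rw [hα q p] at k2
  clear e1
  have hne' := hne
  revert k1 k2 hne'
  generalize ∑ j, s.1 p j = A
  generalize ∑ j, s.1 q j = B
  generalize α p = D
  have key : ∀ pI d A B D b c : ZMod 2, pI + b * A + c * A + D * (d + A) = 0 →
      pI + b * B + c * B + D * (d + B) = 0 → A ≠ B → D + b + c = 0 := by decide
  exact key pI d A B D b c

end cmb

end Pool.Agent.K9h16.PT
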