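import Mathlib

/-!
The signs of automorphisms on square roots.
-/

set_option autoImplicit false
set_option linter.all false

open scoped Classical

namespace Pool.Agent.K9h16.PT

section sg

variable {k Ω : Type} [Field k] [Field Ω] [Algebra k Ω]

/-- The sign as an element of a field. -/
noncomputable def pm (Ω : Type) [Field Ω] (s : ZMod 2) : Ω := if s = 0 then 1 else -1

theorem pm_zero : pm Ω 0 = 1 := if_pos rfl

theorem pm_one : pm Ω 1 = -1 := if_neg one_ne_zero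

theorem zcases (s : ZMod 2) : s = 0 ∨ s = 1 := by
  revert s; decide

theorem pm_add (s t : ZMod 2) : pm Ω (s + t) = pm Ω s * pm Ω t := by
  rcases zcases s with rfl | rfl <;> rcases zcases t with rfl | rfl
  · rw [add_zero, pm_zero, one_mul]
  · rw [zero_add, pm_zero, one_mul]
  · rw [add_zero, pm_zero, mul_one]
  · have : (1 : ZMod 2) + 1 = 0 := by decide
    rw [this, pm_zero, pm_one]
    ring

theorem pm_inj (h2 : (2 : Ω) ≠ 0) {s t : ZMod 2} (h : pm Ω s = pm Ω t) : s = t := by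
  have h3 : (1 : Ω) ≠ -1 := by
    intro h
    apply h2
    linear_combination h
  rcases zcases s with rfl | rfl <;> rcases zcases t with rfl | rfl
  · rfl
  · rw [pm_zero, pm_one] at h
    exact absurd h h3
  · rw [pm_zero, pm_one] at h
    exact absurd h.symm h3
  · rfl

theorem map_pm (w : Ω ≃ₐ[k] Ω) (s : ZMod 2) : w (pm Ω s) = pm Ω s := by
  rcases zcases s with rfl | rfl
  · rw [pm_zero, map_one]
  · rw [pm_one, map_neg, map_one]

/-- A square root. -/
noncomputable def rt (x : Ω) : Ω := if h : ∃ y : Ω, y ^ 2 = x then h.choose else 0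

theorem rt_sq [IsSepClosed Ω] (h2 : (2 : Ω) ≠ 0) (x : Ω) : rt x ^ 2 = x := by
  haveI : NeZero ((2 : ℕ) : Ω) := ⟨by rw [Nat.cast_ofNat]; exact h2⟩
  have h := IsSepClosed.exists_pow_nat_eq x 2
  rw [rt, dif_pos h]
  exact h.choose_spec

/-- The sign of `w` on the square root of `x`. -/
noncomputable def sg (w : Ω ≃ₐ[k] Ω) (x : Ω) : ZMod 2 := if w (rt x) = rt x then 0 else 1

variable [IsSepClosed Ω] (h2 : (2 : Ω) ≠ 0)

include h2 in
theorem sg_spec {w : Ω ≃ₐ[k] Ω} {x : Ω} (hw : w x = x) {r : Ω} (hr : r ^ 2 = x) :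
    w r = pm Ω (sg w x) * r := by
  have h1 : r = rt x ∨ r = -rt x := by
    apply sq_eq_sq_iff_eq_or_eq_neg.1
    rw [hr, rt_sq h2]
  have h3 : w (rt x) = rt x ∨ w (rt x) = -rt x := by
    apply sq_eq_sq_iff_eq_or_eq_neg.1
    rw [← map_pow, rt_sq h2, hw]
  have h4 : w (rt x) = pm Ω (sg w x) * rt x := by
    unfold sg
    split_ifs with h
    · rw [pm_zero, one_mul, h]
    · rcases h3 with h3 | h3
      · exact absurd h3 h
      · rw [pm_one, h3]; ring
  rcases h1 with rfl | rfl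
  · exact h4
  · rw [map_neg, h4]; ring

include h2 in
theorem sg_unique {w : Ω ≃ₐ[k] Ω} {x : Ω} (hx : x ≠ 0) {r : Ω} (hr : r ^ 2 = x) {s : ZMod 2}
    (h : w r = pm Ω s * r) : sg w x = s := by
  have hr0 : r ≠ 0 := by
    rintro rfl
    rw [zero_pow two_ne_zero] at hr
    exact hx hr.symm
  have hw : w x = x := by
    rw [← hr, map_pow, h, mul_pow]
    rcases zcases s with rfl | rfl
    · rw [pm_zero, one_pow, one_mul]
    · rw [pm_one, neg_one_sq, one_mul]
  have h1 := sg_spec h2 hw hr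
  rw [h] at h1
  exact (pm_inj h2 (mul_right_cancel₀ hr0 h1)).symm

include h2 in
/-- Squares of fixed elements. -/
theorem sg_sq {w : Ω ≃ₐ[k] Ω} {y : Ω} (hy : y ≠ 0) (hw : w y = y) : sg w (y ^ 2) = 0 :=
  sg_unique h2 (pow_ne_zero 2 hy) rfl (by rw [pm_zero, one_mul, hw])

include h2 in
theorem sg_mul {w : Ω ≃ₐ[k] Ω} {x y : Ω} (hx : x ≠ 0) (hy : y ≠ 0) (wx : w x = x) (wy : w y = y) :
    sg w (x * y) = sg w x + sg w y := by
  refine sg_unique h2 (mul_ne_zero hx hy) (r := rt x * rt y) ?_ ?_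
  · rw [mul_pow, rt_sq h2, rt_sq h2]
  · rw [map_mul, sg_spec h2 wx (rt_sq h2 x), sg_spec h2 wy (rt_sq h2 y), pm_add]
    ring

include h2 in
theorem sg_one_l {x : Ω} (hx : x ≠ 0) : sg (1 : Ω ≃ₐ[k] Ω) x = 0 :=
  sg_unique h2 hx (rt_sq h2 x) (by rw [pm_zero, one_mul]; rfl)

include h2 in
theorem sg_mul_l {w w' : Ω ≃ₐ[k] Ω} {x : Ω} (hx : x ≠ 0) (wx : w x = x) (wx' : w' x = x) :
    sg (w * w') x = sg w x + sg w' x := by
  refine sg_unique h2 hx (rt_sq h2 x) ?_
  show w (w' (rt x)) = _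
  rw [sg_spec h2 wx' (rt_sq h2 x), map_mul, map_pm, sg_spec h2 wx (rt_sq h2 x), pm_add]
  ring

theorem fix_inv {w : Ω ≃ₐ[k] Ω} {x : Ω} (h : w x = x) : w⁻¹ x = x := by
  conv_lhs => rw [← h]
  exact w.symm_apply_apply x

include h2 in
theorem sg_inv {w : Ω ≃ₐ[k] Ω} {x : Ω} (hx : x ≠ 0) (wx : w x = x) : sg w⁻¹ x = sg w x := by
  have h1 := sg_mul_l h2 hx (fix_inv wx) wx
  rw [inv_mul_cancel, sg_one_l h2 hx] at h1
  have h3 : ∀ a b : ZMod 2, 0 = a + b → a = b := by decide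
  exact h3 _ _ h1

include h2 in
/-- Conjugates. -/
theorem sg_conj {w v : Ω ≃ₐ[k] Ω} {x : Ω} (hx : x ≠ 0) (wx : w (v x) = v x) :
    sg (v⁻¹ * w * v) x = sg w (v x) := by
  refine sg_unique h2 hx (rt_sq h2 x) ?_
  show v⁻¹ (w (v (rt x))) = _
  have h1 : (v (rt x)) ^ 2 = v x := by rw [← map_pow, rt_sq h2]
  rw [sg_spec h2 wx h1, map_mul, map_pm]
  congr 1
  exact v.symm_apply_apply _

include h2 in
theorem sg_prod {ι : Type} (w : Ω ≃ₐ[k] Ω) (s : Finset ι) (φ : ι → Ω) (h0 : ∀ i ∈ s, φ i ≠ 0)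
    (hw : ∀ i ∈ s, w (φ i) = φ i) : sg w (∏ i ∈ s, φ i) = ∑ i ∈ s, sg w (φ i) := by
  induction s using Finset.induction_on with
  | empty =>
    rw [Finset.prod_empty, Finset.sum_empty]
    have := sg_sq h2 (w := w) one_ne_zero (map_one w)
    rwa [one_pow] at this
  | insert a s ha ih =>
    rw [Finset.prod_insert ha, Finset.sum_insert ha, sg_mul h2 (h0 a (Finset.mem_insert_self _ _))
      (Finset.prod_ne_zero_iff.2 fun i hi => h0 i (Finset.mem_insert_of_mem hi))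
      (hw a (Finset.mem_insert_self _ _)) (by
        rw [map_prod]
        exact Finset.prod_congr rfl fun i hi => hw i (Finset.mem_insert_of_mem hi))]
    rw [ih (fun i hi => h0 i (Finset.mem_insert_of_mem hi))
      (fun i hi => hw i (Finset.mem_insert_of_mem hi))]

end sg

end Pool.Agent.K9h16.PT
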