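import Pool.Agent.K9h16.PT.Tra
import Pool.Agent.K9h16.PT.Fin

/-!
The potential Tate conjecture at two for general elliptic surfaces with full level two.
-/

set_option autoImplicit false
set_option linter.all false

open Polynomial
open scoped Classical

namespace Pool.Agent.K9h16.PT

open Pool.Agent.TH115.GD Pool.Agent.X243.Gen Pool.Agent.X243.Tate Pool.Agent.X243.Sol

/-- The pairs of `a`, `b`, `a - b`. -/
structure Six {k : Type} [Field k] (a b : k[X]) : Prop where
  ba : PairG b a
  da : PairG (a - b) a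
  ab : PairG a b
  db : PairG (a - b) b
  ad : PairG a (a - b)
  bd : PairG b (a - b)
  mf : MinG a b
  mg : MinG a (a - b)

theorem pot {k : Type} [Field k] (h2 : (2 : k) ≠ 0) {a b : k[X]} {N : ℕ} (hN : 5 ≤ N)
    (fa : FF N a) (fb : FF N b) (fd : FF N (a - b)) (hs : SgnG a b) (h6 : Six a b)
    {L L' K F : Type} [Field L] [Field L'] [Algebra k L] [Algebra L L']
    [Algebra k L'] [IsScalarTower k L L'] [FiniteDimensional k L] [Algebra.IsSeparable k L]
    [Field K] [Algebra L[X] K] [Field F] [Algebra L'[X] F] [IsFractionRing L'[X] F] [Algebra K F]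
    (hT : IsTower L L' K F) {δ : L} (hδ : δ ≠ 0) :
    TateAtTwo (F := F) L' (crv (algebraMap L[X] K (C δ * a.map (algebraMap k L)))
      (algebraMap L[X] K (C δ * b.map (algebraMap k L)))) ∧
    GeneratedBy (F := F) L' (crv (algebraMap L[X] K (C δ * a.map (algebraMap k L)))
      (algebraMap L[X] K (C δ * b.map (algebraMap k L)))) 0 := by
  haveI := hT.sep
  haveI : IsSepClosed L' := IsSepClosure.sep_closed L
  haveI : Algebra.IsSeparable L L' := IsSepClosure.separable
  haveI : Algebra.IsSeparable k L' := Algebra.IsSeparable.trans k L L'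
  haveI : IsSepClosure k L' := ⟨inferInstance, inferInstance⟩
  have h2' : (2 : L') ≠ 0 := by
    rw [← map_ofNat (algebraMap k L') 2]
    exact (map_ne_zero_iff _ (algebraMap k L').injective).2 h2
  have hco := cop_ofG fa hs
  have sa := fa.2.1
  have sb := fb.2.1
  have sd := fd.2.1
  have ta : (a.map (algebraMap k L')).Splits := IsSepClosed.splits_of_separable _ sa.map
  have tb : (b.map (algebraMap k L')).Splits := IsSepClosed.splits_of_separable _ sb.map
  have td : ((a - b).map (algebraMap k L')).Splits := IsSepClosed.splits_of_separable _ sd.map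
  have hG : GH L' a b := gh_of h2' sa sb sd hco fa.2.2 fb.2.2 fd.2.2 hs h6.ba h6.da h6.ab h6.db
    h6.ad h6.bd h6.mf h6.mg
  obtain ⟨T, hT'⟩ : ∃ T : Set L', T = a.rootSet L' ∪ b.rootSet L' ∪ (a - b).rootSet L' :=
    ⟨_, rfl⟩
  obtain ⟨k1, hk⟩ : ∃ k1 : IntermediateField k L', k1 = IntermediateField.adjoin k T := ⟨_, rfl⟩
  have hsub : ∀ x ∈ T, x ∈ k1 := by
    rw [hk]
    exact fun x hx => IntermediateField.subset_adjoin k T hx
  have ra : ∀ θ : L', aeval θ a = 0 → θ ∈ k1 := fun θ h => hsub θ (by
    rw [hT']; exact Or.inl (Or.inl ((mem_rs sa.ne_zero).2 h)))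
  have rb : ∀ θ : L', aeval θ b = 0 → θ ∈ k1 := fun θ h => hsub θ (by
    rw [hT']; exact Or.inl (Or.inr ((mem_rs sb.ne_zero).2 h)))
  have rd : ∀ θ : L', aeval θ (a - b) = 0 → θ ∈ k1 := fun θ h => hsub θ (by
    rw [hT']; exact Or.inr ((mem_rs sd.ne_zero).2 h))
  have hk1 : ∀ w : L' ≃ₐ[k] L', W0 a b w → ∀ x : k1, w (x : L') = x := by
    intro w hw
    have h1 : ∀ x ∈ k1, w x = x := by
      intro x hx
      rw [hk] at hx
      induction hx using IntermediateField.adjoin_induction with
      | mem y hy =>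
        rw [hT'] at hy
        rcases hy with (hy | hy) | hy
        · exact hw.fa y ((mem_rs sa.ne_zero).1 hy)
        · exact hw.fb y ((mem_rs sb.ne_zero).1 hy)
        · exact hw.fd y ((mem_rs sd.ne_zero).1 hy)
      | algebraMap r => exact w.commutes r
      | add y z _ _ h1 h2 => rw [map_add, h1, h2]
      | inv y _ h1 => rw [map_inv₀, h1]
      | mul y z _ _ h1 h2 => rw [map_mul, h1, h2]
    exact fun x => h1 x x.2
  have hca : Nat.card (a.rootSet L') = N := by
    rw [Nat.card_eq_fintype_card, card_rootSet_eq_natDegree sa ta, fa.1.2]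
  have hcb : Nat.card (b.rootSet L') = N := by
    rw [Nat.card_eq_fintype_card, card_rootSet_eq_natDegree sb tb, fb.1.2]
  have hcd : Nat.card ((a - b).rootSet L') = N := by
    rw [Nat.card_eq_fintype_card, card_rootSet_eq_natDegree sd td, fd.1.2]
  have hSB : SB (a.map (algebraMap k k1)) (b.map (algebraMap k k1)) := by
    refine ⟨?_, ?_, ?_, sa.map, sb.map, ?_, hco.map (mapRingHom (algebraMap k k1)), ?_, ?_⟩
    · exact IntermediateField.splits_of_splits (F := k1) ta
        (fun θ hθ => ra θ ((mem_rs sa.ne_zero).1 hθ))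
    · exact IntermediateField.splits_of_splits (F := k1) tb
        (fun θ hθ => rb θ ((mem_rs sb.ne_zero).1 hθ))
    · rw [← Polynomial.map_sub]
      exact IntermediateField.splits_of_splits (F := k1) td
        (fun θ hθ => rd θ ((mem_rs sd.ne_zero).1 hθ))
    · rw [← Polynomial.map_sub]
      exact sd.map
    · rw [natDegree_map, fa.1.2]
      omega
    · rw [natDegree_map, fb.1.2]
      omega
  refine fin_main hT h2 k1 hSB (fun δ' hδ' => ?_) hδ
  exact card_tri h2' hco sa sb sd ta tb td k1 ra rb rd hk1 hG (by rw [hca]; exact hN)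
    (by rw [hcb]; exact hN) (by rw [hcd]; exact hN) hδ'

end Pool.Agent.K9h16.PT
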