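import Mathlib

/-!
Groups which act on a torsion-free separated group trivially modulo two, through a finite quotient:
there is a common eigenvector with the eigenvalues `1` and `-1` which is not divisible by two.
-/

set_option autoImplicit false

namespace Pool.Agent.K9h16.PT

section one

variable {V : Type*} [AddCommGroup V]

/-- `h` is the identity modulo `2 ^ j`. -/
def Cg (j : ℕ) (h : V →+ V) : Prop := ∀ v, ∃ w, h v - v = (2 : ℤ) ^ j • w

theorem tf_pow (htf : ∀ v : V, (2 : ℤ) • v = 0 → v = 0) (j : ℕ) {v : V}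
    (h : (2 : ℤ) ^ j • v = 0) : v = 0 := by
  induction j with
  | zero => simpa using h
  | succ j ih =>
    apply ih
    apply htf
    rw [smul_smul, ← pow_succ']
    exact h

theorem eq_of_sep (hsep : ∀ v : V, (∀ j : ℕ, ∃ w, v = (2 : ℤ) ^ j • w) → v = 0) {h : V →+ V}
    (hh : ∀ j, Cg j h) (v : V) : h v = v := by
  have h1 := hsep (h v - v) (fun j => hh j v)
  exact sub_eq_zero.1 h1

/-- The square of a map which is the identity modulo `2 ^ j`, `j ≥ 1`. -/
theorem Cg.sq (htf : ∀ v : V, (2 : ℤ) • v = 0 → v = 0) {h : V →+ V} {j : ℕ} (hj : 1 ≤ j)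
    (hc : Cg j h) : Cg (j + 1) (h.comp h) := by
  intro v
  obtain ⟨w, hw⟩ := hc v
  obtain ⟨u, hu⟩ := hc w
  obtain ⟨i, rfl⟩ : ∃ i, j = i + 1 := ⟨j - 1, by omega⟩
  refine ⟨w + (2 : ℤ) ^ i • u, ?_⟩
  have e1 : h v = v + (2 : ℤ) ^ (i + 1) • w := by rw [← hw]; abel
  have e2 : h w = w + (2 : ℤ) ^ (i + 1) • u := by rw [← hu]; abel
  show h (h v) - v = _
  rw [e1, map_add, map_zsmul, e1, e2, smul_add, smul_add, smul_smul, smul_smul]
  have e3 : (2 : ℤ) ^ (i + 1 + 1) • w = (2 : ℤ) ^ (i + 1) • w + (2 : ℤ) ^ (i + 1) • w := by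
    rw [pow_succ, mul_smul, two_smul, smul_add]
  have e4 : (2 : ℤ) ^ (i + 1) * 2 ^ (i + 1) = (2 : ℤ) ^ (i + 1 + 1) * 2 ^ i := by ring
  rw [e3, e4]
  abel

theorem Cg.comp {h g : V →+ V} {j : ℕ} (hh : Cg j h) (hg : Cg j g) : Cg j (h.comp g) := by
  intro v
  obtain ⟨w, hw⟩ := hg v
  obtain ⟨u, hu⟩ := hh (g v)
  refine ⟨u + w, ?_⟩
  show h (g v) - v = _
  rw [smul_add, ← hu, ← hw]
  abel

theorem Cg.one (j : ℕ) : Cg j (AddMonoidHom.id V) := fun v => ⟨0, by simp⟩

end one

section grp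

variable {G V : Type*} [Group G] [AddCommGroup V] (ρ : G → (V →+ V))
  (rho_one : ∀ v, ρ 1 v = v) (rho_mul : ∀ g h v, ρ (g * h) v = ρ g (ρ h v))
  (htf : ∀ v : V, (2 : ℤ) • v = 0 → v = 0)
  (hsep : ∀ v : V, (∀ j : ℕ, ∃ w, v = (2 : ℤ) ^ j • w) → v = 0)
  (hmod : ∀ g v, ∃ w, ρ g v - v = (2 : ℤ) • w)

include hmod in
theorem cg_pow_one (g : G) : Cg 1 (ρ g) := fun v => by
  obtain ⟨w, hw⟩ := hmod g v
  exact ⟨w, by rw [pow_one]; exact hw⟩

include rho_one rho_mul htf hsep hmod in
/-- Elements of odd order are trivial. -/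
theorem odd_trivial {g : G} {b : ℕ} (hb : Odd b) (hg : ∀ v, ρ (g ^ b) v = v) (v : V) :
    ρ g v = v := by
  have key : ∀ j, Cg (j + 1) (ρ g) := by
    intro j
    induction j with
    | zero => exact cg_pow_one ρ hmod g
    | succ j ih =>
      obtain ⟨c, rfl⟩ := hb
      -- `g = (g ^ (c + 1)) ^ 2` on `V`
      have hpow : ∀ m : ℕ, Cg (j + 1) (ρ (g ^ m)) := by
        intro m
        induction m with
        | zero =>
          intro v
          exact ⟨0, by rw [pow_zero, rho_one, sub_self, smul_zero]⟩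
        | succ m ihm =>
          intro v
          obtain ⟨w, hw⟩ := (ihm.comp ih) v
          refine ⟨w, ?_⟩
          rw [← hw, pow_succ, rho_mul]
          rfl
      have h2 := (hpow (c + 1)).sq htf (by omega)
      intro v
      obtain ⟨w, hw⟩ := h2 v
      refine ⟨w, ?_⟩
      rw [← hw]
      have h3 : ((ρ (g ^ (c + 1))).comp (ρ (g ^ (c + 1)))) v = ρ g v := by
        show ρ (g ^ (c + 1)) (ρ (g ^ (c + 1)) v) = _
        rw [← rho_mul, ← pow_add]
        have e : c + 1 + (c + 1) = 1 + (2 * c + 1) := by ring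
        rw [e, pow_add, pow_one, rho_mul, hg]
      rw [h3]
  refine eq_of_sep hsep (fun j => ?_) v
  rcases j with _ | j
  · intro v
    exact ⟨ρ g v - v, by rw [pow_zero, one_smul]⟩
  · exact key j

include rho_mul htf hsep in
/-- Involutions which are the identity modulo four are trivial. -/
theorem inv_trivial {g : G} (hc : Cg 2 (ρ g)) (hg : ∀ v, ρ (g * g) v = v) (v : V) :
    ρ g v = v := by
  have h1 : ρ g (ρ g v - v) = -(ρ g v - v) := by
    rw [map_sub, ← rho_mul, hg]
    abel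
  have key : ∀ j : ℕ, ∃ w, ρ g v - v = (2 : ℤ) ^ j • w ∧ ρ g w = -w := by
    intro j
    induction j with
    | zero => exact ⟨ρ g v - v, by rw [pow_zero, one_smul], h1⟩
    | succ j ih =>
      obtain ⟨w, hw, hgw⟩ := ih
      obtain ⟨u, hu⟩ := hc w
      rw [hgw] at hu
      have e1 : (2 : ℤ) • (w + (2 : ℤ) • u) = 0 := by
        rw [smul_add, smul_smul]
        have : (2 : ℤ) ^ 2 • u = (2 * 2 : ℤ) • u := by norm_num
        rw [← this, ← hu, two_smul]
        abel
      have e2 : w = (2 : ℤ) • (-u) := by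
        have := htf _ e1
        rw [smul_neg]
        exact eq_neg_of_add_eq_zero_left this
      refine ⟨-u, ?_, ?_⟩
      · rw [hw]
        nth_rewrite 1 [e2]
        rw [smul_smul, ← pow_succ]
      · have e3 : (2 : ℤ) • (ρ g (-u) + (-u)) = 0 := by
          rw [smul_add, ← map_zsmul, ← e2, hgw]
          abel
        exact eq_neg_of_add_eq_zero_left (htf _ e3)
  exact sub_eq_zero.1 (hsep _ fun j => by
    obtain ⟨w, hw, -⟩ := key j
    exact ⟨w, hw⟩)

include rho_one rho_mul htf hsep hmod in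
/-- Elements of finite order have order two. -/
theorem sq_trivial {g : G} {m : ℕ} (hm : 0 < m) (hg : ∀ v, ρ (g ^ m) v = v) (v : V) :
    ρ (g * g) v = v := by
  obtain ⟨a, b, hb, rfl⟩ : ∃ a b, Odd b ∧ m = 2 ^ a * b := by
    obtain ⟨a, b, h1, h2⟩ := Nat.exists_eq_two_pow_mul_odd hm.ne'
    exact ⟨a, b, h1, h2⟩
  have h1 : ∀ v, ρ (g ^ 2 ^ a) v = v := fun v =>
    odd_trivial ρ rho_one rho_mul htf hsep hmod hb (fun v => by rw [← pow_mul]; exact hg v) v
  -- descend
  have key : ∀ a : ℕ, (∀ v, ρ (g ^ 2 ^ (a + 1)) v = v) → ∀ v, ρ (g ^ 2) v = v := by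
    intro a
    induction a with
    | zero =>
      intro h v
      simpa using h v
    | succ a ih =>
      intro h
      apply ih
      intro v
      have hc2 : ∀ x : G, Cg 2 (ρ (x * x)) := by
        intro x v
        obtain ⟨w, hw⟩ := ((cg_pow_one ρ hmod x).sq htf le_rfl) v
        refine ⟨w, ?_⟩
        rw [← hw, rho_mul]
        rfl
      refine inv_trivial ρ rho_mul htf hsep ?_ ?_ v
      · have e : g ^ 2 ^ (a + 1) = g ^ 2 ^ a * g ^ 2 ^ a := by
          rw [← pow_add, pow_succ]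
          congr 1
          ring
        rw [e]
        exact hc2 _
      · intro v
        have e : g ^ 2 ^ (a + 1) * g ^ 2 ^ (a + 1) = g ^ 2 ^ (a + 1 + 1) := by
          rw [← pow_add]
          congr 1
          ring
        rw [e]
        exact h v
  rcases a with _ | a
  · have h3 : ∀ v, ρ g v = v := by simpa using h1
    rw [rho_mul, h3, h3]
  · rw [← pow_two]
    exact key a h1 v

include rho_one rho_mul htf hsep hmod in
/-- A common eigenvector. -/
theorem eigen (S : Finset G) (hS : ∀ g : G, ∃ s ∈ S, ∀ v, ρ g v = ρ s v)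
    (hfin : ∀ g : G, ∃ m : ℕ, 0 < m ∧ ∀ v, ρ (g ^ m) v = v) (hne : ∃ v : V, v ≠ 0) :
    ∃ (u : V) (χ : G → ℤˣ), (∀ w, u ≠ (2 : ℤ) • w) ∧ (∀ g, ρ g u = (χ g : ℤ) • u) ∧
      ∀ g g', χ (g * g') = χ g * χ g' := by
  classical
  have hsq : ∀ (g : G) (v : V), ρ (g * g) v = v := by
    intro g v
    obtain ⟨m, hm, h⟩ := hfin g
    exact sq_trivial ρ rho_one rho_mul htf hsep hmod hm h v
  have hcomm : ∀ (g g' : G) (v : V), ρ g (ρ g' v) = ρ g' (ρ g v) := by
    intro g g' v
    have h1 := hsq (g * g') (ρ g' (ρ g v))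
    have e : g * g' * (g * g') = g * g' * g * g' := by group
    rw [e, rho_mul, rho_mul, rho_mul] at h1
    have h2 : ρ g' (ρ g' (ρ g v)) = ρ g v := by rw [← rho_mul]; exact hsq _ _
    have h3 : ρ g (ρ g v) = v := by rw [← rho_mul]; exact hsq _ _
    rw [h2, h3] at h1
    exact h1
  have step : ∀ T : Finset G, ∃ u : V, u ≠ 0 ∧ ∀ g ∈ T, ρ g u = u ∨ ρ g u = -u := by
    intro T
    induction T using Finset.induction_on with
    | empty =>
      obtain ⟨v, hv⟩ := hne
      exact ⟨v, hv, fun g hg => absurd hg (Finset.notMem_empty _)⟩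
    | insert g T hg ih =>
      obtain ⟨u, hu, h⟩ := ih
      have hgg : ρ g (ρ g u) = u := by rw [← rho_mul]; exact hsq _ _
      by_cases h0 : u + ρ g u = 0
      · refine ⟨u, hu, fun t ht => ?_⟩
        rcases Finset.mem_insert.1 ht with rfl | ht
        · right
          exact eq_neg_of_add_eq_zero_right h0
        · exact h t ht
      · refine ⟨u + ρ g u, h0, fun t ht => ?_⟩
        rcases Finset.mem_insert.1 ht with rfl | ht
        · left
          rw [map_add, hgg, add_comm]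
        · rcases h t ht with h1 | h1
          · left
            rw [map_add, hcomm, h1]
          · right
            rw [map_add, hcomm, h1, map_neg]
            abel
  obtain ⟨u, hu, h⟩ := step S
  -- divide by two
  have hex : ∃ j : ℕ, ¬ ∃ w, u = (2 : ℤ) ^ j • w := by
    by_contra hcon
    push Not at hcon
    exact hu (hsep u hcon)
  classical
  obtain ⟨j, hj, hmin⟩ : ∃ j, (¬ ∃ w, u = (2 : ℤ) ^ j • w) ∧ ∀ i < j, ∃ w, u = (2 : ℤ) ^ i • w := by
    refine ⟨Nat.find hex, Nat.find_spec hex, fun i hi => ?_⟩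
    have := Nat.find_min hex hi
    exact not_not.1 this
  rcases j with _ | j
  · exact absurd ⟨u, by rw [pow_zero, one_smul]⟩ hj
  obtain ⟨w, hw⟩ := hmin j (Nat.lt_succ_self j)
  have hw2 : ∀ z, w ≠ (2 : ℤ) • z := by
    rintro z rfl
    apply hj
    exact ⟨z, by rw [hw, smul_smul, ← pow_succ]⟩
  have hw0 : w ≠ 0 := fun h => hw2 0 (by rw [h, smul_zero])
  have hpm : ∀ g : G, ∃ χ : ℤˣ, ρ g w = (χ : ℤ) • w := by
    intro g
    obtain ⟨s, hs, hgs⟩ := hS g
    rcases h s hs with h1 | h1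
    · refine ⟨1, ?_⟩
      rw [← hgs, hw, map_zsmul, ← sub_eq_zero, ← smul_sub] at h1
      have := tf_pow htf j h1
      rw [Units.val_one, one_smul]
      exact sub_eq_zero.1 this
    · refine ⟨-1, ?_⟩
      rw [← hgs, hw, map_zsmul, ← smul_neg, ← sub_eq_zero, ← smul_sub] at h1
      have := tf_pow htf j h1
      rw [Units.val_neg, Units.val_one, neg_smul, one_smul]
      exact sub_eq_zero.1 this
  choose χ hχ using hpm
  refine ⟨w, χ, hw2, hχ, fun g g' => ?_⟩
  have h1 := hχ (g * g')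
  rw [rho_mul, hχ g', map_zsmul, hχ g, smul_smul, ← Units.val_mul] at h1
  -- the coefficients are equal
  have h2 : ∀ x y : ℤˣ, (x : ℤ) • w = (y : ℤ) • w → x = y := by
    intro x y hxy
    rcases Int.units_eq_one_or x with rfl | rfl <;> rcases Int.units_eq_one_or y with rfl | rfl
    · rfl
    · exfalso
      apply hw0
      apply htf
      rw [Units.val_one, one_smul, Units.val_neg, Units.val_one, neg_smul, one_smul] at hxy
      rw [two_smul]
      nth_rewrite 1 [hxy]
      abel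
    · exfalso
      apply hw0
      apply htf
      rw [Units.val_one, one_smul, Units.val_neg, Units.val_one, neg_smul, one_smul] at hxy
      rw [two_smul]
      nth_rewrite 1 [← hxy]
      abel
    · rfl
  have h3 := h2 _ _ h1
  rw [← h3, mul_comm]

end grp

end Pool.Agent.K9h16.PT
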