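import Pool.Agent.K9h16.PT.LT
import Pool.Agent.K9h16.PT.Mod

/-!
The classes of the 2-adic Selmer group which are fixed by a normal subgroup of finite index of the Galois
group, the action of the Galois group on them, and eigenvectors.
-/

set_option autoImplicit false
set_option linter.all false

open Polynomial IsDedekindDomain WeierstrassCurve WeierstrassCurve.Affine
open scoped Classical Pointwise

namespace Pool.Agent.K9h16.PT

open Pool.Agent.TH115.GD

section defs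

variable {K F : Type} [Field K] [Field F] [Algebra K F]

/-- Cochains. -/
abbrev Cc (W : WeierstrassCurve K) (F : Type) [Field F] [Algebra K F] : Type :=
  ℕ → (Sep F ≃ₐ[F] Sep F) → Pt W (Sep F)

/-- The class of `c` in `V_2 Sel` is fixed by the subgroup `H` of `Gal(Sep F / K)`. -/
structure PC (k' : Type) [Field k'] [Algebra k'[X] F] [IsFractionRing k'[X] F]
    (W : WeierstrassCurve K) (H : Subgroup (Sep F ≃ₐ[K] Sep F)) (c : Cc W F) : Prop where
  tc : IsTC W c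
  loc : ∀ n, LocallyTrivial k' W (c n)
  inv : ∀ τ ∈ H, ∃ (m : ℕ) (Q : ℕ → Pt W (Sep F)), IsTM W Q ∧
    ∀ (n : ℕ) (σ σ' : Sep F ≃ₐ[F] Sep F), (∀ x, τ (σ' x) = σ (τ x)) →
      2 ^ m • (act W (ak τ) (c n σ') - c n σ) = act W (rs K σ) (Q n) - Q n

/-- The class is zero in `V_2 Sel`. -/
def Nul (W : WeierstrassCurve K) (c : Cc W F) : Prop :=
  ∀ n, ∃ R : Pt W (Sep F), 2 ^ (n + 1) • R = 0 ∧ ∀ σ, c n σ = act W (rs K σ) R - R

/-- The conjugate of an automorphism. -/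
noncomputable def cj (hN : Preserves K F (Sep F)) (τ : Sep F ≃ₐ[K] Sep F)
    (σ : Sep F ≃ₐ[F] Sep F) : Sep F ≃ₐ[F] Sep F :=
  (exists_conj hN τ σ).choose

theorem cj_spec (hN : Preserves K F (Sep F)) (τ : Sep F ≃ₐ[K] Sep F) (σ : Sep F ≃ₐ[F] Sep F)
    (x : Sep F) : τ (cj hN τ σ x) = σ (τ x) :=
  (exists_conj hN τ σ).choose_spec x

theorem cj_eq (hN : Preserves K F (Sep F)) {τ : Sep F ≃ₐ[K] Sep F} {σ σ' : Sep F ≃ₐ[F] Sep F}
    (h : ∀ x, τ (σ' x) = σ (τ x)) : cj hN τ σ = σ' := by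
  apply AlgEquiv.ext
  intro x
  apply τ.injective
  rw [cj_spec, h]

variable {W : WeierstrassCurve K}

theorem act_cj (hN : Preserves K F (Sep F)) (τ : Sep F ≃ₐ[K] Sep F) (σ : Sep F ≃ₐ[F] Sep F)
    (P : Pt W (Sep F)) : act W (ak τ) (act W (rs K (cj hN τ σ)) P) =
      act W (rs K σ) (act W (ak τ) P) := by
  have h5 : (ak τ).comp (rs K (cj hN τ σ)) = (rs K σ).comp (ak τ) :=
    AlgHom.ext fun x => cj_spec hN τ σ x
  rw [act_act, act_act, h5]

/-- The action of the Galois group on cochains. -/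
noncomputable def TA (hN : Preserves K F (Sep F)) (τ : Sep F ≃ₐ[K] Sep F) (c : Cc W F) : Cc W F :=
  fun n σ => act W (ak τ) (c n (cj hN τ σ))

theorem TA_one (hN : Preserves K F (Sep F)) (c : Cc W F) : TA hN 1 c = c := by
  funext n σ
  show act W (ak 1) (c n (cj hN 1 σ)) = c n σ
  rw [cj_eq hN (σ' := σ) (fun x => rfl)]
  have h : ak (1 : Sep F ≃ₐ[K] Sep F) = AlgHom.id K (Sep F) := rfl
  rw [h]
  exact Point.map_id _

theorem TA_mul (hN : Preserves K F (Sep F)) (τ τ' : Sep F ≃ₐ[K] Sep F) (c : Cc W F) :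
    TA hN (τ * τ') c = TA hN τ (TA hN τ' c) := by
  funext n σ
  show act W (ak (τ * τ')) (c n (cj hN (τ * τ') σ)) =
    act W (ak τ) (act W (ak τ') (c n (cj hN τ' (cj hN τ σ))))
  have h1 : cj hN (τ * τ') σ = cj hN τ' (cj hN τ σ) := cj_eq hN fun x => by
    show τ (τ' _) = σ (τ (τ' x))
    rw [cj_spec, cj_spec]
  rw [h1, act_act]
  rfl

theorem TA_add (hN : Preserves K F (Sep F)) (τ : Sep F ≃ₐ[K] Sep F) (c c' : Cc W F) :
    TA hN τ (c + c') = TA hN τ c + TA hN τ c' := by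
  funext n σ
  exact map_add _ _ _

theorem TA_neg (hN : Preserves K F (Sep F)) (τ : Sep F ≃ₐ[K] Sep F) (c : Cc W F) :
    TA hN τ (-c) = -TA hN τ c := by
  funext n σ
  exact map_neg _ _

variable {k' : Type} [Field k'] [Algebra k'[X] F] [IsFractionRing k'[X] F]
  {H : Subgroup (Sep F ≃ₐ[K] Sep F)}

theorem PC.zero : PC k' W H (0 : Cc W F) :=
  ⟨IsTC.zero' W, fun n => ⟨fun v => LocTriv.zero W, LocTriv.zero W⟩, fun τ _ =>
    IsInv.zero' W τ⟩

theorem PC.add {c c' : Cc W F} (h : PC k' W H c) (h' : PC k' W H c') : PC k' W H (c + c') := by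
  refine ⟨h.tc.add W h'.tc, fun n => ⟨fun v => LocTriv.add W (h'.tc.coc n) ((h.loc n).1 v)
    ((h'.loc n).1 v), LocTriv.add W (h'.tc.coc n) (h.loc n).2 (h'.loc n).2⟩, fun τ hτ => ?_⟩
  obtain ⟨m, Q, hQ, e⟩ := h.inv τ hτ
  obtain ⟨m', Q', hQ', e'⟩ := h'.inv τ hτ
  refine ⟨m + m', fun n => 2 ^ m' • Q n + 2 ^ m • Q' n, ⟨?_, fun n => ?_⟩,
    fun n σ σ' hσ => ?_⟩
  · show 2 ^ m' • Q 0 + 2 ^ m • Q' 0 = 0
    rw [hQ.zero, hQ'.zero, smul_zero, smul_zero, add_zero]
  · show 2 • (2 ^ m' • Q (n + 1) + 2 ^ m • Q' (n + 1)) = 2 ^ m' • Q n + 2 ^ m • Q' n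
    rw [smul_add, smul_comm 2, smul_comm 2, hQ.two, hQ'.two]
  · have h1 := e n σ σ' hσ
    have h2 := e' n σ σ' hσ
    show 2 ^ (m + m') • (act W (ak τ) (c n σ' + c' n σ') - (c n σ + c' n σ)) =
      act W (rs K σ) (2 ^ m' • Q n + 2 ^ m • Q' n) - (2 ^ m' • Q n + 2 ^ m • Q' n)
    have h3 : act W (ak τ) (c n σ' + c' n σ') - (c n σ + c' n σ) =
        (act W (ak τ) (c n σ') - c n σ) + (act W (ak τ) (c' n σ') - c' n σ) := by
      rw [map_add]; abel
    rw [h3, smul_add]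
    nth_rewrite 1 [pow_add]
    rw [mul_comm (2 ^ m) (2 ^ m'), mul_smul, h1, pow_add, mul_smul, h2, map_add, map_nsmul,
      map_nsmul, smul_sub, smul_sub]
    abel

theorem PC.neg {c : Cc W F} (h : PC k' W H c) : PC k' W H (-c) := by
  have e : -c = fun n σ => (-1 : ℤ) • c n σ := by
    funext n σ
    show -(c n σ) = _
    rw [neg_smul, one_smul]
  rw [e]
  refine ⟨h.tc.smul W (-1), fun n => ⟨fun v => LocTriv.smul W ((h.loc n).1 v) (-1),
    LocTriv.smul W (h.loc n).2 (-1)⟩, fun τ hτ => ?_⟩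
  obtain ⟨m, Q, hQ, e⟩ := h.inv τ hτ
  refine ⟨m, fun n => -Q n, ⟨?_, fun n => ?_⟩, fun n σ σ' hσ => ?_⟩
  · show -Q 0 = 0
    rw [hQ.zero, neg_zero]
  · show 2 • -Q (n + 1) = -Q n
    rw [smul_neg, hQ.two]
  · have h1 := e n σ σ' hσ
    show 2 ^ m • (act W (ak τ) ((-1 : ℤ) • c n σ') - (-1 : ℤ) • c n σ) =
      act W (rs K σ) (-Q n) - (-Q n)
    rw [map_zsmul, ← smul_sub, neg_smul, one_smul, smul_neg, h1, map_neg]
    abel

/-- The group of the classes. -/
def UU (k' : Type) [Field k'] [Algebra k'[X] F] [IsFractionRing k'[X] F]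
    (W : WeierstrassCurve K) (H : Subgroup (Sep F ≃ₐ[K] Sep F)) : AddSubgroup (Cc W F) where
  carrier := {c | PC k' W H c}
  add_mem' := PC.add
  zero_mem' := PC.zero
  neg_mem' := PC.neg

theorem Nul.zero : Nul W (0 : Cc W F) := fun n => ⟨0, smul_zero _, fun σ => by
  rw [map_zero, sub_zero]
  rfl⟩

theorem Nul.add {c c' : Cc W F} (h : Nul W c) (h' : Nul W c') : Nul W (c + c') := by
  intro n
  obtain ⟨R, hR, e⟩ := h n
  obtain ⟨R', hR', e'⟩ := h' n
  refine ⟨R + R', by rw [smul_add, hR, hR', add_zero], fun σ => ?_⟩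
  show c n σ + c' n σ = _
  rw [e, e', map_add]
  abel

theorem Nul.neg {c : Cc W F} (h : Nul W c) : Nul W (-c) := by
  intro n
  obtain ⟨R, hR, e⟩ := h n
  refine ⟨-R, by rw [smul_neg, hR, neg_zero], fun σ => ?_⟩
  show -(c n σ) = _
  rw [e, map_neg]
  abel

theorem Nul.TA (hN : Preserves K F (Sep F)) {c : Cc W F} (h : Nul W c) (τ : Sep F ≃ₐ[K] Sep F) :
    Nul W (TA hN τ c) := by
  intro n
  obtain ⟨R, hR, e⟩ := h n
  refine ⟨act W (ak τ) R, by rw [← map_nsmul, hR, map_zero], fun σ => ?_⟩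
  show act W (ak τ) (c n (cj hN τ σ)) = _
  rw [e, map_sub, act_cj]

/-- The zero classes. -/
def NN (k' : Type) [Field k'] [Algebra k'[X] F] [IsFractionRing k'[X] F]
    (W : WeierstrassCurve K) (H : Subgroup (Sep F ≃ₐ[K] Sep F)) : AddSubgroup (UU k' W H) where
  carrier := {c | Nul W c.1}
  add_mem' := fun h h' => Nul.add h h'
  zero_mem' := Nul.zero
  neg_mem' := fun h => Nul.neg h

end defs

section coc

variable {K F : Type} [Field K] [Field F] [Algebra K F] {W : WeierstrassCurve K}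

theorem conj_coc (hN : Preserves K F (Sep F)) {f : (Sep F ≃ₐ[F] Sep F) → Pt W (Sep F)}
    (hf : IsCoc W f) (τ : Sep F ≃ₐ[K] Sep F) :
    IsCoc W (fun σ => act W (ak τ) (f (cj hN τ σ))) := by
  have hmul : ∀ σ σ₁ : Sep F ≃ₐ[F] Sep F, act W (ak τ) (f (cj hN τ (σ * σ₁))) =
      act W (ak τ) (f (cj hN τ σ)) + act W (rs K σ) (act W (ak τ) (f (cj hN τ σ₁))) := by
    intro σ σ₁
    have h1 : cj hN τ (σ * σ₁) = cj hN τ σ * cj hN τ σ₁ := cj_eq hN fun x => by
      show τ (cj hN τ σ (cj hN τ σ₁ x)) = σ (σ₁ (τ x))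
      rw [cj_spec, cj_spec]
    rw [h1, hf.mul, map_add, act_cj]
  refine ⟨?_, hmul⟩
  -- an open neighbourhood of one
  have h0 : f 1 = 0 := by
    have h1 := hf.mul 1 1
    rw [mul_one] at h1
    have h2 : act W (rs K (1 : Sep F ≃ₐ[F] Sep F)) (f 1) = f 1 := by
      have h : rs K (1 : Sep F ≃ₐ[F] Sep F) = AlgHom.id K (Sep F) := rfl
      rw [h]
      exact Point.map_id _
    rw [h2] at h1
    exact (left_eq_add.1 h1)
  obtain ⟨U, hU, h1U, hUf⟩ := (IsLocallyConstant.iff_exists_open _).1 hf.lc 1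
  have hU1 : U ∈ nhds (1 : Sep F ≃ₐ[F] Sep F) := hU.mem_nhds h1U
  obtain ⟨E, hE, hEU⟩ := (krullTopology_mem_nhds_one_iff F (Sep F) U).1 hU1
  haveI : Algebra.IsSeparable F (Sep F) := IsSepClosure.separable
  haveI : Algebra.IsSeparable F E := inferInstance
  obtain ⟨α, hα⟩ := Field.exists_primitive_element F E
  have hfix : ∀ ρ : Sep F ≃ₐ[F] Sep F, ρ (α : Sep F) = α → f ρ = 0 := by
    intro ρ hρ
    have h3 : ρ ∈ E.fixingSubgroup := by
      rw [IntermediateField.mem_fixingSubgroup_iff]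
      intro x hx
      have h4 : (⟨x, hx⟩ : E) ∈ IntermediateField.adjoin F {α} := by rw [hα]; trivial
      let ρ' : E →ₐ[F] Sep F := (ρ : Sep F →ₐ[F] Sep F).comp E.val
      have h5 : ∀ y ∈ IntermediateField.adjoin F {α}, ρ' y = E.val y := by
        intro y hy
        have h6 : IntermediateField.adjoin F {α} ≤ AlgHom.fieldRange (AlgHom.id F E) := by simp
        induction hy using IntermediateField.adjoin_induction with
        | mem y hy =>
          rw [Set.mem_singleton_iff] at hy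
          rw [hy]
          exact hρ
        | algebraMap r => rw [AlgHom.commutes, AlgHom.commutes]
        | add y z _ _ h1 h2 => rw [map_add, map_add, h1, h2]
        | inv y _ h1 => rw [map_inv₀, map_inv₀, h1]
        | mul y z _ _ h1 h2 => rw [map_mul, map_mul, h1, h2]
      exact h5 _ h4
    rw [hUf ρ (hEU h3), h0]
  rw [IsLocallyConstant.iff_exists_open]
  intro σ
  refine ⟨σ • (MulAction.stabilizer (Sep F ≃ₐ[F] Sep F) (τ (α : Sep F)) :
    Set (Sep F ≃ₐ[F] Sep F)), ?_, ⟨1, (MulAction.stabilizer _ _).one_mem, mul_one σ⟩, ?_⟩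
  · exact (stabilizer_isOpen_of_isIntegral _).smul σ
  · rintro _ ⟨ρ, hρ, rfl⟩
    have h3 : ρ (τ (α : Sep F)) = τ (α : Sep F) := hρ
    have h4 : cj hN τ ρ (α : Sep F) = α := by
      apply τ.injective
      rw [cj_spec, h3]
    show act W (ak τ) (f (cj hN τ (σ * ρ))) = act W (ak τ) (f (cj hN τ σ))
    rw [hmul, hfix _ h4, map_zero, map_zero, add_zero]

end coc

section main

variable {k k' K F : Type} [Field k] [Field k'] [Algebra k k'] [Field K] [Algebra k[X] K]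
    [Field F] [Algebra k'[X] F] [IsFractionRing k'[X] F] [Algebra K F]
    (hT : IsTower k k' K F) {W : WeierstrassCurve K} {H : Subgroup (Sep F ≃ₐ[K] Sep F)}
    (hN : Preserves K F (Sep F))

include hT in
theorem PC.TA (hH : H.Normal) {c : Cc W F} (h : PC k' W H c) (τ : Sep F ≃ₐ[K] Sep F) :
    PC k' W H (TA hN τ c) := by
  refine ⟨⟨fun n => conj_coc hN (h.tc.coc n) τ, fun σ => ?_, fun n σ => ?_⟩, fun n => ?_,
    fun τ' hτ' => ?_⟩
  · show act W (ak τ) (c 0 (cj hN τ σ)) = 0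
    rw [h.tc.zero, map_zero]
  · show 2 • act W (ak τ) (c (n + 1) (cj hN τ σ)) = act W (ak τ) (c n (cj hN τ σ))
    rw [← map_nsmul, h.tc.two]
  · refine lt_conj hT τ (fun σ σ' hσ => ?_) (h.loc n)
    show act W (ak τ) (c n (cj hN τ σ)) = _
    rw [cj_eq hN hσ]
  · obtain ⟨m, Q, hQ, e⟩ := h.inv (τ⁻¹ * τ' * τ) (by
      have := hH.conj_mem τ' hτ' τ⁻¹
      rwa [inv_inv] at this)
    refine ⟨m, fun n => act W (ak τ) (Q n), ⟨?_, fun n => ?_⟩, fun n σ σ' hσ => ?_⟩
    · show act W (ak τ) (Q 0) = 0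
      rw [hQ.zero, map_zero]
    · show 2 • act W (ak τ) (Q (n + 1)) = _
      rw [← map_nsmul, hQ.two]
    · have hinv : ∀ x, (τ⁻¹ : Sep F ≃ₐ[K] Sep F) (τ x) = x := fun x => τ.symm_apply_apply x
      have hinv' : ∀ x, τ ((τ⁻¹ : Sep F ≃ₐ[K] Sep F) x) = x := fun x => τ.apply_symm_apply x
      have h1 := e n (cj hN τ σ) (cj hN τ σ') (fun x => by
        apply τ.injective
        show τ (τ⁻¹ (τ' (τ (cj hN τ σ' x)))) = τ (cj hN τ σ (τ⁻¹ (τ' (τ x))))
        rw [hinv', cj_spec, cj_spec, hinv', hσ])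
      have h2 := congrArg (act W (ak τ)) h1
      rw [map_nsmul, map_sub, map_sub, act_cj] at h2
      have h3 : act W (ak τ) (act W (ak (τ⁻¹ * τ' * τ)) (c n (cj hN τ σ'))) =
          act W (ak τ') (act W (ak τ) (c n (cj hN τ σ'))) := by
        have h4 : (ak τ).comp (ak (τ⁻¹ * τ' * τ)) = (ak τ').comp (ak τ) := by
          apply AlgHom.ext
          intro x
          show τ (τ⁻¹ (τ' (τ x))) = τ' (τ x)
          rw [hinv']
        rw [act_act, act_act, h4]
      rw [h3] at h2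
      exact h2

/-- The action on the group of the classes. -/
noncomputable def TU (hH : H.Normal) (τ : Sep F ≃ₐ[K] Sep F) : UU k' W H →+ UU k' W H where
  toFun c := ⟨Pool.Agent.K9h16.PT.TA hN τ c.1, PC.TA hT hN hH c.2 τ⟩
  map_zero' := by
    apply Subtype.ext
    funext n σ
    exact map_zero _
  map_add' c c' := Subtype.ext (TA_add hN τ c.1 c'.1)

end main

end Pool.Agent.K9h16.PT
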