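import Pool.Agent.K9h16.PT.Mnr

/-!
The events at a maximal ideal and their density.
-/

set_option autoImplicit false
set_option linter.all false

open Polynomial
open scoped Classical

namespace Pool.Agent.K9h16.PT

open Pool.Agent.TH115.GD Pool.Agent.X243.Gen Pool.Agent.X243.Tate Pool.Agent.X243.Sol
open Pool.Agent.Y160.T3

section lf

/-- The coefficients of `a`, `b`, `a - b`. -/
def lf {R : Type} [CommRing R] {N : ℕ} (i : Fin 3) (z : Fin (N + 1) ⊕ Fin (N + 1) → R) :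
    Fin (N + 1) → R :=
  if i = 0 then z ∘ Sum.inl else if i = 1 then z ∘ Sum.inr else
    fun j => z (Sum.inl j) - z (Sum.inr j)

theorem lf_map {R S : Type} [CommRing R] [CommRing S] (φ : R →+* S) {N : ℕ} (i : Fin 3)
    (z : Fin (N + 1) ⊕ Fin (N + 1) → R) :
    lf i (fun j => φ (z j)) = fun j => φ (lf i z j) := by
  unfold lf
  split_ifs
  · rfl
  · rfl
  · funext j
    rw [map_sub]

/-- Any two of the three vectors are arbitrary. -/
theorem lf_surj {R : Type} [CommRing R] {N : ℕ} {i j : Fin 3} (hij : i ≠ j) :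
    ∃ Φ : (Fin (N + 1) → R) → (Fin (N + 1) → R) → (Fin (N + 1) ⊕ Fin (N + 1) → R),
      ∀ u v, lf i (Φ u v) = u ∧ lf j (Φ u v) = v := by
  have e0 : ∀ x y : Fin (N + 1) → R, lf 0 (Sum.elim x y) = x := fun x y => rfl
  have e1 : ∀ x y : Fin (N + 1) → R, lf 1 (Sum.elim x y) = y := fun x y => rfl
  have e2 : ∀ x y : Fin (N + 1) → R, lf 2 (Sum.elim x y) = x - y := fun x y => rfl
  fin_cases i <;> fin_cases j
  · exact absurd rfl hij
  · exact ⟨fun u v => Sum.elim u v, fun u v => ⟨e0 _ _, e1 _ _⟩⟩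
  · exact ⟨fun u v => Sum.elim u (u - v), fun u v => ⟨e0 _ _, (e2 _ _).trans (by abel)⟩⟩
  · exact ⟨fun u v => Sum.elim v u, fun u v => ⟨e1 _ _, e0 _ _⟩⟩
  · exact absurd rfl hij
  · exact ⟨fun u v => Sum.elim (v + u) u, fun u v => ⟨e1 _ _, (e2 _ _).trans (by abel)⟩⟩
  · exact ⟨fun u v => Sum.elim v (v - u), fun u v => ⟨(e2 _ _).trans (by abel), e0 _ _⟩⟩
  · exact ⟨fun u v => Sum.elim (u + v) v, fun u v => ⟨(e2 _ _).trans (by abel), e1 _ _⟩⟩
  · exact absurd rfl hij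

theorem lf_card {F : Type} [Field F] [Finite F] {N : ℕ} {i j : Fin 3} (hij : i ≠ j)
    (A B : Set (Fin (N + 1) → F)) :
    A.ncard * B.ncard ≤
      ({z : Fin (N + 1) ⊕ Fin (N + 1) → F | lf i z ∈ A ∧ lf j z ∈ B}).ncard := by
  obtain ⟨Φ, hΦ⟩ := lf_surj (R := F) (N := N) hij
  rw [← Set.ncard_prod]
  refine Set.ncard_le_ncard_of_injOn (fun x => Φ x.1 x.2) ?_ ?_ (Set.toFinite _)
  · rintro ⟨u, v⟩ ⟨hu, hv⟩
    show lf i (Φ u v) ∈ A ∧ lf j (Φ u v) ∈ B
    rw [(hΦ u v).1, (hΦ u v).2]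
    exact ⟨hu, hv⟩
  · rintro ⟨u, v⟩ _ ⟨u', v'⟩ _ h
    have h' : Φ u v = Φ u' v' := h
    have h1 := (hΦ u v).1
    have h2 := (hΦ u v).2
    rw [h', (hΦ u' v').1] at h1
    rw [h', (hΦ u' v').2] at h2
    rw [h1, h2]

theorem lf_card2 {F : Type} [Field F] [Finite F] {N : ℕ} {i j : Fin 3} (hij : i ≠ j)
    (A : Set ((Fin (N + 1) → F) × (Fin (N + 1) → F))) :
    A.ncard ≤ ({z : Fin (N + 1) ⊕ Fin (N + 1) → F | (lf i z, lf j z) ∈ A}).ncard := by
  obtain ⟨Φ, hΦ⟩ := lf_surj (R := F) (N := N) hij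
  refine Set.ncard_le_ncard_of_injOn (fun x => Φ x.1 x.2) ?_ ?_ (Set.toFinite _)
  · rintro ⟨u, v⟩ h
    show (lf i (Φ u v), lf j (Φ u v)) ∈ A
    rw [(hΦ u v).1, (hΦ u v).2]
    exact h
  · rintro ⟨u, v⟩ _ ⟨u', v'⟩ _ h
    have h' : Φ u v = Φ u' v' := h
    have h1 := (hΦ u v).1
    have h2 := (hΦ u v).2
    rw [h', (hΦ u' v').1] at h1
    rw [h', (hΦ u' v').2] at h2
    rw [h1, h2]

/-- The index set of the events. -/
abbrev Ie : Type := Option (Fin 3 × Fin 3) ⊕ (Fin 3 × Fin 3) ⊕ Bool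

/-- The events. -/
def Gp (N : ℕ) (s : Ie) (R : Type) [CommRing R] :
    Set (Fin (N + 1) ⊕ Fin (N + 1) → R) :=
  match s with
  | Sum.inl s => Fe7 N s R
  | Sum.inr (Sum.inl s) => {z | s.1 ≠ s.2 → lf s.1 z ∈ E4 R N ∧ lf s.2 z ∈ E3 R N}
  | Sum.inr (Sum.inr c) => {z | MM N (bF (lf 0 z)) (bF (lf (if c then 2 else 1) z))}

/-- The constant. -/
def D9 (N : ℕ) : ℕ := D7 N * KM N

theorem Gp_card {F : Type} [Field F] [Finite F] {N : ℕ} (hN : 3 ≤ N)
    (hq : 16 * N + 16 ≤ Nat.card F) (h2 : (2 : F) ≠ 0) (s : Ie) :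
    Nat.card F ^ (2 * N + 2) ≤ D9 N * (Gp N s F).ncard := by
  haveI := Fintype.ofFinite F
  have hK := KM_pos N
  have hmono : ∀ X : ℕ, D7 N * X ≤ D9 N * X := fun X =>
    Nat.mul_le_mul_right _ (Nat.le_mul_of_pos_right _ hK)
  have hDD : 0 < DD N := by
    have := D3_pos N
    unfold DD
    positivity
  obtain ⟨q, hqd⟩ : ∃ q, q = Nat.card F := ⟨_, rfl⟩
  have hqF : q = Fintype.card F := by rw [hqd, Nat.card_eq_fintype_card]
  rcases s with s | ⟨i, j⟩ | c
  · exact (Fe7_card hN (by omega) h2 s).trans (hmono _)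
  · refine le_trans ?_ (hmono _)
    rw [← hqd]
    by_cases hij : i = j
    · have e : Gp N (Sum.inr (Sum.inl (i, j))) F = Set.univ := by
        ext z
        exact ⟨fun _ => trivial, fun _ h => absurd hij h⟩
      rw [e, Set.ncard_univ, Nat.card_fun, Nat.card_eq_fintype_card
        (α := Fin (N + 1) ⊕ Fin (N + 1)), Fintype.card_sum, Fintype.card_fin, ← hqd]
      have e2 : N + 1 + (N + 1) = 2 * N + 2 := by omega
      rw [e2]
      exact Nat.le_mul_of_pos_left _ (D7_pos (by omega))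
    · have h4 := E4_card (F := F) (N := N) (by omega) (by rw [← hqF, hqd]; omega)
      have h3 := Ev_card (F := F) (N := N) hN (by rw [← hqF, hqd]; omega) 2
      rw [← hqF] at h4 h3
      have e3 : Pool.Agent.X243.Sol.Ev F N 2 = E3 F N := by
        unfold Pool.Agent.X243.Sol.Ev
        rw [if_neg (by decide), if_neg (by decide)]
      rw [e3] at h3
      have e : Gp N (Sum.inr (Sum.inl (i, j))) F =
          {z : Fin (N + 1) ⊕ Fin (N + 1) → F | lf i z ∈ E4 F N ∧ lf j z ∈ E3 F N} := by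
        ext z
        exact ⟨fun h => h hij, fun h _ => h⟩
      rw [e]
      calc q ^ (2 * N + 2) = q ^ (N + 1) * q ^ (N + 1) := by ring
        _ ≤ (D4 N * (E4 F N).ncard) * (DD N * (E3 F N).ncard) := Nat.mul_le_mul h4 h3
        _ = (DD N * D4 N) * ((E4 F N).ncard * (E3 F N).ncard) := by ring
        _ ≤ D7 N * ((E4 F N).ncard * (E3 F N).ncard) := by
            refine Nat.mul_le_mul_right _ ?_
            unfold D7
            refine Nat.mul_le_mul_left _ ?_
            omega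
        _ ≤ _ := Nat.mul_le_mul_left _ (lf_card hij _ _)
  · have h1 := MM_card (F := F) h2 (N := N) (by omega) (by rw [← hqF, hqd]; exact hq)
    rw [← hqF] at h1
    rw [← hqd]
    have h3 := lf_card2 (F := F) (N := N) (i := 0) (j := if c then 2 else 1)
      (by cases c <;> decide)
      {x : (Fin (N + 1) → F) × (Fin (N + 1) → F) | MM N (bF x.1) (bF x.2)}
    refine h1.trans (Nat.mul_le_mul ?_ h3)
    unfold D9 D7
    calc KM N * D4 N = D4 N * KM N := mul_comm _ _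
      _ ≤ (DD N * (16 * D4 N)) * KM N := by
        refine Nat.mul_le_mul_right _ ?_
        calc D4 N ≤ 16 * D4 N := by omega
          _ ≤ DD N * (16 * D4 N) := Nat.le_mul_of_pos_left _ hDD

end lf

section dens

variable {R k : Type} [CommRing R] [IsDomain R] [IsIntegrallyClosed R] [IsNoetherianRing R]
  [Field k] [Algebra R k] [IsFractionRing R k]

variable (R) in
theorem densP [Algebra.FiniteType ℤ R] (hR : ¬ IsField R)
    (h2 : (2 : R) ≠ 0) {N : ℕ} (hN : 3 ≤ N) (η : ℝ) (hη : 0 < η) :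
    ∃ M : Ideal R, Finite (R ⧸ M) ∧
      (1 - η) * (Nat.card (R ⧸ M) : ℝ) ^ (Fintype.card (Fin (N + 1) ⊕ Fin (N + 1))) ≤
      (({x : Fin (N + 1) ⊕ Fin (N + 1) → R ⧸ M | ∀ s : Ie,
        ∃ p ∈ Zg R (16 * N + 16), ∀ y : Fin (N + 1) ⊕ Fin (N + 1) → R,
          (∀ j, Ideal.Quotient.mk M (y j) = x j) →
          (fun j => Ideal.Quotient.mk p (y j)) ∈ Gp N s (R ⧸ p)}).ncard : ℝ) := by
  have hD : (0 : ℝ) < ((D9 N : ℕ) : ℝ) := by
    have : 0 < D9 N := Nat.mul_pos (D7_pos (by omega)) (KM_pos N)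
    exact_mod_cast this
  refine densityG (Zg R (16 * N + 16)) (Zg_inf R hR h2 _) (fun p hp => hp.1) (fun p hp => hp.2.1)
    (fun s p => Gp N s (R ⧸ p)) (c := 1 / ((D9 N : ℕ) : ℝ)) (by positivity) ?_ η hη
  intro s p hp
  haveI := hp.1
  letI : Field (R ⧸ p) := Ideal.Quotient.field p
  haveI : Finite (R ⧸ p) := hp.2.1
  have h1 := Gp_card (F := R ⧸ p) hN hp.2.2.1 (Zg_two hp) s
  have hc : Fintype.card (Fin (N + 1) ⊕ Fin (N + 1)) = 2 * N + 2 := by
    rw [Fintype.card_sum, Fintype.card_fin]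
    omega
  rw [hc, one_div, inv_mul_le_iff₀ hD]
  exact_mod_cast h1

/-- The pairs from the events. -/
theorem six_of {N B : ℕ} {y : Fin (N + 1) ⊕ Fin (N + 1) → R}
    (h : ∀ s : Ie, ∃ p ∈ Zg R B,
      (fun j => Ideal.Quotient.mk p (y j)) ∈ Gp N s (R ⧸ p)) (a b : k[X])
    (ha : a = (bF (y ∘ Sum.inl)).map (algebraMap R k))
    (hb : b = (bF (y ∘ Sum.inr)).map (algebraMap R k)) : Six a b := by
  have key : ∀ i j : Fin 3, i ≠ j → PairG ((bF (lf i y)).map (algebraMap R k))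
      ((bF (lf j y)).map (algebraMap R k)) := by
    intro i j hij
    obtain ⟨p, hp, e⟩ := h (Sum.inr (Sum.inl (i, j)))
    obtain ⟨e1, e2⟩ := e hij
    simp only at e1 e2
    haveI := hp.1
    haveI := hp.2.1
    rw [lf_map] at e1 e2
    refine frob_pair (N := N) p k (bF_nd _) (bF_nd _) ?_ ?_
    · rw [bF_map]
      exact e1
    · rw [bF_map]
      exact e2
  have key2 : ∀ c : Bool, MinG ((bF (lf 0 y)).map (algebraMap R k))
      ((bF (lf (if c then 2 else 1) y)).map (algebraMap R k)) := by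
    intro c
    obtain ⟨p, hp, e⟩ := h (Sum.inr (Sum.inr c))
    have e' : MM N (bF (lf 0 (fun j => Ideal.Quotient.mk p (y j))))
      (bF (lf (if c then 2 else 1) (fun j => Ideal.Quotient.mk p (y j)))) := e
    haveI := hp.1
    haveI := hp.2.1
    rw [lf_map, lf_map] at e'
    refine frob_minor (N := N) p k (bF_nd _) (bF_nd _) ?_
    rw [bF_map, bF_map]
    exact e'
  have e0 : (bF (lf 0 y)).map (algebraMap R k) = a := ha.symm
  have e1 : (bF (lf 1 y)).map (algebraMap R k) = b := hb.symm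
  have e2 : (bF (lf 2 y)).map (algebraMap R k) = a - b := by
    rw [ha, hb, ← Polynomial.map_sub, ← bF_sub]
    rfl
  have m1 : MinG ((bF (lf 0 y)).map (algebraMap R k)) ((bF (lf 1 y)).map (algebraMap R k)) :=
    key2 false
  have m2 : MinG ((bF (lf 0 y)).map (algebraMap R k)) ((bF (lf 2 y)).map (algebraMap R k)) :=
    key2 true
  have k01 := key 0 1 (by decide)
  have k02 := key 0 2 (by decide)
  have k10 := key 1 0 (by decide)
  have k12 := key 1 2 (by decide)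
  have k20 := key 2 0 (by decide)
  have k21 := key 2 1 (by decide)
  rw [e0, e2] at k02 m2
  rw [e1, e2] at k12
  rw [e2, e0] at k20
  rw [e2, e1] at k21
  rw [e0, e1] at k01 m1
  rw [e1, e0] at k10
  exact ⟨k10, k20, k01, k21, k02, k12, m1, m2⟩

end dens

end Pool.Agent.K9h16.PT
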