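import Pool.Agent.K9h16.PT.Cls

/-!
Eigenvectors in the group of the classes.
-/

set_option autoImplicit false
set_option linter.all false

open Polynomial IsDedekindDomain WeierstrassCurve WeierstrassCurve.Affine
open scoped Classical Pointwise

namespace Pool.Agent.K9h16.PT

open Pool.Agent.TH115.GD

section tors

variable {K F : Type} [Field K] [Field F] [Algebra K F] {W : WeierstrassCurve K}
  {k' : Type} [Field k'] [Algebra k'[X] F] [IsFractionRing k'[X] F]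
  {H : Subgroup (Sep F ≃ₐ[K] Sep F)}

/-- Torsion points fixed by `Gal(Sep F / F)` are of order two. -/
theorem fix_two (hF : NoFour W F) {R : Pt W (Sep F)} {m : ℕ} (hR : 2 ^ m • R = 0)
    (hfix : ∀ σ : Sep F ≃ₐ[F] Sep F, act W (rs K σ) R = R) : R + R = 0 := by
  obtain ⟨Q, hQ⟩ := fixed_point (K := K) (F := F) W R hfix
  have h1 : act W (incl K F (Sep F)) (2 ^ m • Q) = 0 := by rw [map_nsmul, hQ, hR]
  have h2 : 2 ^ m • Q = 0 := act_inj W (incl K F (Sep F)) (by rw [h1, map_zero])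
  have h3 := two_of_pow W hF m Q h2
  rw [← hQ, ← map_add, h3, map_zero]

theorem pow_tc {c : Cc W F} (hc : IsTC W c) (n : ℕ) (σ : Sep F ≃ₐ[F] Sep F) :
    2 ^ n • c n σ = 0 := by
  induction n with
  | zero => rw [pow_zero, one_smul, hc.zero]
  | succ n ih => rw [pow_succ, mul_smul, hc.two, ih]

theorem two_pow_tc {c : Cc W F} (hc : IsTC W c) (m n : ℕ) (σ : Sep F ≃ₐ[F] Sep F) :
    2 ^ m • c (n + m) σ = c n σ := by
  induction m with
  | zero => rw [pow_zero, one_smul, add_zero]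
  | succ m ih => rw [pow_succ, mul_smul, ← add_assoc, hc.two, ih]

/-- Multiples of `c` are zero only if `c` is. -/
theorem nul_of_pow (hF : NoFour W F) {c : Cc W F} (hc : IsTC W c) {m : ℕ}
    (h : ∀ n, ∃ (R : Pt W (Sep F)) (j : ℕ), 2 ^ j • R = 0 ∧
      ∀ σ, 2 ^ m • c n σ = act W (rs K σ) R - R) : Nul W c := by
  intro n
  obtain ⟨R, j, hR, e⟩ := h (n + m)
  refine ⟨R, ?_, fun σ => ?_⟩
  · have h1 : 2 ^ n • R + 2 ^ n • R = 0 := by
      apply fix_two hF (m := j)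
      · rw [smul_comm, hR, smul_zero]
      · intro σ
        have h2 := e σ
        rw [two_pow_tc hc] at h2
        have h3 := pow_tc hc n σ
        rw [h2, smul_sub, sub_eq_zero] at h3
        rw [map_nsmul, h3]
    rw [← two_nsmul, smul_smul, ← pow_succ'] at h1
    exact h1
  · rw [← e, two_pow_tc hc]

/-- From a zero class to the format of invariance. -/
theorem Nul.inv (hF : NoFour W F) {e : Cc W F} (he : IsTC W e) (h : Nul W e) :
    ∃ Q : ℕ → Pt W (Sep F), IsTM W Q ∧ ∀ n σ, 2 • e n σ = act W (rs K σ) (Q n) - Q n := by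
  choose R hR hs using h
  refine ⟨fun n => 2 • R n, ⟨?_, fun n => ?_⟩, fun n σ => ?_⟩
  · show 2 • R 0 = 0
    have := hR 0
    rwa [zero_add, pow_one] at this
  · show 2 • (2 • R (n + 1)) = 2 • R n
    have h1 : (2 • R (n + 1) - R n) + (2 • R (n + 1) - R n) = 0 := by
      apply fix_two hF (m := n + 1)
      · rw [smul_sub, hR, sub_zero, smul_smul, ← pow_succ, hR]
      · intro σ
        have h2 := he.two n σ
        rw [hs, hs, smul_sub, ← map_nsmul] at h2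
        rw [map_sub]
        rw [sub_eq_sub_iff_add_eq_add] at h2 ⊢
        rw [h2, add_comm]
    rw [← two_nsmul, smul_sub, sub_eq_zero] at h1
    exact h1
  · rw [hs, smul_sub, map_nsmul]

end tors

section main

variable {k k' K F : Type} [Field k] [Field k'] [Algebra k k'] [Field K] [Algebra k[X] K]
    [Field F] [Algebra k'[X] F] [IsFractionRing k'[X] F] [Algebra K F]
    (hT : IsTower k k' K F) {W : WeierstrassCurve K} {H : Subgroup (Sep F ≃ₐ[K] Sep F)}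
    (hN : Preserves K F (Sep F)) (hF : NoFour W F) (hH : H.Normal)

theorem NN_TU (τ : Sep F ≃ₐ[K] Sep F) :
    NN k' W H ≤ (NN k' W H).comap (TU hT hN hH τ) := fun c hc => Nul.TA hN hc τ

/-- The action on the quotient. -/
noncomputable def rho (τ : Sep F ≃ₐ[K] Sep F) :
    (UU k' W H ⧸ NN k' W H) →+ (UU k' W H ⧸ NN k' W H) :=
  QuotientAddGroup.map _ _ (TU hT hN hH τ) (NN_TU hT hN hH τ)

theorem rho_mk (τ : Sep F ≃ₐ[K] Sep F) (c : UU k' W H) :
    rho hT hN hH τ (QuotientAddGroup.mk c) = QuotientAddGroup.mk (TU hT hN hH τ c) := rfl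

theorem mk_eq {c c' : UU k' W H} : (QuotientAddGroup.mk c : UU k' W H ⧸ NN k' W H) =
    QuotientAddGroup.mk c' ↔ Nul W (c.1 - c'.1) := by
  rw [← sub_eq_zero, ← QuotientAddGroup.mk_sub, QuotientAddGroup.eq_zero_iff]
  rfl

include hT hN hF hH in
/-- Eigenvectors. -/
theorem exists_eigen (hfin : H.FiniteIndex)
    (hone : ∀ c : Cc W F, PC k' W H c → ∀ (τ : Sep F ≃ₐ[K] Sep F) (σ σ' : Sep F ≃ₐ[F] Sep F),
      (∀ x, τ (σ' x) = σ (τ x)) → act W (ak τ) (c 1 σ') = c 1 σ)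
    (hne : ∃ c : Cc W F, PC k' W H c ∧ ¬ Nul W c) :
    ∃ (c : Cc W F) (χ : (Sep F ≃ₐ[K] Sep F) → ℤˣ), PC k' W H c ∧
      (∀ c', PC k' W H c' → ¬ Nul W (c - (2 : ℤ) • c')) ∧
      (∀ τ, Nul W (TA hN τ c - (χ τ : ℤ) • c)) ∧ (∀ τ τ', χ (τ * τ') = χ τ * χ τ') ∧
      ∀ τ ∈ H, χ τ = 1 := by
  have hval : ∀ (z : ℤ) (c : UU k' W H), ((z • c : UU k' W H) : Cc W F) = z • (c : Cc W F) :=
    fun z c => rfl
  -- the torsion
  have htf : ∀ v : UU k' W H ⧸ NN k' W H, (2 : ℤ) • v = 0 → v = 0 := by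
    intro v
    obtain ⟨c, rfl⟩ := QuotientAddGroup.mk_surjective v
    intro h
    rw [← QuotientAddGroup.mk_zsmul, QuotientAddGroup.eq_zero_iff] at h
    rw [QuotientAddGroup.eq_zero_iff]
    have h1 : Nul W (((2 : ℤ) • c : UU k' W H) : Cc W F) := h
    show Nul W c.1
    refine nul_of_pow hF c.2.tc (m := 1) (fun n => ?_)
    obtain ⟨R, hR, e⟩ := h1 n
    refine ⟨R, n + 1, hR, fun σ => ?_⟩
    rw [← e, pow_one]
    show 2 • c.1 n σ = (2 : ℤ) • c.1 n σ
    exact (natCast_zsmul (c.1 n σ) 2).symm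
  have hsep : ∀ v : UU k' W H ⧸ NN k' W H, (∀ j : ℕ, ∃ w, v = (2 : ℤ) ^ j • w) → v = 0 := by
    intro v
    obtain ⟨c, rfl⟩ := QuotientAddGroup.mk_surjective v
    intro h
    rw [QuotientAddGroup.eq_zero_iff]
    show Nul W c.1
    intro n
    obtain ⟨w, hw⟩ := h n
    obtain ⟨d, rfl⟩ := QuotientAddGroup.mk_surjective w
    rw [← QuotientAddGroup.mk_zsmul, mk_eq, hval] at hw
    obtain ⟨R, hR, e⟩ := hw n
    refine ⟨R, hR, fun σ => ?_⟩
    rw [← e]
    show c.1 n σ = c.1 n σ - (2 : ℤ) ^ n • d.1 n σ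
    have h1 : (2 : ℤ) ^ n • d.1 n σ = 0 := by
      have h2 := pow_tc d.2.tc n σ
      rw [← natCast_zsmul] at h2
      push_cast at h2
      exact h2
    rw [h1, sub_zero]
  have hmod : ∀ (τ : Sep F ≃ₐ[K] Sep F) (v : UU k' W H ⧸ NN k' W H),
      ∃ w, rho hT hN hH τ v - v = (2 : ℤ) • w := by
    intro τ v
    obtain ⟨c, rfl⟩ := QuotientAddGroup.mk_surjective v
    obtain ⟨e, he⟩ : ∃ e : UU k' W H, e = TU hT hN hH τ c - c := ⟨_, rfl⟩
    have e1 : ∀ σ, e.1 1 σ = 0 := by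
      intro σ
      rw [he]
      show act W (ak τ) (c.1 1 (cj hN τ σ)) - c.1 1 σ = 0
      rw [hone c.1 c.2 τ σ _ (cj_spec hN τ σ), sub_self]
    have hpow : ∀ n σ, 2 ^ n • e.1 (n + 1) σ = 0 := by
      intro n σ
      have h1 := two_pow_tc e.2.tc n 1 σ
      rw [add_comm 1 n, e1] at h1
      exact h1
    let d : Cc W F := fun n σ => e.1 (n + 1) σ
    have hd : PC k' W H d := by
      refine ⟨⟨fun n => e.2.tc.coc (n + 1), fun σ => e1 σ, fun n σ => e.2.tc.two (n + 1) σ⟩,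
        fun n => e.2.loc (n + 1), fun τ' hτ' => ?_⟩
      obtain ⟨m, Q, hQ, h1⟩ := e.2.inv τ' hτ'
      refine ⟨m + 1, Q, hQ, fun n σ σ' hσ => ?_⟩
      rw [pow_succ, mul_smul]
      show 2 ^ m • 2 • (act W (ak τ') (e.1 (n + 1) σ') - e.1 (n + 1) σ) = _
      rw [smul_sub 2, ← map_nsmul, e.2.tc.two, e.2.tc.two]
      exact h1 n σ σ' hσ
    refine ⟨QuotientAddGroup.mk ⟨d, hd⟩, ?_⟩
    rw [rho_mk, ← QuotientAddGroup.mk_sub, ← QuotientAddGroup.mk_zsmul, ← he]
    congr 1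
    apply Subtype.ext
    funext n σ
    show e.1 n σ = (2 : ℤ) • e.1 (n + 1) σ
    rw [← e.2.tc.two n σ]
    exact (natCast_zsmul (e.1 (n + 1) σ) 2).symm
  have hact : ∀ τ ∈ H, ∀ v : UU k' W H ⧸ NN k' W H, rho hT hN hH τ v = v := by
    intro τ hτ v
    obtain ⟨c, rfl⟩ := QuotientAddGroup.mk_surjective v
    rw [rho_mk, mk_eq]
    obtain ⟨m, Q, hQ, h1⟩ := c.2.inv τ hτ
    have hQ' : ∀ n, 2 ^ n • Q n = 0 := by
      intro n
      induction n with
      | zero => rw [pow_zero, one_smul, hQ.zero]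
      | succ n ih => rw [pow_succ, mul_smul, hQ.two, ih]
    have htc : IsTC W ((TU hT hN hH τ c).1 - c.1) := (TU hT hN hH τ c - c).2.tc
    refine nul_of_pow hF htc (m := m) (fun n => ⟨Q n, n, hQ' n, fun σ => ?_⟩)
    exact h1 n σ _ (cj_spec hN τ σ)
  obtain ⟨S, hS⟩ : ∃ S : Finset (Sep F ≃ₐ[K] Sep F), ∀ g, ∃ s ∈ S, s⁻¹ * g ∈ H := by
    haveI : Finite ((Sep F ≃ₐ[K] Sep F) ⧸ H) := H.finite_quotient_of_finiteIndex
    haveI := Fintype.ofFinite ((Sep F ≃ₐ[K] Sep F) ⧸ H)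
    refine ⟨Finset.univ.image (fun q : (Sep F ≃ₐ[K] Sep F) ⧸ H => q.out), fun g => ?_⟩
    refine ⟨(QuotientGroup.mk g : (Sep F ≃ₐ[K] Sep F) ⧸ H).out,
      Finset.mem_image_of_mem _ (Finset.mem_univ _), ?_⟩
    exact QuotientGroup.eq.1 (QuotientGroup.out_eq' _)
  have rone : ∀ v : UU k' W H ⧸ NN k' W H, rho hT hN hH 1 v = v := by
    intro v
    obtain ⟨c, rfl⟩ := QuotientAddGroup.mk_surjective v
    rw [rho_mk]
    congr 1
    exact Subtype.ext (TA_one hN c.1)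
  have rmul : ∀ (g h : Sep F ≃ₐ[K] Sep F) (v : UU k' W H ⧸ NN k' W H),
      rho hT hN hH (g * h) v = rho hT hN hH g (rho hT hN hH h v) := by
    intro g h v
    obtain ⟨c, rfl⟩ := QuotientAddGroup.mk_surjective v
    rw [rho_mk, rho_mk, rho_mk]
    congr 1
    exact Subtype.ext (TA_mul hN g h c.1)
  obtain ⟨u, χ, hu, hχ, hmul⟩ := eigen (rho hT hN hH) rone rmul htf hsep hmod S (fun g => by
      obtain ⟨s, hs, h⟩ := hS g
      refine ⟨s, hs, fun v => ?_⟩
      have e : g = s * (s⁻¹ * g) := by group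
      rw [e, rmul, hact _ h]) (fun g => by
      refine ⟨H.index, Nat.pos_of_ne_zero hfin.index_ne_zero, fun v => hact _ ?_ v⟩
      exact Subgroup.pow_index_mem H g) (by
      obtain ⟨c, hc, hn⟩ := hne
      refine ⟨QuotientAddGroup.mk ⟨c, hc⟩, fun h => hn ?_⟩
      exact (QuotientAddGroup.eq_zero_iff _).1 h)
  obtain ⟨c, rfl⟩ := QuotientAddGroup.mk_surjective u
  refine ⟨c.1, χ, c.2, fun c' hc' hnul => ?_, fun τ => ?_, hmul, fun τ hτ => ?_⟩
  · apply hu (QuotientAddGroup.mk ⟨c', hc'⟩)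
    rw [← QuotientAddGroup.mk_zsmul, mk_eq]
    exact hnul
  · have h1 := hχ τ
    rw [rho_mk, ← QuotientAddGroup.mk_zsmul, mk_eq] at h1
    exact h1
  · have h1 := hχ τ
    rw [hact τ hτ] at h1
    rcases Int.units_eq_one_or (χ τ) with h | h
    · exact h
    · exfalso
      rw [h, Units.val_neg, Units.val_one, neg_smul, one_smul] at h1
      have h2 : (QuotientAddGroup.mk c : UU k' W H ⧸ NN k' W H) = 0 := by
        apply htf
        rw [two_zsmul]
        nth_rewrite 1 [h1]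
        exact neg_add_cancel _
      exact hu 0 (by rw [h2, smul_zero])

end main

end Pool.Agent.K9h16.PT
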