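import Pool.Agent.K9h16.PT.Grp
import Pool.Agent.TH115.SD.KCls

/-!
The triples of the second descent over the splitting field.
-/

set_option autoImplicit false
set_option linter.all false

open Polynomial
open scoped Classical

namespace Pool.Agent.K9h16.PT

open Pool.Agent.TH115.GD

section fac

variable {k Ω : Type} [Field k] [Field Ω] [Algebra k Ω]

/-- The indicator function of the roots. -/
noncomputable def chi (A : (Polynomial Ω)) (x : Ω) : ZMod 2 := if A.eval x = 0 then 1 else 0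

/-- The factorization of a monic divisor. -/
theorem fac {P : k[X]} (hP : P.Separable) (hs : (P.map (algebraMap k Ω)).Splits) {A : Polynomial Ω}
    (hA : A.Monic) {c : Ω} (hc : c ≠ 0) (hd : A ∣ C c * P.map (algebraMap k Ω)) :
    A = ∏ i : P.rootSet Ω, (if chi A (i : Ω) = 1 then X - C (i : Ω) else 1) := by
  have hu : IsUnit (C c : (Polynomial Ω)) := isUnit_C.2 (isUnit_iff_ne_zero.2 hc)
  have hd' : A ∣ P.map (algebraMap k Ω) := (hu.dvd_mul_left).1 hd
  have hP0 : P.map (algebraMap k Ω) ≠ 0 :=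
    (Polynomial.map_ne_zero_iff (algebraMap k Ω).injective).2 hP.ne_zero
  have hAs : A.Splits := hs.of_dvd hP0 hd'
  have hle := Polynomial.roots.le_of_dvd hP0 hd'
  have hnd : A.roots.Nodup := Multiset.nodup_of_le hle (nodup_roots hP.map)
  have hchi : ∀ x : Ω, chi A x = 1 ↔ A.eval x = 0 := by
    intro x
    unfold chi
    split_ifs with h
    · exact ⟨fun _ => h, fun _ => rfl⟩
    · exact ⟨fun h' => absurd h' zero_ne_one, fun h' => absurd h' h⟩
  rw [← Finset.prod_filter]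
  have h1 : ∏ i ∈ Finset.univ.filter (fun i : P.rootSet Ω => chi A (i : Ω) = 1), (X - C (i : Ω)) =
      ∏ θ ∈ A.roots.toFinset, (X - C θ) := by
    refine Finset.prod_bij (fun i _ => (i : Ω)) ?_ ?_ ?_ ?_
    · intro i hi
      rw [Finset.mem_filter, hchi] at hi
      rw [Multiset.mem_toFinset, mem_roots hA.ne_zero]
      exact hi.2
    · intro i _ j _ h
      exact Subtype.ext h
    · intro θ hθ
      rw [Multiset.mem_toFinset] at hθ
      have h3 := Multiset.mem_of_le hle hθ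
      rw [mem_roots hP0, IsRoot.def, eval_map_algebraMap] at h3
      rw [mem_roots hA.ne_zero] at hθ
      refine ⟨⟨θ, (mem_rs hP.ne_zero).2 h3⟩, ?_, rfl⟩
      rw [Finset.mem_filter]
      exact ⟨Finset.mem_univ _, (hchi _).2 hθ⟩
    · intro i _
      rfl
  rw [h1]
  have h3 := hAs.eq_prod_roots_of_monic hA
  conv_lhs => rw [h3]
  rw [Finset.prod_multiset_map_count]
  refine Finset.prod_congr rfl fun θ hθ => ?_
  rw [Multiset.count_eq_one_of_mem hnd (Multiset.mem_toFinset.1 hθ), pow_one]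

variable [IsSepClosed Ω] (h2 : (2 : Ω) ≠ 0)

include h2 in
/-- The sign of the value of a monic divisor. -/
theorem sg_fac {P : k[X]} (hP : P.Separable) (hs : (P.map (algebraMap k Ω)).Splits) {A : Polynomial Ω}
    (hA : A.Monic) {c : Ω} (hc : c ≠ 0) (hd : A ∣ C c * P.map (algebraMap k Ω))
    {w : Ω ≃ₐ[k] Ω} (hw : ∀ θ : Ω, aeval θ P = 0 → w θ = θ) {x : Ω} (hx : w x = x)
    (h0 : ∀ θ : Ω, aeval θ P = 0 → x - θ ≠ 0) :
    sg w (A.eval x) = ∑ i : P.rootSet Ω, chi A (i : Ω) * sg w (x - (i : Ω)) ∧ A.eval x ≠ 0 ∧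
      w (A.eval x) = A.eval x := by
  have e : A.eval x = ∏ i : P.rootSet Ω, (if chi A (i : Ω) = 1 then x - (i : Ω) else 1) := by
    conv_lhs => rw [fac hP hs hA hc hd]
    rw [eval_prod]
    refine Finset.prod_congr rfl fun i _ => ?_
    split_ifs
    · rw [eval_sub, eval_X, eval_C]
    · rw [eval_one]
  have n1 : ∀ i ∈ (Finset.univ : Finset (P.rootSet Ω)),
      (if chi A (i : Ω) = 1 then x - (i : Ω) else 1) ≠ 0 := by
    intro i _
    split_ifs
    · exact h0 _ (rs_root i)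
    · exact one_ne_zero
  have n2 : ∀ i ∈ (Finset.univ : Finset (P.rootSet Ω)),
      w (if chi A (i : Ω) = 1 then x - (i : Ω) else 1) =
        (if chi A (i : Ω) = 1 then x - (i : Ω) else 1) := by
    intro i _
    split_ifs
    · rw [map_sub, hx, hw _ (rs_root i)]
    · exact map_one w
  refine ⟨?_, ?_, ?_⟩
  · rw [e, sg_prod h2 w _ _ n1 n2]
    refine Finset.sum_congr rfl fun i _ => ?_
    rcases zcases (chi A (i : Ω)) with h | h
    · rw [h, if_neg zero_ne_one, zero_mul]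
      have := sg_sq h2 (w := w) one_ne_zero (map_one w)
      rwa [one_pow] at this
    · rw [h, if_pos rfl, one_mul]
  · rw [e, Finset.prod_ne_zero_iff]
    exact n1
  · rw [e, map_prod]
    exact Finset.prod_congr rfl n2

end fac

section oddf

variable {k : Type} [Field k]

theorem oddf {P : k[X]} (hs : P.Separable) {θ : k} (h : P.eval θ = 0) :
    OddFactor (X - C θ) P := by
  refine ⟨irreducible_X_sub_C θ, 0, ?_, ?_⟩
  · rw [mul_zero, zero_add, pow_one]
    exact dvd_iff_isRoot.2 h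
  · intro h2
    rw [mul_zero, zero_add, pow_two] at h2
    have := hs.squarefree (X - C θ) h2
    exact (irreducible_X_sub_C θ).not_isUnit this

theorem sqmod_eval {p : k[X]} {θ : k} (h : SqMod (X - C θ) p) : ∃ y : k, y ^ 2 = p.eval θ := by
  obtain ⟨z, hz⟩ := h
  refine ⟨z.eval θ, ?_⟩
  rw [dvd_iff_isRoot, IsRoot.def, eval_sub, eval_pow, sub_eq_zero] at hz
  exact hz

end oddf

section main

variable {k Ω : Type} [Field k] [Field Ω] [Algebra k Ω] [IsSepClosed Ω] (h2 : (2 : Ω) ≠ 0)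
  {a b : k[X]} (hco : IsCoprime a b)
  (sa : a.Separable) (sb : b.Separable) (sd : (a - b).Separable)
  (ta : (a.map (algebraMap k Ω)).Splits) (tb : (b.map (algebraMap k Ω)).Splits)
  (td : ((a - b).map (algebraMap k Ω)).Splits) (k1 : IntermediateField k Ω)
  (ra : ∀ θ : Ω, aeval θ a = 0 → θ ∈ k1) (rb : ∀ θ : Ω, aeval θ b = 0 → θ ∈ k1)
  (rd : ∀ θ : Ω, aeval θ (a - b) = 0 → θ ∈ k1)
  (hk1 : ∀ w : Ω ≃ₐ[k] Ω, W0 a b w → ∀ x : k1, w (x : Ω) = x)

include h2 in
theorem three_sq {w : Ω ≃ₐ[k] Ω} {y u v v' : Ω} (e : y ^ 2 = u * (v * v')) (hu : u ≠ 0)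
    (hv : v ≠ 0) (hv' : v' ≠ 0) (wy : w y = y) (wu : w u = u) (wv : w v = v) (wv' : w v' = v') :
    sg w u + sg w v + sg w v' = 0 := by
  have hy : y ≠ 0 := by
    rintro rfl
    rw [zero_pow two_ne_zero] at e
    exact mul_ne_zero hu (mul_ne_zero hv hv') e.symm
  have h1 := sg_sq h2 hy wy
  rw [e, sg_mul h2 hu (mul_ne_zero hv hv') wu (by rw [map_mul, wv, wv']),
    sg_mul h2 hv hv' wv wv'] at h1
  rw [add_assoc]
  exact h1

include h2 hco sa sb sd ta tb td ra rb rd hk1 in
/-- The equations. -/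
theorem sys_of {δ : k1} (hδ : δ ≠ 0) {A B D : k1[X]}
    (ht : (A, B, D) ∈ Triples2 (C δ * a.map (algebraMap k k1)) (C δ * b.map (algebraMap k k1)))
    {w : Ω ≃ₐ[k] Ω} (hw : W0 a b w) :
    Sys (fun i : a.rootSet Ω => chi (A.map (algebraMap k1 Ω)) (i : Ω))
      (fun j : b.rootSet Ω => chi (B.map (algebraMap k1 Ω)) (j : Ω))
      (fun l : (a - b).rootSet Ω => chi (D.map (algebraMap k1 Ω)) (l : Ω)) (sgn a b w) := by
  obtain ⟨⟨mA, mB, mD, -, -, -, dA, dB, dD, -⟩, r, s, hcond⟩ := ht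
  obtain ⟨r0, s0, onA, onB, onC, -⟩ := hcond
  simp only at onA onB onC mA mB mD dA dB dD
  have hfix : ∀ x : k1, w (x : Ω) = x := hk1 w hw
  have hδ' : (δ : Ω) ≠ 0 := fun h => hδ (Subtype.ext h)
  have r0' : (r : Ω) ≠ 0 := fun h => r0 (Subtype.ext h)
  have s0' : (s : Ω) ≠ 0 := fun h => s0 (Subtype.ext h)
  have hmm : ∀ P : k[X], (C δ * P.map (algebraMap k k1)).map (algebraMap k1 Ω) =
      C (δ : Ω) * P.map (algebraMap k Ω) := by
    intro P
    rw [Polynomial.map_mul, map_C, Polynomial.map_map, ← IsScalarTower.algebraMap_eq]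
    rfl
  obtain ⟨A', hA'⟩ : ∃ A', A' = A.map (algebraMap k1 Ω) := ⟨_, rfl⟩
  obtain ⟨B', hB'⟩ : ∃ B', B' = B.map (algebraMap k1 Ω) := ⟨_, rfl⟩
  obtain ⟨D', hD'⟩ : ∃ D', D' = D.map (algebraMap k1 Ω) := ⟨_, rfl⟩
  rw [← hA', ← hB', ← hD']
  have mA' : A'.Monic := hA' ▸ mA.map _
  have mB' : B'.Monic := hB' ▸ mB.map _
  have mD' : D'.Monic := hD' ▸ mD.map _
  have dA' : A' ∣ C (δ : Ω) * a.map (algebraMap k Ω) := by
    rw [hA', ← hmm]
    exact Polynomial.map_dvd _ dA
  have dB' : B' ∣ C (δ : Ω) * b.map (algebraMap k Ω) := by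
    rw [hB', ← hmm]
    exact Polynomial.map_dvd _ dB
  have dD' : D' ∣ C (δ : Ω) * (a - b).map (algebraMap k Ω) := by
    rw [hD', ← hmm, Polynomial.map_sub, mul_sub]
    exact Polynomial.map_dvd _ dD
  have fA := fun {x : Ω} (hx : w x = x) (h0 : ∀ θ : Ω, aeval θ a = 0 → x - θ ≠ 0) =>
    sg_fac h2 sa ta mA' hδ' dA' hw.fa hx h0
  have fB := fun {x : Ω} (hx : w x = x) (h0 : ∀ θ : Ω, aeval θ b = 0 → x - θ ≠ 0) =>
    sg_fac h2 sb tb mB' hδ' dB' hw.fb hx h0
  have fD := fun {x : Ω} (hx : w x = x) (h0 : ∀ θ : Ω, aeval θ (a - b) = 0 → x - θ ≠ 0) =>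
    sg_fac h2 sd td mD' hδ' dD' hw.fd hx h0
  have hu : IsUnit (C δ : k1[X]) := isUnit_C.2 (isUnit_iff_ne_zero.2 hδ)
  have sA : (C δ * a.map (algebraMap k k1)).Separable := sa.map.unit_mul hu
  have sB : (C δ * b.map (algebraMap k k1)).Separable := sb.map.unit_mul hu
  have sD : (C δ * a.map (algebraMap k k1) - C δ * b.map (algebraMap k k1)).Separable := by
    rw [← mul_sub, ← Polynomial.map_sub]
    exact sd.map.unit_mul hu
  have ev : ∀ (P : k[X]) (x : k1), (((P.map (algebraMap k k1)).eval x : k1) : Ω) =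
      aeval (x : Ω) P := by
    intro P x
    rw [eval_map_algebraMap]
    exact (aeval_algebraMap_apply Ω x P).symm
  have ev' : ∀ (P : k1[X]) (x : k1), ((P.eval x : k1) : Ω) =
      (P.map (algebraMap k1 Ω)).eval (x : Ω) := by
    intro P x
    exact (eval_map_apply (f := algebraMap k1 Ω) (p := P) (x := x)).symm
  have chi0 : ∀ (P : (Polynomial Ω)) (x : Ω), chi P x = 0 ↔ P.eval x ≠ 0 := by
    intro P x
    unfold chi
    split_ifs with h
    · exact ⟨fun h' => absurd h' one_ne_zero, fun h' => absurd h h'⟩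
    · exact ⟨fun _ => h, fun _ => rfl⟩
  have chi1 : ∀ (P : (Polynomial Ω)) (x : Ω), chi P x = 1 ↔ P.eval x = 0 := by
    intro P x
    unfold chi
    split_ifs with h
    · exact ⟨fun _ => h, fun _ => rfl⟩
    · exact ⟨fun h' => absurd h' zero_ne_one, fun h' => absurd h' h⟩
  have dvdiff : ∀ (P : k1[X]) (x : k1), (X - C x) ∣ P ↔
      (P.map (algebraMap k1 Ω)).eval (x : Ω) = 0 := by
    intro P x
    rw [dvd_iff_isRoot, IsRoot.def, ← ev']
    exact ⟨fun h => by rw [h]; rfl, fun h => Subtype.ext h⟩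
  have srs : sg w ((r : Ω) * s) = sg w (s : Ω) + sg w (r : Ω) := by
    rw [sg_mul h2 r0' s0' (hfix r) (hfix s), add_comm]
  refine ⟨sg w ((r : Ω) * s), sg w (s : Ω), sg w (r : Ω), sg w (δ : Ω), srs, fun i => ?_,
    fun j => ?_, fun l => ?_⟩
  · -- at the roots of `a`
    obtain ⟨x, hx⟩ : ∃ x : k1, (x : Ω) = i := ⟨⟨i, ra _ (rs_root i)⟩, rfl⟩
    have hxa : aeval (x : Ω) a = 0 := by rw [hx]; exact rs_root i
    have hodd : OddFactor (X - C x) (C δ * a.map (algebraMap k k1)) := oddf sA (by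
      rw [eval_mul]
      have : (a.map (algebraMap k k1)).eval x = 0 := Subtype.ext (by rw [ev, hxa]; rfl)
      rw [this, mul_zero])
    obtain ⟨o1, o2⟩ := onA _ hodd
    obtain ⟨gB, gB0, gB1⟩ := fB (hfix x) (fun θ hθ => ne_ab hco hxa hθ)
    obtain ⟨gD, gD0, gD1⟩ := fD (hfix x) (fun θ hθ => ne_ad hco hxa hθ)
    have hbx : aeval (x : Ω) b ≠ 0 := fun h => cop_ne hco hxa h
    have hrs : (r : Ω) * s ≠ 0 := mul_ne_zero r0' s0'
    have wrs : w ((r : Ω) * s) = (r : Ω) * s := by rw [map_mul, hfix, hfix]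
    have hrow : ∑ j, (sgn a b w).1 i j = sg w (aeval (x : Ω) b) := by
      rw [hx]
      exact sum_sg h2 sb tb hw.fc hw.fb (hw.fa _ (rs_root i)) (fun θ hθ => ne_ab hco (rs_root i) hθ)
    rw [hrow]
    have gB' : sg w (B'.eval (x : Ω)) = ∑ j : b.rootSet Ω, chi B' (j : Ω) * (sgn a b w).1 i j := by
      rw [gB, hx]
      rfl
    have gD' : sg w (D'.eval (x : Ω)) = ∑ j : (a - b).rootSet Ω,
        chi D' (j : Ω) * (sgn a b w).2.1 i j := by
      rw [gD, hx]
      rfl
    rw [← gB', ← gD']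
    beta_reduce
    by_cases hA0 : A'.eval (i : Ω) = 0
    · rw [(chi1 A' i).2 hA0, one_mul]
      obtain ⟨y, hy⟩ := sqmod_eval (o2 ((dvdiff _ _).2 (by rw [hx, ← hA']; exact hA0)))
      have hy' : (y : Ω) ^ 2 = ((r : Ω) * s * -((δ : Ω) * aeval (x : Ω) b)) *
          (B'.eval (x : Ω) * D'.eval (x : Ω)) := by
        have h3 := congrArg (fun z : k1 => (z : Ω)) hy
        simp only [eval_mul, eval_neg, eval_C] at h3
        push_cast at h3
        rw [ev, ev', ev', ← hB', ← hD'] at h3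
        rw [h3]
        ring
      have hn : -((δ : Ω) * aeval (x : Ω) b) ≠ 0 := neg_ne_zero.2 (mul_ne_zero hδ' hbx)
      have wb : w (aeval (x : Ω) b) = aeval (x : Ω) b := by
        rw [← aeval_algHom_apply w, hfix]
      have k3 := three_sq h2 (w := w) hy' (mul_ne_zero hrs hn) gB0 gD0 (hfix y)
        (by rw [map_mul, wrs, map_neg, map_mul, hfix, wb]) gB1 gD1
      rw [sg_mul h2 hrs hn wrs (by rw [map_neg, map_mul, hfix, wb]),
        sg_neg h2 hw.fc (mul_ne_zero hδ' hbx) (by rw [map_mul, hfix, wb]),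
        sg_mul h2 hδ' hbx (hfix δ) wb] at k3
      linear_combination k3
    · rw [(chi0 A' i).2 hA0, zero_mul, add_zero]
      obtain ⟨y, hy⟩ := sqmod_eval (o1 (fun h => hA0 (by
        rw [dvdiff, hx, ← hA'] at h
        exact h)))
      have hy' : (y : Ω) ^ 2 = ((r : Ω) * s) * (B'.eval (x : Ω) * D'.eval (x : Ω)) := by
        have h3 := congrArg (fun z : k1 => (z : Ω)) hy
        simp only [eval_mul, eval_C] at h3
        push_cast at h3
        rw [ev', ev', ← hB', ← hD'] at h3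
        exact h3
      exact three_sq h2 (w := w) hy' hrs gB0 gD0 (hfix y) wrs gB1 gD1
  · -- at the roots of `b`
    obtain ⟨x, hx⟩ : ∃ x : k1, (x : Ω) = j := ⟨⟨j, rb _ (rs_root j)⟩, rfl⟩
    have hxb : aeval (x : Ω) b = 0 := by rw [hx]; exact rs_root j
    have hodd : OddFactor (X - C x) (C δ * b.map (algebraMap k k1)) := oddf sB (by
      rw [eval_mul]
      have : (b.map (algebraMap k k1)).eval x = 0 := Subtype.ext (by rw [ev, hxb]; rfl)
      rw [this, mul_zero])
    obtain ⟨o1, o2⟩ := onB _ hodd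
    have nea : ∀ θ : Ω, aeval θ a = 0 → (x : Ω) - θ ≠ 0 := fun θ hθ h =>
      ne_ab hco hθ hxb (by linear_combination -h)
    obtain ⟨gA, gA0, gA1⟩ := fA (hfix x) nea
    obtain ⟨gD, gD0, gD1⟩ := fD (hfix x) (fun θ hθ => ne_bd hco hxb hθ)
    have hax : aeval (x : Ω) a ≠ 0 := fun h => cop_ne hco h hxb
    have hsgn : ∀ i : a.rootSet Ω, sg w ((x : Ω) - i) = (sgn a b w).1 i j := by
      intro i
      have h3 := sg_neg h2 (w := w) hw.fc (nea _ (rs_root i)) (by
        rw [map_sub, hfix, hw.fa _ (rs_root i)])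
      rw [neg_sub] at h3
      rw [← h3, hx]
      rfl
    have hrow : ∑ i, (sgn a b w).1 i j = sg w (aeval (x : Ω) a) := by
      rw [← sum_sg h2 sa ta hw.fc hw.fa (hfix x) nea]
      exact Finset.sum_congr rfl fun i _ => (hsgn i).symm
    rw [hrow]
    have gA' : sg w (A'.eval (x : Ω)) = ∑ i : a.rootSet Ω, chi A' (i : Ω) * (sgn a b w).1 i j := by
      rw [gA]
      exact Finset.sum_congr rfl fun i _ => by rw [hsgn]
    have gD' : sg w (D'.eval (x : Ω)) = ∑ l : (a - b).rootSet Ω,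
        chi D' (l : Ω) * (sgn a b w).2.2 j l := by
      rw [gD, hx]
      rfl
    rw [← gA', ← gD']
    beta_reduce
    by_cases hB0 : B'.eval (j : Ω) = 0
    · rw [(chi1 B' j).2 hB0, one_mul]
      obtain ⟨y, hy⟩ := sqmod_eval (o2 ((dvdiff _ _).2 (by rw [hx, ← hB']; exact hB0)))
      have hy' : (y : Ω) ^ 2 = ((s : Ω) * -((δ : Ω) * aeval (x : Ω) a)) *
          (A'.eval (x : Ω) * D'.eval (x : Ω)) := by
        have h3 := congrArg (fun z : k1 => (z : Ω)) hy
        simp only [eval_mul, eval_neg, eval_C] at h3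
        push_cast at h3
        rw [ev, ev', ev', ← hA', ← hD'] at h3
        rw [h3]
        ring
      have hn : -((δ : Ω) * aeval (x : Ω) a) ≠ 0 := neg_ne_zero.2 (mul_ne_zero hδ' hax)
      have wa : w (aeval (x : Ω) a) = aeval (x : Ω) a := by
        rw [← aeval_algHom_apply w, hfix]
      have k3 := three_sq h2 (w := w) hy' (mul_ne_zero s0' hn) gA0 gD0 (hfix y)
        (by rw [map_mul, hfix, map_neg, map_mul, hfix, wa]) gA1 gD1
      rw [sg_mul h2 s0' hn (hfix s) (by rw [map_neg, map_mul, hfix, wa]),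
        sg_neg h2 hw.fc (mul_ne_zero hδ' hax) (by rw [map_mul, hfix, wa]),
        sg_mul h2 hδ' hax (hfix δ) wa] at k3
      linear_combination k3
    · rw [(chi0 B' j).2 hB0, zero_mul, add_zero]
      obtain ⟨y, hy⟩ := sqmod_eval (o1 (fun h => hB0 (by
        rw [dvdiff, hx, ← hB'] at h
        exact h)))
      have hy' : (y : Ω) ^ 2 = (s : Ω) * (A'.eval (x : Ω) * D'.eval (x : Ω)) := by
        have h3 := congrArg (fun z : k1 => (z : Ω)) hy
        simp only [eval_mul, eval_C] at h3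
        push_cast at h3
        rw [ev', ev', ← hA', ← hD'] at h3
        exact h3
      exact three_sq h2 (w := w) hy' s0' gA0 gD0 (hfix y) (hfix s) gA1 gD1
  · -- at the roots of `a - b`
    obtain ⟨x, hx⟩ : ∃ x : k1, (x : Ω) = l := ⟨⟨l, rd _ (rs_root l)⟩, rfl⟩
    have hxd : aeval (x : Ω) (a - b) = 0 := by rw [hx]; exact rs_root l
    have hodd : OddFactor (X - C x) (C δ * a.map (algebraMap k k1) -
        C δ * b.map (algebraMap k k1)) := oddf sD (by
      rw [← mul_sub, ← Polynomial.map_sub, eval_mul]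
      have : ((a - b).map (algebraMap k k1)).eval x = 0 := Subtype.ext (by rw [ev, hxd]; rfl)
      rw [this, mul_zero])
    obtain ⟨o1, o2⟩ := onC _ hodd
    have nea : ∀ θ : Ω, aeval θ a = 0 → (x : Ω) - θ ≠ 0 := fun θ hθ h =>
      ne_ad hco hθ hxd (by linear_combination -h)
    have neb : ∀ θ : Ω, aeval θ b = 0 → (x : Ω) - θ ≠ 0 := fun θ hθ h =>
      ne_bd hco hθ hxd (by linear_combination -h)
    obtain ⟨gA, gA0, gA1⟩ := fA (hfix x) nea
    obtain ⟨gB, gB0, gB1⟩ := fB (hfix x) neb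
    have hax : aeval (x : Ω) a ≠ 0 := by
      intro h
      have h4 := hxd
      rw [map_sub, h, zero_sub, neg_eq_zero] at h4
      exact cop_ne hco h h4
    have hsgn : ∀ i : a.rootSet Ω, sg w ((x : Ω) - i) = (sgn a b w).2.1 i l := by
      intro i
      have h3 := sg_neg h2 (w := w) hw.fc (nea _ (rs_root i)) (by
        rw [map_sub, hfix, hw.fa _ (rs_root i)])
      rw [neg_sub] at h3
      rw [← h3, hx]
      rfl
    have hsgn' : ∀ j : b.rootSet Ω, sg w ((x : Ω) - j) = (sgn a b w).2.2 j l := by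
      intro j
      have h3 := sg_neg h2 (w := w) hw.fc (neb _ (rs_root j)) (by
        rw [map_sub, hfix, hw.fb _ (rs_root j)])
      rw [neg_sub] at h3
      rw [← h3, hx]
      rfl
    have hrow : ∑ i, (sgn a b w).2.1 i l = sg w (aeval (x : Ω) a) := by
      rw [← sum_sg h2 sa ta hw.fc hw.fa (hfix x) nea]
      exact Finset.sum_congr rfl fun i _ => (hsgn i).symm
    rw [hrow]
    have gA' : sg w (A'.eval (x : Ω)) = ∑ i : a.rootSet Ω,
        chi A' (i : Ω) * (sgn a b w).2.1 i l := by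
      rw [gA]
      exact Finset.sum_congr rfl fun i _ => by rw [hsgn]
    have gB' : sg w (B'.eval (x : Ω)) = ∑ j : b.rootSet Ω,
        chi B' (j : Ω) * (sgn a b w).2.2 j l := by
      rw [gB]
      exact Finset.sum_congr rfl fun i _ => by rw [hsgn']
    rw [← gA', ← gB']
    beta_reduce
    by_cases hD0 : D'.eval (l : Ω) = 0
    · rw [(chi1 D' l).2 hD0, one_mul]
      obtain ⟨y, hy⟩ := sqmod_eval (o2 ((dvdiff _ _).2 (by rw [hx, ← hD']; exact hD0)))
      have hy' : (y : Ω) ^ 2 = ((r : Ω) * ((δ : Ω) * aeval (x : Ω) a)) *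
          (A'.eval (x : Ω) * B'.eval (x : Ω)) := by
        have h3 := congrArg (fun z : k1 => (z : Ω)) hy
        simp only [eval_mul, eval_C] at h3
        push_cast at h3
        rw [ev, ev', ev', ← hA', ← hB'] at h3
        rw [h3]
        ring
      have hn : (δ : Ω) * aeval (x : Ω) a ≠ 0 := mul_ne_zero hδ' hax
      have wa : w (aeval (x : Ω) a) = aeval (x : Ω) a := by
        rw [← aeval_algHom_apply w, hfix]
      have k3 := three_sq h2 (w := w) hy' (mul_ne_zero r0' hn) gA0 gB0 (hfix y)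
        (by rw [map_mul, hfix, map_mul, hfix, wa]) gA1 gB1
      rw [sg_mul h2 r0' hn (hfix r) (by rw [map_mul, hfix, wa]),
        sg_mul h2 hδ' hax (hfix δ) wa] at k3
      linear_combination k3
    · rw [(chi0 D' l).2 hD0, zero_mul, add_zero]
      obtain ⟨y, hy⟩ := sqmod_eval (o1 (fun h => hD0 (by
        rw [dvdiff, hx, ← hD'] at h
        exact h)))
      have hy' : (y : Ω) ^ 2 = (r : Ω) * (A'.eval (x : Ω) * B'.eval (x : Ω)) := by
        have h3 := congrArg (fun z : k1 => (z : Ω)) hy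
        simp only [eval_mul, eval_C] at h3
        push_cast at h3
        rw [ev', ev', ← hA', ← hB'] at h3
        exact h3
      exact three_sq h2 (w := w) hy' r0' gA0 gB0 (hfix y) (hfix r) gA1 gB1

include h2 hco sa sb sd ta tb td ra rb rd hk1 in
/-- **There are at most four triples.** -/
theorem card_tri (hG : GH Ω a b) (hN : 5 ≤ Nat.card (a.rootSet Ω))
    (hN' : 5 ≤ Nat.card (b.rootSet Ω)) (hN'' : 5 ≤ Nat.card ((a - b).rootSet Ω))
    {δ : k1} (hδ : δ ≠ 0) :
    (Triples2 (C δ * a.map (algebraMap k k1)) (C δ * b.map (algebraMap k k1))).encard ≤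
      2 ^ (0 + 2) := by
  have key : ∀ t ∈ Triples2 (C δ * a.map (algebraMap k k1)) (C δ * b.map (algebraMap k k1)),
      ∃ x y z : ZMod 2, (∀ i : a.rootSet Ω, chi (t.1.map (algebraMap k1 Ω)) (i : Ω) = x) ∧
        (∀ j : b.rootSet Ω, chi (t.2.1.map (algebraMap k1 Ω)) (j : Ω) = y) ∧
        (∀ l : (a - b).rootSet Ω, chi (t.2.2.map (algebraMap k1 Ω)) (l : Ω) = z) ∧
        x + y + z = 0 := by
    rintro ⟨A, B, D⟩ ht
    exact concl h2 hco sa sb sd ta tb td hG hN hN' hN'' (fun w hw =>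
      sys_of h2 hco sa sb sd ta tb td k1 ra rb rd hk1 hδ ht hw)
  choose! fx fy fz kx ky kz ks using key
  have hδ' : (δ : Ω) ≠ 0 := fun h => hδ (Subtype.ext h)
  have hmm : ∀ P : k[X], (C δ * P.map (algebraMap k k1)).map (algebraMap k1 Ω) =
      C (δ : Ω) * P.map (algebraMap k Ω) := by
    intro P
    rw [Polynomial.map_mul, map_C, Polynomial.map_map, ← IsScalarTower.algebraMap_eq]
    rfl
  have inj : Set.InjOn (fun t => (fx t, fy t))
      (Triples2 (C δ * a.map (algebraMap k k1)) (C δ * b.map (algebraMap k k1))) := by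
    intro t ht t' ht' h
    obtain ⟨hx, hy⟩ := Prod.ext_iff.1 h
    simp only at hx hy
    have hz : fz t = fz t' := by
      have h3 := ks t ht
      have h4 := ks t' ht'
      rw [← hx, ← hy] at h4
      have : ∀ a b c d : ZMod 2, a + b + c = 0 → a + b + d = 0 → c = d := by decide
      exact this _ _ _ _ h3 h4
    have hkx := kx t ht
    have hkx' := kx t' ht'
    have hky := ky t ht
    have hky' := ky t' ht'
    have hkz := kz t ht
    have hkz' := kz t' ht'
    obtain ⟨⟨mA, mB, mD, -, -, -, dA, dB, dD, -⟩, -⟩ := ht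
    obtain ⟨⟨mA', mB', mD', -, -, -, dA', dB', dD', -⟩, -⟩ := ht'
    have hinj := Polynomial.map_injective _ (algebraMap k1 Ω).injective
    have main : ∀ {P : k[X]} (hP : P.Separable) (hs : (P.map (algebraMap k Ω)).Splits)
        {A A' : k1[X]} (hA : A.Monic) (hA' : A'.Monic)
        (hd : A ∣ C δ * P.map (algebraMap k k1)) (hd' : A' ∣ C δ * P.map (algebraMap k k1))
        {x : ZMod 2} (h3 : ∀ i : P.rootSet Ω, chi (A.map (algebraMap k1 Ω)) (i : Ω) = x)
        (h4 : ∀ i : P.rootSet Ω, chi (A'.map (algebraMap k1 Ω)) (i : Ω) = x), A = A' := by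
      intro P hP hs A A' hA hA' hd hd' x h3 h4
      apply hinj
      have f1 := fac hP hs (hA.map (algebraMap k1 Ω)) hδ' (by
        rw [← hmm]; exact Polynomial.map_dvd _ hd)
      have f2 := fac hP hs (hA'.map (algebraMap k1 Ω)) hδ' (by
        rw [← hmm]; exact Polynomial.map_dvd _ hd')
      rw [f1, f2]
      refine Finset.prod_congr rfl fun i _ => ?_
      rw [h3, h4]
    refine Prod.ext (main sa ta mA mA' dA dA' hkx (by rw [hx]; exact hkx'))
      (Prod.ext (main sb tb mB mB' dB dB' hky (by rw [hy]; exact hky')) ?_)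
    refine main sd td mD mD' ?_ ?_ hkz (by rw [hz]; exact hkz')
    · rw [Polynomial.map_sub, mul_sub]
      exact dD
    · rw [Polynomial.map_sub, mul_sub]
      exact dD'
  rw [← inj.encard_image]
  refine (Set.encard_le_encard (Set.subset_univ _)).trans ?_
  rw [Set.encard_univ, ENat.card_eq_coe_fintype_card, Fintype.card_prod, ZMod.card]
  norm_num

end main

end Pool.Agent.K9h16.PT
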