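import Pool.Agent.X243.Gen.Main2
import Pool.Agent.K9h16.PT.Tri

/-!
A Frobenius element which acts trivially on the roots of one polynomial and by a transposition on the
roots of another one.
-/

set_option autoImplicit false
set_option linter.all false

open Polynomial IsLocalRing
open scoped Classical

namespace Pool.Agent.K9h16.PT

open Pool.Agent.X243.Gen Pool.Agent.X243.Tate Pool.Agent.X243.Sol

section frob

variable {R k : Type} [CommRing R] [IsDomain R] [IsIntegrallyClosed R] [IsNoetherianRing R]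
  [Field k] [Algebra R k] [IsFractionRing R k] (m : Ideal R) [m.IsMaximal] [Finite (R ⧸ m)]

/-- The roots and the action of a given Frobenius element. -/
theorem roots_of (k) [Field k] [Algebra R k] [IsFractionRing R k] {f : R[X]} {N : ℕ}
    (hf : f.natDegree ≤ N)
    (hd : (f.map (Ideal.Quotient.mk m)).natDegree = N)
    (hsep : (f.map (Ideal.Quotient.mk m)).Separable)
    (E : Type) [Field E] [Algebra k E]
    [FiniteDimensional k E] [IsGalois k E] [Algebra R E] [IsScalarTower R k E]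
    (hspl : ((f.map (algebraMap R k)).map (algebraMap k E)).Splits)
    {B : ValuationSubring E} {ρ : R →+* B} {j : R ⧸ m →+* ResidueField B} {σ : E ≃ₐ[k] E}
    (hρ : ∀ x : R, (ρ x : E) = algebraMap R E x)
    (hj : ∀ x : R, residue B (ρ x) = j (Ideal.Quotient.mk m x))
    (hσ : ∀ (c : R), c ∉ m → ∀ θ : E, IsIntegral R (algebraMap R E c * θ) →
        θ ∈ B ∧ σ θ ∈ B ∧ red B (σ θ) = red B θ ^ Nat.card (R ⧸ m)) :
      f.leadingCoeff ∉ m ∧
      (∀ θ : E, aeval θ (f.map (algebraMap R k)) = 0 → θ ∈ B ∧ σ θ ∈ B ∧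
        red B (σ θ) = red B θ ^ Nat.card (R ⧸ m)) ∧
      (f.map (Ideal.Quotient.mk m)).map j =
        C (j (f.map (Ideal.Quotient.mk m)).leadingCoeff) *
          ∏ θ : (f.map (algebraMap R k)).rootSet E, (X - C (red B (θ : E))) := by
  haveI : m.IsMaximal := inferInstance
  letI : Field (R ⧸ m) := Ideal.Quotient.field m
  obtain ⟨fb, hfb⟩ : ∃ fb, fb = f.map (Ideal.Quotient.mk m) := ⟨_, rfl⟩
  rw [← hfb] at hd hsep ⊢
  have hfN : f.natDegree = N := by
    refine le_antisymm hf ?_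
    rw [← hd, hfb]
    exact natDegree_map_le
  have hlc : fb.leadingCoeff = Ideal.Quotient.mk m f.leadingCoeff := by
    rw [leadingCoeff, hd, hfb, coeff_map, leadingCoeff, hfN]
  have hc : f.leadingCoeff ∉ m := by
    intro h
    apply leadingCoeff_ne_zero.2 hsep.ne_zero
    rw [hlc, Ideal.Quotient.eq_zero_iff_mem]
    exact h
  have hinjk : Function.Injective (algebraMap R k) := IsFractionRing.injective R k
  have hf0 : f ≠ 0 := by
    rintro rfl
    apply hc
    rw [leadingCoeff_zero]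
    exact Ideal.zero_mem _
  obtain ⟨F, hF⟩ : ∃ F, F = f.map (algebraMap R k) := ⟨_, rfl⟩
  rw [← hF] at hspl
  have hlcF : F.leadingCoeff = algebraMap R k f.leadingCoeff := by
    rw [hF, leadingCoeff_map_of_injective hinjk]
  have hF0 : F ≠ 0 := hF ▸ (Polynomial.map_ne_zero_iff hinjk).2 hf0
  refine ⟨hc, ?_⟩
  rw [← hF]
  have hθint : ∀ θ, aeval θ F = 0 → IsIntegral R (algebraMap R E f.leadingCoeff * θ) := by
    intro θ hθ
    rw [hF, aeval_map_algebraMap] at hθ
    have := isIntegral_leadingCoeff_smul f θ hθ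
    rwa [Algebra.smul_def] at this
  have hθs : ∀ θ, aeval θ F = 0 → θ ∈ B ∧ σ θ ∈ B ∧
      red B (σ θ) = red B θ ^ Nat.card (R ⧸ m) := fun θ hθ => hσ _ hc θ (hθint θ hθ)
  refine ⟨hθs, ?_⟩
  have hFE0 : F.map (algebraMap k E) ≠ 0 :=
    (Polynomial.map_ne_zero_iff (algebraMap k E).injective).2 hF0
  have hrt : ∀ θ : E, θ ∈ (F.map (algebraMap k E)).roots ↔ aeval θ F = 0 := by
    intro θ
    rw [mem_roots hFE0, IsRoot.def, eval_map_algebraMap]
  have hBθ : ∀ θ ∈ (F.map (algebraMap k E)).roots, θ ∈ B := fun θ h => (hθs θ ((hrt θ).1 h)).1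
  have hmapρ : (f.map ρ).map (algebraMap B E) = F.map (algebraMap k E) := by
    rw [hF, Polynomial.map_map, Polynomial.map_map, ← IsScalarTower.algebraMap_eq]
    congr 1
    ext x
    exact hρ x
  have hfac : (f.map ρ) = C (ρ f.leadingCoeff) *
      ((F.map (algebraMap k E)).roots.attach.map
        (fun θ => (X - C (⟨θ.1, hBθ θ.1 θ.2⟩ : B)))).prod := by
    apply Polynomial.map_injective (algebraMap B E) Subtype.val_injective
    rw [hmapρ, Polynomial.map_mul, map_C, Polynomial.map_multiset_prod, Multiset.map_map]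
    have h1 : (Multiset.map ((Polynomial.map (algebraMap B E)) ∘
        (fun θ : {x // x ∈ (F.map (algebraMap k E)).roots} => (X - C (⟨θ.1, hBθ θ.1 θ.2⟩ : B))))
        (F.map (algebraMap k E)).roots.attach) =
        (F.map (algebraMap k E)).roots.map (fun θ => X - C θ) := by
      conv_rhs => rw [← Multiset.attach_map_val (F.map (algebraMap k E)).roots]
      rw [Multiset.map_map]
      refine Multiset.map_congr rfl fun θ _ => ?_
      simp only [Function.comp, Polynomial.map_sub, map_X, map_C]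
      rfl
    rw [h1]
    have h2 := hspl.eq_prod_roots
    have hl : algebraMap B E (ρ f.leadingCoeff) = (F.map (algebraMap k E)).leadingCoeff := by
      rw [leadingCoeff_map, hlcF, ← IsScalarTower.algebraMap_apply]
      exact hρ _
    rw [hl]
    exact h2
  have hfac2 : fb.map j = C (j fb.leadingCoeff) *
      ((F.map (algebraMap k E)).roots.map (fun θ => X - C (red B θ))).prod := by
    rw [hfb, ← map_quot m ρ (residue B) j hj f, hfac, Polynomial.map_mul, map_C,
      Polynomial.map_multiset_prod, Multiset.map_map, ← hfb, hlc, hj]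
    congr 2
    conv_rhs => rw [← Multiset.attach_map_val (F.map (algebraMap k E)).roots]
    rw [Multiset.map_map]
    refine Multiset.map_congr rfl fun θ _ => ?_
    simp only [Function.comp, Polynomial.map_sub, map_X, map_C]
    congr 2
    exact (red_coe (⟨θ.1, hBθ θ.1 θ.2⟩ : B)).symm
  have hsep2 : (fb.map j).Separable := hsep.map
  have hnd : ((F.map (algebraMap k E)).roots.map (red B)).Nodup := by
    have h1 : fb.map j ≠ 0 := hsep2.ne_zero
    have h2 : (fb.map j).roots = (F.map (algebraMap k E)).roots.map (red B) := by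
      rw [hfac2, roots_C_mul]
      · have h3 : (F.map (algebraMap k E)).roots.map (fun θ => X - C (red B θ)) =
            ((F.map (algebraMap k E)).roots.map (red B)).map (fun x => X - C x) := by
          rw [Multiset.map_map]; rfl
        rw [h3, roots_multiset_prod_X_sub_C]
      · intro h0
        rw [h0, C_0, zero_mul] at hfac2
        exact h1 hfac2
    rw [← h2]
    exact nodup_roots hsep2
  have hndE : (F.map (algebraMap k E)).roots.Nodup := Multiset.Nodup.of_map _ hnd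
  rw [hfac2]
  congr 1
  have hset : (F.rootSet E).toFinset = (F.map (algebraMap k E)).roots.toFinset := by
    ext x
    rw [Set.mem_toFinset, mem_rootSet, Multiset.mem_toFinset, hrt]
    exact ⟨fun h => h.2, fun h => ⟨hF0, h⟩⟩
  rw [Finset.prod_set_coe (F.rootSet E) (f := fun θ : E => X - C (red B θ)), hset,
    Finset.prod_multiset_map_count]
  refine Finset.prod_congr rfl fun θ hθ => ?_
  rw [Multiset.count_eq_one_of_mem hndE (Multiset.mem_toFinset.1 hθ), pow_one]

/-- A product of different linear factors. -/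
def S4 {R : Type} [CommRing R] (N : ℕ) (f : R[X]) : Prop :=
  ∃ (d : R) (S : Finset R), d ≠ 0 ∧ S.card = N ∧ f = C d * ∏ c ∈ S, (X - C c)

/-- There is an automorphism which fixes the roots of `P`, and acts on the roots of `Q` by a
transposition. -/
def PairG {k : Type} [Field k] (P Q : k[X]) : Prop :=
  ∀ (E : Type) [Field E] [Algebra k E] [FiniteDimensional k E] [IsGalois k E],
    (P.map (algebraMap k E)).Splits → (Q.map (algebraMap k E)).Splits →
    ∃ σ : E ≃ₐ[k] E, (∀ θ : E, aeval θ P = 0 → σ θ = θ) ∧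
      (MulAction.toPermHom (E ≃ₐ[k] E) (Q.rootSet E) σ).IsSwap

theorem frob_pair (k) [Field k] [Algebra R k] [IsFractionRing R k] {P Q : R[X]} {N : ℕ}
    (hP : P.natDegree ≤ N) (hQ : Q.natDegree ≤ N) (h4 : S4 N (P.map (Ideal.Quotient.mk m)))
    (h3 : I3 N (Q.map (Ideal.Quotient.mk m))) :
    PairG (P.map (algebraMap R k)) (Q.map (algebraMap R k)) := by
  intro E _ _ _ _ splP splQ
  letI : Algebra R E := ((algebraMap k E).comp (algebraMap R k)).toAlgebra
  haveI : IsScalarTower R k E := IsScalarTower.of_algebraMap_eq fun _ => rfl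
  haveI : m.IsMaximal := inferInstance
  letI : Field (R ⧸ m) := Ideal.Quotient.field m
  letI := Fintype.ofFinite (R ⧸ m)
  obtain ⟨d, S, hd, hS, hfac⟩ := h4
  obtain ⟨d', π', S', hd', hm', hπ', hπd', hS', hfac'⟩ := h3
  set fb := P.map (Ideal.Quotient.mk m) with hfb
  have hdeg : fb.natDegree = N := by
    rw [hfac, natDegree_C_mul hd, natDegree_finset_prod_X_sub_C_eq_card, hS]
  have hsep : fb.Separable := by
    rw [hfac]
    apply Separable.unit_mul (isUnit_C.2 (isUnit_iff_ne_zero.2 hd))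
    apply separable_prod_X_sub_C_iff'.2
    exact fun x _ y _ h => h
  have hsep3 : (Q.map (Ideal.Quotient.mk m)).Separable := by
    rw [hfac']
    exact sep_lin hπ' hπd'.ge hd' S'
  have hdeg3 : (Q.map (Ideal.Quotient.mk m)).natDegree = N := by
    rw [hfac', mul_assoc, natDegree_C_mul hd', natDegree_mul hπ'.ne_zero, hπd',
      natDegree_finset_prod_X_sub_C_eq_card]
    · rw [← hS']
      omega
    · exact (monic_prod_X_sub_C (fun c => c) S').ne_zero
  obtain ⟨B, ρ, j, σ, hρ, hj, hσ⟩ := frob_gen m k E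
  obtain ⟨-, hθs, hr⟩ := roots_of m k hP hdeg hsep E splP hρ hj hσ
  obtain ⟨-, hθs', hr'⟩ := roots_of m k hQ hdeg3 hsep3 E splQ hρ hj hσ
  have hF0 : P.map (algebraMap R k) ≠ 0 := by
    refine (Polynomial.map_ne_zero_iff (IsFractionRing.injective R k)).2 ?_
    rintro rfl
    rw [Polynomial.map_zero] at hfb
    exact hsep.ne_zero hfb
  refine ⟨σ, ?_, ?_⟩
  · have hinj : ∀ θ θ' : E, aeval θ (P.map (algebraMap R k)) = 0 →
        aeval θ' (P.map (algebraMap R k)) = 0 → red B θ = red B θ' → θ = θ' := by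
      intro θ θ' h1 h3 h4
      have h5 := inj_of j hsep hr
      have h6 := @h5 ⟨θ, mem_rootSet.2 ⟨hF0, h1⟩⟩ ⟨θ', mem_rootSet.2 ⟨hF0, h3⟩⟩ h4
      exact congrArg Subtype.val h6
    have hroot : ∀ x, (fb.map j).eval x = 0 ↔ ∃ c ∈ S, j c = x := by
      intro x
      rw [hfac, Polynomial.map_mul, map_C, Polynomial.map_prod,
        eval_mul, eval_C, eval_prod, mul_eq_zero, Finset.prod_eq_zero_iff]
      constructor
      · rintro (h | ⟨c, hcS, h⟩)
        · exact absurd ((map_eq_zero_iff _ j.injective).1 h) hd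
        · refine ⟨c, hcS, ?_⟩
          rw [Polynomial.map_sub, map_X, map_C, eval_sub, eval_X, eval_C, sub_eq_zero] at h
          exact h.symm
      · rintro ⟨c, hcS, rfl⟩
        exact Or.inr ⟨c, hcS, by rw [Polynomial.map_sub, map_X, map_C, eval_sub, eval_X, eval_C,
          sub_self]⟩
    have hpowq : ∀ c : R ⧸ m, j c ^ Nat.card (R ⧸ m) = j c := by
      intro c
      rw [← map_pow, Nat.card_eq_fintype_card, FiniteField.pow_card]
    intro θ hθ
    have h1 : (fb.map j).eval (red B θ) = 0 :=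
      (root_iff j hsep hr _).2 ⟨⟨θ, mem_rootSet.2 ⟨hF0, hθ⟩⟩, rfl⟩
    obtain ⟨c, -, hc'⟩ := (hroot _).1 h1
    apply hinj _ _ _ hθ
    · rw [(hθs θ hθ).2.2, ← hc', hpowq]
    · rw [aeval_algHom_apply σ θ, hθ, map_zero]
  · exact type_swap j hsep3 hr' (fun θ => (hθs' θ (aeval_eq_zero_of_mem_rootSet θ.2)).2.2)
      hπ' hπd' hfac'

/-- Both split, with a nonsquare minor. -/
def MM {R : Type} [CommRing R] (N : ℕ) (f g : R[X]) : Prop :=
  ∃ (d e : R) (S T : Finset R) (c₁ c₂ e₁ e₂ : R), d ≠ 0 ∧ e ≠ 0 ∧ S.card = N ∧ T.card = N ∧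
    f = C d * ∏ c ∈ S, (X - C c) ∧ g = C e * ∏ c ∈ T, (X - C c) ∧ c₁ ∈ S ∧ c₂ ∈ S ∧ e₁ ∈ T ∧
    e₂ ∈ T ∧ ¬ IsSquare ((c₁ - e₁) * (c₂ - e₁) * ((c₁ - e₂) * (c₂ - e₂)))

/-- There is an automorphism which fixes the roots of `P` and `Q`, and changes the sign of the square
root of a minor. -/
def MinG {k : Type} [Field k] (P Q : k[X]) : Prop :=
  ∀ (E : Type) [Field E] [Algebra k E] [FiniteDimensional k E] [IsGalois k E],
    (P.map (algebraMap k E)).Splits → (Q.map (algebraMap k E)).Splits →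
    ∃ σ : E ≃ₐ[k] E, (∀ θ : E, aeval θ P = 0 → σ θ = θ) ∧ (∀ θ : E, aeval θ Q = 0 → σ θ = θ) ∧
      ∃ θ₁ θ₂ η₁ η₂ : E, aeval θ₁ P = 0 ∧ aeval θ₂ P = 0 ∧ aeval η₁ Q = 0 ∧ aeval η₂ Q = 0 ∧
        ∀ r : E, r ^ 2 = (θ₁ - η₁) * (θ₂ - η₁) * ((θ₁ - η₂) * (θ₂ - η₂)) → σ r = -r ∧ r ≠ 0

/-- The roots of a polynomial which splits modulo `m`. -/
theorem split_fix (k) [Field k] [Algebra R k] [IsFractionRing R k] {P : R[X]} {N : ℕ}
    (hP : P.natDegree ≤ N) {d : R ⧸ m} {S : Finset (R ⧸ m)} (hd : d ≠ 0) (hS : S.card = N)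
    (hfac : P.map (Ideal.Quotient.mk m) = C d * ∏ c ∈ S, (X - C c))
    (E : Type) [Field E] [Algebra k E]
    [FiniteDimensional k E] [IsGalois k E] [Algebra R E] [IsScalarTower R k E]
    (hspl : ((P.map (algebraMap R k)).map (algebraMap k E)).Splits)
    {B : ValuationSubring E} {ρ : R →+* B} {j : R ⧸ m →+* ResidueField B} {σ : E ≃ₐ[k] E}
    (hρ : ∀ x : R, (ρ x : E) = algebraMap R E x)
    (hj : ∀ x : R, residue B (ρ x) = j (Ideal.Quotient.mk m x))
    (hσ : ∀ (c : R), c ∉ m → ∀ θ : E, IsIntegral R (algebraMap R E c * θ) →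
        θ ∈ B ∧ σ θ ∈ B ∧ red B (σ θ) = red B θ ^ Nat.card (R ⧸ m)) :
    P.leadingCoeff ∉ m ∧ (∀ θ : E, aeval θ (P.map (algebraMap R k)) = 0 → σ θ = θ ∧ θ ∈ B) ∧
      ∀ c ∈ S, ∃ θ : E, aeval θ (P.map (algebraMap R k)) = 0 ∧ red B θ = j c := by
  haveI : m.IsMaximal := inferInstance
  letI : Field (R ⧸ m) := Ideal.Quotient.field m
  letI := Fintype.ofFinite (R ⧸ m)
  set fb := P.map (Ideal.Quotient.mk m) with hfb
  have hdeg : fb.natDegree = N := by
    rw [hfac, natDegree_C_mul hd, natDegree_finset_prod_X_sub_C_eq_card, hS]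
  have hsep : fb.Separable := by
    rw [hfac]
    apply Separable.unit_mul (isUnit_C.2 (isUnit_iff_ne_zero.2 hd))
    apply separable_prod_X_sub_C_iff'.2
    exact fun x _ y _ h => h
  obtain ⟨hlc, hθs, hr⟩ := roots_of m k hP hdeg hsep E hspl hρ hj hσ
  have hF0 : P.map (algebraMap R k) ≠ 0 := by
    refine (Polynomial.map_ne_zero_iff (IsFractionRing.injective R k)).2 ?_
    rintro rfl
    rw [Polynomial.map_zero] at hfb
    exact hsep.ne_zero hfb
  have hinj : ∀ θ θ' : E, aeval θ (P.map (algebraMap R k)) = 0 →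
      aeval θ' (P.map (algebraMap R k)) = 0 → red B θ = red B θ' → θ = θ' := by
    intro θ θ' h1 h3 h4
    have h5 := inj_of j hsep hr
    have h6 := @h5 ⟨θ, mem_rootSet.2 ⟨hF0, h1⟩⟩ ⟨θ', mem_rootSet.2 ⟨hF0, h3⟩⟩ h4
    exact congrArg Subtype.val h6
  have hroot : ∀ x, (fb.map j).eval x = 0 ↔ ∃ c ∈ S, j c = x := by
    intro x
    rw [hfac, Polynomial.map_mul, map_C, Polynomial.map_prod,
      eval_mul, eval_C, eval_prod, mul_eq_zero, Finset.prod_eq_zero_iff]
    constructor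
    · rintro (h | ⟨c, hcS, h⟩)
      · exact absurd ((map_eq_zero_iff _ j.injective).1 h) hd
      · refine ⟨c, hcS, ?_⟩
        rw [Polynomial.map_sub, map_X, map_C, eval_sub, eval_X, eval_C, sub_eq_zero] at h
        exact h.symm
    · rintro ⟨c, hcS, rfl⟩
      exact Or.inr ⟨c, hcS, by rw [Polynomial.map_sub, map_X, map_C, eval_sub, eval_X, eval_C,
        sub_self]⟩
  have hpowq : ∀ c : R ⧸ m, j c ^ Nat.card (R ⧸ m) = j c := by
    intro c
    rw [← map_pow, Nat.card_eq_fintype_card, FiniteField.pow_card]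
  refine ⟨hlc, fun θ hθ => ⟨?_, (hθs θ hθ).1⟩, fun c hcS => ?_⟩
  · have h1 : (fb.map j).eval (red B θ) = 0 :=
      (root_iff j hsep hr _).2 ⟨⟨θ, mem_rootSet.2 ⟨hF0, hθ⟩⟩, rfl⟩
    obtain ⟨c, -, hc'⟩ := (hroot _).1 h1
    apply hinj _ _ _ hθ
    · rw [(hθs θ hθ).2.2, ← hc', hpowq]
    · rw [aeval_algHom_apply σ θ, hθ, map_zero]
  · obtain ⟨θ, hθ⟩ := (root_iff j hsep hr _).1 ((hroot _).2 ⟨c, hcS, rfl⟩)
    exact ⟨θ, aeval_eq_zero_of_mem_rootSet θ.2, hθ⟩

theorem red_sub {E : Type} [Field E] {B : ValuationSubring E} {x y : E} (hx : x ∈ B) (hy : y ∈ B) :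
    red B (x - y) = red B x - red B y := by
  have h1 := red_coe (⟨x, hx⟩ - ⟨y, hy⟩ : B)
  rw [map_sub, ← red_coe, ← red_coe] at h1
  exact h1

theorem frob_minor (k) [Field k] [Algebra R k] [IsFractionRing R k] {P Q : R[X]} {N : ℕ}
    (hP : P.natDegree ≤ N) (hQ : Q.natDegree ≤ N)
    (h : MM N (P.map (Ideal.Quotient.mk m)) (Q.map (Ideal.Quotient.mk m))) :
    MinG (P.map (algebraMap R k)) (Q.map (algebraMap R k)) := by
  intro E _ _ _ _ splP splQ
  letI : Algebra R E := ((algebraMap k E).comp (algebraMap R k)).toAlgebra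
  haveI : IsScalarTower R k E := IsScalarTower.of_algebraMap_eq fun _ => rfl
  haveI : m.IsMaximal := inferInstance
  letI : Field (R ⧸ m) := Ideal.Quotient.field m
  letI := Fintype.ofFinite (R ⧸ m)
  obtain ⟨d, e, S, T, c₁, c₂, e₁, e₂, hd, he, hS, hT, hf, hg, hc₁, hc₂, he₁, he₂, hns⟩ := h
  obtain ⟨B, ρ, j, σ, hρ, hj, hσ⟩ := frob_gen m k E
  obtain ⟨lP, fP, xP⟩ := split_fix m k hP hd hS hf E splP hρ hj hσ
  obtain ⟨lQ, fQ, xQ⟩ := split_fix m k hQ he hT hg E splQ hρ hj hσ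
  obtain ⟨θ₁, z₁, w₁⟩ := xP c₁ hc₁
  obtain ⟨θ₂, z₂, w₂⟩ := xP c₂ hc₂
  obtain ⟨η₁, y₁, v₁⟩ := xQ e₁ he₁
  obtain ⟨η₂, y₂, v₂⟩ := xQ e₂ he₂
  refine ⟨σ, fun θ hθ => (fP θ hθ).1, fun θ hθ => (fQ θ hθ).1, θ₁, θ₂, η₁, η₂, z₁, z₂, y₁, y₂,
    fun r hr => ?_⟩
  have iP : ∀ θ, aeval θ (P.map (algebraMap R k)) = 0 →
      IsIntegral R (algebraMap R E P.leadingCoeff * θ) := by
    intro θ hθ
    rw [aeval_map_algebraMap] at hθ
    have := isIntegral_leadingCoeff_smul P θ hθ
    rwa [Algebra.smul_def] at this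
  have iQ : ∀ θ, aeval θ (Q.map (algebraMap R k)) = 0 →
      IsIntegral R (algebraMap R E Q.leadingCoeff * θ) := by
    intro θ hθ
    rw [aeval_map_algebraMap] at hθ
    have := isIntegral_leadingCoeff_smul Q θ hθ
    rwa [Algebra.smul_def] at this
  obtain ⟨c0, hc0⟩ : ∃ c0 : R, c0 = P.leadingCoeff * Q.leadingCoeff := ⟨_, rfl⟩
  have hc0m : c0 ∉ m := by
    rw [hc0]
    intro h
    rcases Ideal.IsPrime.mem_or_mem inferInstance h with h | h
    · exact lP h
    · exact lQ h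
  have idiff : ∀ θ η, aeval θ (P.map (algebraMap R k)) = 0 → aeval η (Q.map (algebraMap R k)) = 0 →
      IsIntegral R (algebraMap R E c0 * (θ - η)) := by
    intro θ η hθ hη
    have e : algebraMap R E c0 * (θ - η) = algebraMap R E Q.leadingCoeff *
        (algebraMap R E P.leadingCoeff * θ) - algebraMap R E P.leadingCoeff *
        (algebraMap R E Q.leadingCoeff * η) := by
      rw [hc0, map_mul]
      ring
    rw [e]
    exact (isIntegral_algebraMap.mul (iP θ hθ)).sub (isIntegral_algebraMap.mul (iQ η hη))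
  have hrint : IsIntegral R (algebraMap R E (c0 ^ 2) * r) := by
    apply IsIntegral.of_pow (n := 2) (by norm_num)
    have e : (algebraMap R E (c0 ^ 2) * r) ^ 2 =
        (algebraMap R E c0 * (θ₁ - η₁)) * (algebraMap R E c0 * (θ₂ - η₁)) *
        ((algebraMap R E c0 * (θ₁ - η₂)) * (algebraMap R E c0 * (θ₂ - η₂))) := by
      rw [mul_pow, hr, map_pow]
      ring
    rw [e]
    exact ((idiff _ _ z₁ y₁).mul (idiff _ _ z₂ y₁)).mul ((idiff _ _ z₁ y₂).mul (idiff _ _ z₂ y₂))
  have hcpow : c0 ^ 2 ∉ m := fun h => hc0m (Ideal.IsPrime.mem_of_pow_mem inferInstance _ h)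
  obtain ⟨hrB, hrB', hred⟩ := hσ _ hcpow r hrint
  have hz0 : red B (0 : E) = 0 := by
    have : red B ((0 : B) : E) = residue B 0 := red_coe 0
    rw [map_zero] at this
    exact this
  have hsq : red B r ^ 2 = j ((c₁ - e₁) * (c₂ - e₁) * ((c₁ - e₂) * (c₂ - e₂))) := by
    have b₁ := (fP θ₁ z₁).2
    have b₂ := (fP θ₂ z₂).2
    have b₃ := (fQ η₁ y₁).2
    have b₄ := (fQ η₂ y₂).2
    rw [← red_pow hrB, hr, red_mul (mul_mem (sub_mem b₁ b₃) (sub_mem b₂ b₃))
      (mul_mem (sub_mem b₁ b₄) (sub_mem b₂ b₄)), red_mul (sub_mem b₁ b₃) (sub_mem b₂ b₃),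
      red_mul (sub_mem b₁ b₄) (sub_mem b₂ b₄), red_sub b₁ b₃, red_sub b₂ b₃, red_sub b₁ b₄,
      red_sub b₂ b₄, w₁, w₂, v₁, v₂]
    simp only [map_mul, map_sub]
  have hpm : σ r = r ∨ σ r = -r := by
    apply sq_eq_sq_iff_eq_or_eq_neg.1
    rw [← map_pow, hr]
    simp only [map_mul, map_sub, (fP θ₁ z₁).1, (fP θ₂ z₂).1, (fQ η₁ y₁).1, (fQ η₂ y₂).1]
  constructor
  · rcases hpm with h | h
    · exfalso
      rw [h] at hred
      obtain ⟨y, hy⟩ := fixed_mem j hred.symm
      apply hns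
      refine ⟨y, j.injective ?_⟩
      rw [map_mul j y, hy, ← hsq, sq]
    · exact h
  · rintro rfl
    apply hns
    rw [hz0, zero_pow two_ne_zero] at hsq
    have := (map_eq_zero_iff _ j.injective).1 hsq.symm
    rw [this]
    exact IsSquare.zero

end frob

end Pool.Agent.K9h16.PT
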