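import Pool.Agent.K9h16.PT.Sg
import Pool.Agent.K9h16.PT.Cmb

/-!
The signs of the automorphisms which fix the roots of `a`, `b`, `a - b`.
-/

set_option autoImplicit false
set_option linter.all false

open Polynomial
open scoped Classical

namespace Pool.Agent.K9h16.PT

section pol

variable {k Ω : Type} [Field k] [Field Ω] [Algebra k Ω]

theorem cop_ne {a b : k[X]} (hco : IsCoprime a b) {θ : Ω} (h1 : aeval θ a = 0)
    (h2 : aeval θ b = 0) : False := by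
  obtain ⟨u, v, h⟩ := hco
  have h3 := congrArg (aeval θ) h
  rw [map_add, map_mul, map_mul, h1, h2, mul_zero, mul_zero, add_zero, map_one] at h3
  exact zero_ne_one h3

theorem mem_rs {P : k[X]} (hP : P ≠ 0) {θ : Ω} : θ ∈ P.rootSet Ω ↔ aeval θ P = 0 := by
  rw [mem_rootSet]
  exact ⟨fun h => h.2, fun h => ⟨hP, h⟩⟩

theorem rs_root {P : k[X]} (θ : P.rootSet Ω) : aeval (θ : Ω) P = 0 :=
  aeval_eq_zero_of_mem_rootSet θ.2

/-- The factorization over the separable closure. -/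
theorem map_eq_prod {P : k[X]} (hP : P.Separable) (hs : (P.map (algebraMap k Ω)).Splits) :
    P.map (algebraMap k Ω) = C (algebraMap k Ω P.leadingCoeff) *
      ∏ θ : P.rootSet Ω, (X - C (θ : Ω)) := by
  have h1 := hs.eq_prod_roots
  rw [leadingCoeff_map] at h1
  conv_lhs => rw [h1]
  congr 1
  have hnd : (P.map (algebraMap k Ω)).roots.Nodup := nodup_roots hP.map
  have h3 : ∏ θ : P.rootSet Ω, (X - C (θ : Ω)) =
      ∏ θ ∈ (P.map (algebraMap k Ω)).roots.toFinset, (X - C θ) := by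
    have hset : (P.rootSet Ω).toFinset = (P.map (algebraMap k Ω)).roots.toFinset := by
      ext x
      rw [Set.mem_toFinset, mem_rs hP.ne_zero, Multiset.mem_toFinset,
        mem_roots ((Polynomial.map_ne_zero_iff (algebraMap k Ω).injective).2 hP.ne_zero),
        IsRoot.def, eval_map_algebraMap]
    rw [Finset.prod_set_coe (P.rootSet Ω) (f := fun θ : Ω => X - C θ), hset]
  rw [h3, Finset.prod_multiset_map_count]
  refine Finset.prod_congr rfl fun θ hθ => ?_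
  rw [Multiset.count_eq_one_of_mem hnd (Multiset.mem_toFinset.1 hθ), pow_one]

theorem aeval_prod {P : k[X]} (hP : P.Separable) (hs : (P.map (algebraMap k Ω)).Splits) (x : Ω) :
    aeval x P = algebraMap k Ω P.leadingCoeff * ∏ θ : P.rootSet Ω, (x - (θ : Ω)) := by
  rw [← eval_map_algebraMap, map_eq_prod hP hs, eval_mul, eval_C, eval_prod]
  congr 1
  exact Finset.prod_congr rfl fun θ _ => by rw [eval_sub, eval_X, eval_C]

end pol

section grp

variable {k Ω : Type} [Field k] [Field Ω] [Algebra k Ω]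

/-- The group theoretic hypotheses. -/
structure GH (Ω : Type) [Field Ω] [Algebra k Ω] (a b : k[X]) : Prop where
  pI : ∀ x y z w : a.rootSet Ω, x ≠ y → x ≠ z → x ≠ w → y ≠ z → y ≠ w → z ≠ w →
    ∃ u : Ω ≃ₐ[k] Ω, (∀ i : a.rootSet Ω, u (i : Ω) = (dt x y z w i : a.rootSet Ω)) ∧
      (∀ θ : Ω, aeval θ b = 0 → u θ = θ) ∧ ∀ θ : Ω, aeval θ (a - b) = 0 → u θ = θ
  pJ : ∀ x y z w : b.rootSet Ω, x ≠ y → x ≠ z → x ≠ w → y ≠ z → y ≠ w → z ≠ w →
    ∃ u : Ω ≃ₐ[k] Ω, (∀ i : b.rootSet Ω, u (i : Ω) = (dt x y z w i : b.rootSet Ω)) ∧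
      (∀ θ : Ω, aeval θ a = 0 → u θ = θ) ∧ ∀ θ : Ω, aeval θ (a - b) = 0 → u θ = θ
  pL : ∀ x y z w : (a - b).rootSet Ω, x ≠ y → x ≠ z → x ≠ w → y ≠ z → y ≠ w → z ≠ w →
    ∃ u : Ω ≃ₐ[k] Ω, (∀ i : (a - b).rootSet Ω, u (i : Ω) = (dt x y z w i : (a - b).rootSet Ω)) ∧
      (∀ θ : Ω, aeval θ a = 0 → u θ = θ) ∧ ∀ θ : Ω, aeval θ b = 0 → u θ = θ
  sgn : ∃ (s : Ω ≃ₐ[k] Ω) (θ₁ θ₂ : Ω), aeval θ₁ a = 0 ∧ aeval θ₂ a = 0 ∧
    (∀ θ : Ω, aeval θ a = 0 → s θ = θ) ∧ sg s (aeval θ₁ b) = 0 ∧ sg s (aeval θ₂ b) = 1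
  mf : ∃ (s : Ω ≃ₐ[k] Ω) (p q : a.rootSet Ω) (y y' : b.rootSet Ω),
    (∀ θ : Ω, aeval θ a = 0 → s θ = θ) ∧ (∀ θ : Ω, aeval θ b = 0 → s θ = θ) ∧
    sg s ((p : Ω) - y) + sg s ((q : Ω) - y) + sg s ((p : Ω) - y') + sg s ((q : Ω) - y') = 1
  mg : ∃ (s : Ω ≃ₐ[k] Ω) (p q : a.rootSet Ω) (y y' : (a - b).rootSet Ω),
    (∀ θ : Ω, aeval θ a = 0 → s θ = θ) ∧ (∀ θ : Ω, aeval θ (a - b) = 0 → s θ = θ) ∧
    sg s ((p : Ω) - y) + sg s ((q : Ω) - y) + sg s ((p : Ω) - y') + sg s ((q : Ω) - y') = 1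

/-- The automorphisms which fix the roots of `a`, `b`, `a - b` and the square roots of constants. -/
structure W0 (a b : k[X]) (w : Ω ≃ₐ[k] Ω) : Prop where
  fa : ∀ θ : Ω, aeval θ a = 0 → w θ = θ
  fb : ∀ θ : Ω, aeval θ b = 0 → w θ = θ
  fd : ∀ θ : Ω, aeval θ (a - b) = 0 → w θ = θ
  fc : ∀ c : k, c ≠ 0 → sg w (algebraMap k Ω c) = 0

/-- The signs. -/
noncomputable def sgn (a b : k[X]) (w : Ω ≃ₐ[k] Ω) :
    VV (a.rootSet Ω) (b.rootSet Ω) ((a - b).rootSet Ω) :=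
  (fun i j => sg w ((i : Ω) - j), fun i l => sg w ((i : Ω) - l), fun j l => sg w ((j : Ω) - l))

theorem root_map (u : Ω ≃ₐ[k] Ω) {P : k[X]} {θ : Ω} (h : aeval θ P = 0) : aeval (u θ) P = 0 := by
  rw [aeval_algHom_apply u θ P, h, map_zero]

variable [IsSepClosed Ω] (h2 : (2 : Ω) ≠ 0) {a b : k[X]} (hco : IsCoprime a b)

include hco in
theorem ne_ab {θ η : Ω} (h : aeval θ a = 0) (h' : aeval η b = 0) : θ - η ≠ 0 := by
  intro e
  rw [sub_eq_zero] at e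
  subst e
  exact cop_ne hco h h'

include hco in
theorem ne_ad {θ η : Ω} (h : aeval θ a = 0) (h' : aeval η (a - b) = 0) : θ - η ≠ 0 := by
  intro e
  rw [sub_eq_zero] at e
  subst e
  rw [map_sub, h, zero_sub, neg_eq_zero] at h'
  exact cop_ne hco h h'

include hco in
theorem ne_bd {θ η : Ω} (h : aeval θ b = 0) (h' : aeval η (a - b) = 0) : θ - η ≠ 0 := by
  intro e
  rw [sub_eq_zero] at e
  subst e
  rw [map_sub, h, sub_zero] at h'
  exact cop_ne hco h' h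

theorem W0.one : W0 a b (1 : Ω ≃ₐ[k] Ω) ∨ (2 : Ω) = 0 := by
  by_cases h2 : (2 : Ω) = 0
  · exact Or.inr h2
  · exact Or.inl ⟨fun _ _ => rfl, fun _ _ => rfl, fun _ _ => rfl, fun c hc =>
      sg_one_l h2 ((_root_.map_ne_zero _).2 hc)⟩

include h2 in
theorem W0.mul {w w' : Ω ≃ₐ[k] Ω} (h : W0 a b w) (h' : W0 a b w') : W0 a b (w * w') := by
  refine ⟨fun θ hθ => ?_, fun θ hθ => ?_, fun θ hθ => ?_, fun c hc => ?_⟩
  · show w (w' θ) = θ
    rw [h'.fa θ hθ, h.fa θ hθ]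
  · show w (w' θ) = θ
    rw [h'.fb θ hθ, h.fb θ hθ]
  · show w (w' θ) = θ
    rw [h'.fd θ hθ, h.fd θ hθ]
  · rw [sg_mul_l h2 ((_root_.map_ne_zero _).2 hc) (w.commutes c) (w'.commutes c), h.fc c hc,
      h'.fc c hc, add_zero]

include h2 in
theorem W0.conj {w : Ω ≃ₐ[k] Ω} (h : W0 a b w) (u : Ω ≃ₐ[k] Ω) : W0 a b (u⁻¹ * w * u) := by
  have key : ∀ θ : Ω, w (u θ) = u θ → (u⁻¹ * w * u) θ = θ := by
    intro θ hθ
    show u⁻¹ (w (u θ)) = θ
    rw [hθ]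
    exact u.symm_apply_apply θ
  refine ⟨fun θ hθ => key θ (h.fa _ (root_map u hθ)), fun θ hθ => key θ (h.fb _ (root_map u hθ)),
    fun θ hθ => key θ (h.fd _ (root_map u hθ)), fun c hc => ?_⟩
  rw [sg_conj h2 ((_root_.map_ne_zero _).2 hc) (by rw [u.commutes, w.commutes]), u.commutes,
    h.fc c hc]

include h2 hco in
theorem sgn_mul {w w' : Ω ≃ₐ[k] Ω} (h : W0 a b w) (h' : W0 a b w') :
    sgn a b (w * w') = sgn a b w + sgn a b w' := by
  refine Prod.ext ?_ (Prod.ext ?_ ?_)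
  · funext i j
    exact sg_mul_l h2 (ne_ab hco (rs_root i) (rs_root j))
      (by rw [map_sub, h.fa _ (rs_root i), h.fb _ (rs_root j)])
      (by rw [map_sub, h'.fa _ (rs_root i), h'.fb _ (rs_root j)])
  · funext i j
    exact sg_mul_l h2 (ne_ad hco (rs_root i) (rs_root j))
      (by rw [map_sub, h.fa _ (rs_root i), h.fd _ (rs_root j)])
      (by rw [map_sub, h'.fa _ (rs_root i), h'.fd _ (rs_root j)])
  · funext i j
    exact sg_mul_l h2 (ne_bd hco (rs_root i) (rs_root j))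
      (by rw [map_sub, h.fb _ (rs_root i), h.fd _ (rs_root j)])
      (by rw [map_sub, h'.fb _ (rs_root i), h'.fd _ (rs_root j)])

/-- The group of the signs. -/
def SS (h2 : (2 : Ω) ≠ 0) (hco : IsCoprime a b) :
    AddSubgroup (VV (a.rootSet Ω) (b.rootSet Ω) ((a - b).rootSet Ω)) where
  carrier := {s | ∃ w : Ω ≃ₐ[k] Ω, W0 a b w ∧ s = sgn a b w}
  add_mem' := by
    rintro _ _ ⟨w, hw, rfl⟩ ⟨w', hw', rfl⟩
    exact ⟨w * w', hw.mul h2 hw', (sgn_mul h2 hco hw hw').symm⟩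
  zero_mem' := by
    refine ⟨1, (W0.one (a := a) (b := b)).resolve_right h2, ?_⟩
    refine Prod.ext ?_ (Prod.ext ?_ ?_)
    · funext i j
      exact (sg_one_l h2 (ne_ab hco (rs_root i) (rs_root j))).symm
    · funext i j
      exact (sg_one_l h2 (ne_ad hco (rs_root i) (rs_root j))).symm
    · funext i j
      exact (sg_one_l h2 (ne_bd hco (rs_root i) (rs_root j))).symm
  neg_mem' := by
    intro s hs
    have : -s = s := by
      rw [neg_eq_iff_add_eq_zero]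
      exact Prod.ext (zz_fun2 _) (Prod.ext (zz_fun2 _) (zz_fun2 _))
    rw [this]
    exact hs

theorem stab (hG : GH Ω a b) : Stab (SS h2 hco) := by
  constructor
  · rintro x y z w h3 h4 h5 h6 h7 h8 _ ⟨v, hv, rfl⟩
    obtain ⟨u, u1, u2, u3⟩ := hG.pI x y z w h3 h4 h5 h6 h7 h8
    refine ⟨u⁻¹ * v * u, hv.conj h2 u, ?_⟩
    refine Prod.ext ?_ (Prod.ext ?_ ?_)
    · funext i j
      show sg v _ = sg _ _
      rw [sg_conj h2 (ne_ab hco (rs_root i) (rs_root j)) (by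
        rw [map_sub, map_sub, hv.fa _ (root_map u (rs_root i)), hv.fb _ (root_map u (rs_root j))]),
        map_sub, u1, u2 _ (rs_root j)]
    · funext i j
      show sg v _ = sg _ _
      rw [sg_conj h2 (ne_ad hco (rs_root i) (rs_root j)) (by
        rw [map_sub, map_sub, hv.fa _ (root_map u (rs_root i)), hv.fd _ (root_map u (rs_root j))]),
        map_sub, u1, u3 _ (rs_root j)]
    · funext i j
      show sg v _ = sg _ _
      rw [sg_conj h2 (ne_bd hco (rs_root i) (rs_root j)) (by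
        rw [map_sub, map_sub, hv.fb _ (root_map u (rs_root i)), hv.fd _ (root_map u (rs_root j))]),
        map_sub, u2 _ (rs_root i), u3 _ (rs_root j)]
  · rintro x y z w h3 h4 h5 h6 h7 h8 _ ⟨v, hv, rfl⟩
    obtain ⟨u, u1, u2, u3⟩ := hG.pJ x y z w h3 h4 h5 h6 h7 h8
    refine ⟨u⁻¹ * v * u, hv.conj h2 u, ?_⟩
    refine Prod.ext ?_ (Prod.ext ?_ ?_)
    · funext i j
      show sg v _ = sg _ _
      rw [sg_conj h2 (ne_ab hco (rs_root i) (rs_root j)) (by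
        rw [map_sub, map_sub, hv.fa _ (root_map u (rs_root i)), hv.fb _ (root_map u (rs_root j))]),
        map_sub, u1, u2 _ (rs_root i)]
    · funext i j
      show sg v _ = sg _ _
      rw [sg_conj h2 (ne_ad hco (rs_root i) (rs_root j)) (by
        rw [map_sub, map_sub, hv.fa _ (root_map u (rs_root i)), hv.fd _ (root_map u (rs_root j))]),
        map_sub, u2 _ (rs_root i), u3 _ (rs_root j)]
    · funext i j
      show sg v _ = sg _ _
      rw [sg_conj h2 (ne_bd hco (rs_root i) (rs_root j)) (by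
        rw [map_sub, map_sub, hv.fb _ (root_map u (rs_root i)), hv.fd _ (root_map u (rs_root j))]),
        map_sub, u1, u3 _ (rs_root j)]
  · rintro x y z w h3 h4 h5 h6 h7 h8 _ ⟨v, hv, rfl⟩
    obtain ⟨u, u1, u2, u3⟩ := hG.pL x y z w h3 h4 h5 h6 h7 h8
    refine ⟨u⁻¹ * v * u, hv.conj h2 u, ?_⟩
    refine Prod.ext ?_ (Prod.ext ?_ ?_)
    · funext i j
      show sg v _ = sg _ _
      rw [sg_conj h2 (ne_ab hco (rs_root i) (rs_root j)) (by
        rw [map_sub, map_sub, hv.fa _ (root_map u (rs_root i)), hv.fb _ (root_map u (rs_root j))]),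
        map_sub, u2 _ (rs_root i), u3 _ (rs_root j)]
    · funext i j
      show sg v _ = sg _ _
      rw [sg_conj h2 (ne_ad hco (rs_root i) (rs_root j)) (by
        rw [map_sub, map_sub, hv.fa _ (root_map u (rs_root i)), hv.fd _ (root_map u (rs_root j))]),
        map_sub, u1, u2 _ (rs_root i)]
    · funext i j
      show sg v _ = sg _ _
      rw [sg_conj h2 (ne_bd hco (rs_root i) (rs_root j)) (by
        rw [map_sub, map_sub, hv.fb _ (root_map u (rs_root i)), hv.fd _ (root_map u (rs_root j))]),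
        map_sub, u1, u3 _ (rs_root i)]

/-! ### The sums -/

variable (sa : a.Separable) (sb : b.Separable) (sd : (a - b).Separable)
  (ta : (a.map (algebraMap k Ω)).Splits) (tb : (b.map (algebraMap k Ω)).Splits)
  (td : ((a - b).map (algebraMap k Ω)).Splits)

include h2 sb tb in
/-- The sum of the signs over the roots of `P`. -/
theorem sum_sg {w : Ω ≃ₐ[k] Ω} (hc : ∀ c : k, c ≠ 0 → sg w (algebraMap k Ω c) = 0)
    (hw : ∀ θ : Ω, aeval θ b = 0 → w θ = θ) {x : Ω} (hx : w x = x)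
    (h0 : ∀ θ : Ω, aeval θ b = 0 → x - θ ≠ 0) :
    ∑ j : b.rootSet Ω, sg w (x - (j : Ω)) = sg w (aeval x b) := by
  rw [aeval_prod sb tb, sg_mul h2 ((_root_.map_ne_zero _).2 (leadingCoeff_ne_zero.2 sb.ne_zero))
    (Finset.prod_ne_zero_iff.2 fun j _ => h0 _ (rs_root j)) (w.commutes _) (by
      rw [map_prod]
      exact Finset.prod_congr rfl fun j _ => by rw [map_sub, hx, hw _ (rs_root j)]),
    hc _ (leadingCoeff_ne_zero.2 sb.ne_zero), zero_add,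
    sg_prod h2 w _ _ (fun j _ => h0 _ (rs_root j)) (fun j _ => by
      rw [map_sub, hx, hw _ (rs_root j)])]

include h2 in
theorem sg_neg {w : Ω ≃ₐ[k] Ω} (hc : ∀ c : k, c ≠ 0 → sg w (algebraMap k Ω c) = 0) {x : Ω}
    (h0 : x ≠ 0) (hx : w x = x) : sg w (-x) = sg w x := by
  have h1 := sg_mul h2 (w := w) (x := algebraMap k Ω (-1)) (y := x)
    ((_root_.map_ne_zero _).2 (neg_ne_zero.2 one_ne_zero)) h0 (w.commutes _) hx
  rw [hc _ (neg_ne_zero.2 one_ne_zero), zero_add, map_neg, map_one, neg_one_mul] at h1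
  exact h1

include h2 in
/-- The commutators. -/
theorem comm_W0 {s t : Ω ≃ₐ[k] Ω} (hs : ∀ θ : Ω, aeval θ a = 0 → s θ = θ)
    (t2 : ∀ θ : Ω, aeval θ b = 0 → t θ = θ) (t3 : ∀ θ : Ω, aeval θ (a - b) = 0 → t θ = θ) :
    W0 a b (s * (t * s⁻¹ * t⁻¹)) := by
  have gapp : ∀ x, (s * (t * s⁻¹ * t⁻¹)) x = s (t (s⁻¹ (t⁻¹ x))) := fun x => rfl
  have tt' : ∀ x, t (t⁻¹ x) = x := fun x => t.apply_symm_apply x
  have ss' : ∀ x, s (s⁻¹ x) = x := fun x => s.apply_symm_apply x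
  refine ⟨fun θ hθ => ?_, fun θ hθ => ?_, fun θ hθ => ?_, fun c hc => ?_⟩
  · rw [gapp, fix_inv (hs _ (root_map t⁻¹ hθ)), tt', hs θ hθ]
  · rw [gapp, fix_inv (t2 θ hθ), t2 _ (root_map s⁻¹ hθ), ss']
  · rw [gapp, fix_inv (t3 θ hθ), t3 _ (root_map s⁻¹ hθ), ss']
  · have hc' : algebraMap k Ω c ≠ 0 := (_root_.map_ne_zero _).2 hc
    rw [sg_mul_l h2 hc' (s.commutes c) (AlgEquiv.commutes _ c),
      sg_mul_l h2 hc' (AlgEquiv.commutes _ c) (AlgEquiv.commutes _ c),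
      sg_mul_l h2 hc' (AlgEquiv.commutes _ c) (AlgEquiv.commutes _ c),
      sg_inv h2 hc' (s.commutes c), sg_inv h2 hc' (t.commutes c)]
    have : ∀ x y : ZMod 2, x + (y + x + y) = 0 := by decide
    exact this _ _

include h2 in
/-- The sign of a commutator. -/
theorem sg_comm {s t : Ω ≃ₐ[k] Ω} {x x' : Ω} (hx : x ≠ 0) (hx' : x' ≠ 0) (h1 : s x = x)
    (h3 : s x' = x') (h4 : t⁻¹ x = x') :
    sg (s * (t * s⁻¹ * t⁻¹)) x = sg s x + sg s x' := by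
  have e4 : (t * s⁻¹ * t⁻¹) x = x := by
    show t (s⁻¹ (t⁻¹ x)) = _
    rw [h4, fix_inv h3, ← h4]
    exact t.apply_symm_apply x
  rw [sg_mul_l h2 hx h1 e4]
  congr 1
  have e5 := sg_conj h2 (w := s⁻¹) (v := t⁻¹) hx (by rw [h4, fix_inv h3])
  rw [inv_inv, h4] at e5
  rw [e5, sg_inv h2 hx' h3]

include h2 hco sa sb sd ta tb td in
/-- The element to start with. -/
theorem start (hG : GH Ω a b) (hN : 5 ≤ Nat.card (a.rootSet Ω)) :
    ∃ w : Ω ≃ₐ[k] Ω, W0 a b w ∧ ∃ p q : a.rootSet Ω,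
      sg w (aeval (p : Ω) b) ≠ sg w (aeval (q : Ω) b) := by
  obtain ⟨s, θ₁, θ₂, z₁, z₂, hs, s₁, s₂⟩ := hG.sgn
  obtain ⟨p, rfl⟩ : ∃ p : a.rootSet Ω, (p : Ω) = θ₁ := ⟨⟨θ₁, (mem_rs sa.ne_zero).2 z₁⟩, rfl⟩
  obtain ⟨q, rfl⟩ : ∃ q : a.rootSet Ω, (q : Ω) = θ₂ := ⟨⟨θ₂, (mem_rs sa.ne_zero).2 z₂⟩, rfl⟩
  have hpq : p ≠ q := by
    rintro rfl
    rw [s₁] at s₂
    exact zero_ne_one s₂
  obtain ⟨z, z1, z2, -, -⟩ := exists_ne_four hN p q q q
  obtain ⟨w, w1, w2, w3, -⟩ := exists_ne_four hN p q z z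
  obtain ⟨v, v1, v2, v3, v4⟩ := exists_ne_four hN p q z w
  obtain ⟨t, t1, t2, t3⟩ := hG.pI p q z w hpq z1 w1 z2 w2 w3
  have hbne : ∀ i : a.rootSet Ω, aeval (i : Ω) b ≠ 0 := fun i h => cop_ne hco (rs_root i) h
  refine ⟨s * (t * s⁻¹ * t⁻¹), comm_W0 h2 hs t2 t3, q, v, ?_⟩
  -- the value at a root
  have key : ∀ i i' : a.rootSet Ω, t⁻¹ (i : Ω) = i' →
      sg (s * (t * s⁻¹ * t⁻¹)) (aeval (i : Ω) b) =
        sg s (aeval (i : Ω) b) + sg s (aeval (i' : Ω) b) := by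
    intro i i' hi
    exact sg_comm h2 (hbne i) (hbne i')
      (by rw [← aeval_algHom_apply s, hs _ (rs_root i)])
      (by rw [← aeval_algHom_apply s, hs _ (rs_root i')])
      (by rw [← aeval_algHom_apply t⁻¹, hi])
  have hq : t⁻¹ (q : Ω) = p := by
    have h3 := t1 p
    rw [dt_1 z1 w1] at h3
    rw [← h3]
    exact t.symm_apply_apply _
  have hv : t⁻¹ (v : Ω) = v := by
    have h3 := t1 v
    rw [dt_5 v1.symm v2.symm v3.symm v4.symm] at h3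
    exact fix_inv h3
  rw [key q p hq, key v v hv, s₁, s₂, zz]
  decide

include h2 hco sa in
theorem start_f (hG : GH Ω a b) (hN : 5 ≤ Nat.card (a.rootSet Ω)) :
    ∃ w : Ω ≃ₐ[k] Ω, W0 a b w ∧ ∃ (p q : a.rootSet Ω) (y y' : b.rootSet Ω),
      sg w ((p : Ω) - y) + sg w ((q : Ω) - y) + sg w ((p : Ω) - y') + sg w ((q : Ω) - y') = 1 := by
  obtain ⟨s, p, q, y, y', hs, hs', hy⟩ := hG.mf
  have hpq : p ≠ q := by
    rintro rfl
    rw [zz, zero_add, zz] at hy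
    exact zero_ne_one hy
  obtain ⟨z, z1, z2, -, -⟩ := exists_ne_four hN p q q q
  obtain ⟨w, w1, w2, w3, -⟩ := exists_ne_four hN p q z z
  obtain ⟨v, v1, v2, v3, v4⟩ := exists_ne_four hN p q z w
  obtain ⟨t, t1, t2, t3⟩ := hG.pI p q z w hpq z1 w1 z2 w2 w3
  refine ⟨s * (t * s⁻¹ * t⁻¹), comm_W0 h2 hs t2 t3, q, v, y, y', ?_⟩
  have key : ∀ (i i' : a.rootSet Ω) (j : b.rootSet Ω), t⁻¹ (i : Ω) = i' →
      sg (s * (t * s⁻¹ * t⁻¹)) ((i : Ω) - j) = sg s ((i : Ω) - j) + sg s ((i' : Ω) - j) := by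
    intro i i' j hi
    exact sg_comm h2 (ne_ab hco (rs_root i) (rs_root j)) (ne_ab hco (rs_root i') (rs_root j))
      (by rw [map_sub, hs _ (rs_root i), hs' _ (rs_root j)])
      (by rw [map_sub, hs _ (rs_root i'), hs' _ (rs_root j)])
      (by rw [map_sub, hi, fix_inv (t2 _ (rs_root j))])
  have hq : t⁻¹ (q : Ω) = p := by
    have h3 := t1 p
    rw [dt_1 z1 w1] at h3
    rw [← h3]
    exact t.symm_apply_apply _
  have hv : t⁻¹ (v : Ω) = v := by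
    have h3 := t1 v
    rw [dt_5 v1.symm v2.symm v3.symm v4.symm] at h3
    exact fix_inv h3
  rw [key q p y hq, key v v y hv, key q p y' hq, key v v y' hv, zz, zz, ← hy]
  ring

include h2 hco sa in
theorem start_g (hG : GH Ω a b) (hN : 5 ≤ Nat.card (a.rootSet Ω)) :
    ∃ w : Ω ≃ₐ[k] Ω, W0 a b w ∧ ∃ (p q : a.rootSet Ω) (y y' : (a - b).rootSet Ω),
      sg w ((p : Ω) - y) + sg w ((q : Ω) - y) + sg w ((p : Ω) - y') + sg w ((q : Ω) - y') = 1 := by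
  obtain ⟨s, p, q, y, y', hs, hs', hy⟩ := hG.mg
  have hpq : p ≠ q := by
    rintro rfl
    rw [zz, zero_add, zz] at hy
    exact zero_ne_one hy
  obtain ⟨z, z1, z2, -, -⟩ := exists_ne_four hN p q q q
  obtain ⟨w, w1, w2, w3, -⟩ := exists_ne_four hN p q z z
  obtain ⟨v, v1, v2, v3, v4⟩ := exists_ne_four hN p q z w
  obtain ⟨t, t1, t2, t3⟩ := hG.pI p q z w hpq z1 w1 z2 w2 w3
  refine ⟨s * (t * s⁻¹ * t⁻¹), comm_W0 h2 hs t2 t3, q, v, y, y', ?_⟩
  have key : ∀ (i i' : a.rootSet Ω) (j : (a - b).rootSet Ω), t⁻¹ (i : Ω) = i' →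
      sg (s * (t * s⁻¹ * t⁻¹)) ((i : Ω) - j) = sg s ((i : Ω) - j) + sg s ((i' : Ω) - j) := by
    intro i i' j hi
    exact sg_comm h2 (ne_ad hco (rs_root i) (rs_root j)) (ne_ad hco (rs_root i') (rs_root j))
      (by rw [map_sub, hs _ (rs_root i), hs' _ (rs_root j)])
      (by rw [map_sub, hs _ (rs_root i'), hs' _ (rs_root j)])
      (by rw [map_sub, hi, fix_inv (t3 _ (rs_root j))])
  have hq : t⁻¹ (q : Ω) = p := by
    have h3 := t1 p
    rw [dt_1 z1 w1] at h3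
    rw [← h3]
    exact t.symm_apply_apply _
  have hv : t⁻¹ (v : Ω) = v := by
    have h3 := t1 v
    rw [dt_5 v1.symm v2.symm v3.symm v4.symm] at h3
    exact fix_inv h3
  rw [key q p y hq, key v v y hv, key q p y' hq, key v v y' hv, zz, zz, ← hy]
  ring

include h2 hco sa sb sd ta tb td in
/-- **The conclusion of the combinatorial theorem.** -/
theorem concl (hG : GH Ω a b) (hN : 5 ≤ Nat.card (a.rootSet Ω)) (hN' : 5 ≤ Nat.card (b.rootSet Ω))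
    (hN'' : 5 ≤ Nat.card ((a - b).rootSet Ω))
    {α : a.rootSet Ω → ZMod 2} {β : b.rootSet Ω → ZMod 2} {γ : (a - b).rootSet Ω → ZMod 2}
    (hsys : ∀ w : Ω ≃ₐ[k] Ω, W0 a b w → Sys α β γ (sgn a b w)) :
    ∃ x y z : ZMod 2, (∀ i, α i = x) ∧ (∀ j, β j = y) ∧ (∀ l, γ l = z) ∧ x + y + z = 0 := by
  obtain ⟨w, hw, p, q, hpq⟩ := start h2 hco sa sb sd ta tb td hG hN
  obtain ⟨w₁, hw₁, p₁, q₁, y₁, y₁', h₁⟩ := start_f h2 hco sa hG hN
  obtain ⟨w₂, hw₂, p₂, q₂, y₂, y₂', h₂⟩ := start_g h2 hco sa hG hN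
  have e1 : ∀ i : a.rootSet Ω, ∑ j, (sgn a b w).1 i j = sg w (aeval (i : Ω) b) := fun i =>
    sum_sg h2 sb tb hw.fc hw.fb (hw.fa _ (rs_root i)) (fun θ hθ => ne_ab hco (rs_root i) hθ)
  have e2 : ∀ i : a.rootSet Ω, ∑ l, (sgn a b w).2.1 i l = sg w (aeval (i : Ω) b) := by
    intro i
    have h3 := sum_sg h2 sd td hw.fc hw.fd (hw.fa _ (rs_root i))
      (fun θ hθ => ne_ad hco (rs_root i) hθ)
    have h4 : aeval (i : Ω) (a - b) = -aeval (i : Ω) b := by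
      rw [map_sub, rs_root i, zero_sub]
    rw [h4, sg_neg h2 hw.fc (fun h => cop_ne hco (rs_root i) h) (by
      rw [← aeval_algHom_apply w, hw.fa _ (rs_root i)])] at h3
    exact h3
  refine cmb (stab h2 hco hG) hN hN' hN'' ⟨sgn a b w₁, ⟨w₁, hw₁, rfl⟩, p₁, q₁, y₁, y₁', h₁⟩
    ⟨sgn a b w₂, ⟨w₂, hw₂, rfl⟩, p₂, q₂, y₂, y₂', h₂⟩ (fun s hs => ?_) (s := sgn a b w)
    ⟨w, hw, rfl⟩ (fun i => by rw [e1, e2]) (p := p) (q := q) (by rw [e1, e1]; exact hpq)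
  obtain ⟨w', hw', rfl⟩ := hs
  exact hsys w' hw'

end grp

end Pool.Agent.K9h16.PT
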