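import Pool.Agent.TH115.SD.Lift

/-!
Isomorphisms between the completions of a field at different places, and their extensions to the
separable closures.
-/

set_option autoImplicit false
set_option linter.all false

open Polynomial IsDedekindDomain Filter Topology
open scoped WithZeroTopology

namespace Pool.Agent.K9h16.PT

open Pool.Agent.TH115.GD

section gen

variable {R F : Type} [CommRing R] [IsDedekindDomain R] [Field F] [Algebra R F]
  [IsFractionRing R F] (v v' : HeightOneSpectrum R)

theorem congr_cont' (e : F ≃+* F) (he : ∀ x, v.valuation F (e x) = v'.valuation F x) :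
    Continuous (WithVal.congr (v'.valuation F) (v.valuation F) e) := by
  apply UniformContinuous.continuous
  refine uniformContinuous_of_continuousAt_zero _ ?_
  simp_rw [ContinuousAt, map_zero, (Valued.hasBasis_nhds_zero _ _).tendsto_iff
    (Valued.hasBasis_nhds_zero _ _), true_and, forall_const]
  intro γ
  obtain ⟨r, s, hr, hs, hrs⟩ := Valuation.exists_div_eq_of_unit
    (v := (Valued.v (R := WithVal (v.valuation F)))) γ
  obtain ⟨y, hy⟩ : ∃ y : WithVal (v.valuation F),
      (Valued.v (R := WithVal (v.valuation F))).restrict y = γ.1 :=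
    ⟨r / s, by rw [map_div₀, hrs]⟩
  let c := WithVal.congr (v'.valuation F) (v.valuation F) e
  have hval : ∀ x : WithVal (v'.valuation F), Valued.v (R := WithVal (v.valuation F)) (c x) =
      Valued.v (R := WithVal (v'.valuation F)) x := fun x => he _
  have hy0 : y ≠ 0 := by
    rintro rfl
    rw [map_zero] at hy
    exact γ.ne_zero hy.symm
  have hcy : (Valued.v (R := WithVal (v'.valuation F))).restrict (c.symm y) ≠ 0 := by
    rw [Ne, Valuation.restrict_eq_zero_iff, Valuation.zero_iff]
    intro h
    exact hy0 (c.symm.injective (h.trans (map_zero c.symm).symm))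
  refine ⟨Units.mk0 _ hcy, fun x hx => ?_⟩
  have hx' : (Valued.v (R := WithVal (v'.valuation F))).restrict x <
      (Valued.v (R := WithVal (v'.valuation F))).restrict (c.symm y) := hx
  show (Valued.v (R := WithVal (v.valuation F))).restrict (c x) < γ.1
  rw [← hy, Valuation.restrict_lt_iff]
  rw [Valuation.restrict_lt_iff, ← hval, ← hval (c.symm y), RingEquiv.apply_symm_apply] at hx'
  exact hx'

theorem comp_iso (e : F ≃+* F) (he : ∀ x, v.valuation F (e x) = v'.valuation F x) :
    ∃ γ : Comp R F v' ≃+* Comp R F v, ∀ x : F, γ (algebraMap F _ x) = algebraMap F _ (e x) := by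
  have he' : ∀ x, v'.valuation F (e.symm x) = v.valuation F x := fun x => by
    rw [← he, RingEquiv.apply_symm_apply]
  let c := WithVal.congr (v'.valuation F) (v.valuation F) e
  have hc : Continuous c := congr_cont' v v' e he
  have hc' : Continuous c.symm := congr_cont' v' v e.symm he'
  let γ0 : (v'.valuation F).Completion ≃+* (v.valuation F).Completion :=
    UniformSpace.Completion.mapRingEquiv c hc hc'
  let E := HeightOneSpectrum.adicCompletion.equiv F v
  let E' := HeightOneSpectrum.adicCompletion.equiv F v'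
  let γ : v'.adicCompletion F ≃+* v.adicCompletion F := (E'.trans γ0).trans E.symm
  have hγ : ∀ x : F, γ (algebraMap F (v'.adicCompletion F) x) =
      algebraMap F (v.adicCompletion F) (e x) := by
    intro x
    apply HeightOneSpectrum.adicCompletion.ext
    exact UniformSpace.Completion.mapRingHom_coe (f := c.toRingHom) hc
      ((WithVal.equiv (v'.valuation F)).symm x)
  exact ⟨γ, hγ⟩

end gen

section tw

variable {L L' : Type} [Field L] [Field L']

/-- The separable closure of `L` as an algebra over the isomorphic field `L'`. -/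
def Tv (γ : L' ≃+* L) : Type := Sep L

noncomputable instance tvField (γ : L' ≃+* L) : Field (Tv γ) := (inferInstance : Field (Sep L))

noncomputable instance tvAlgebra (γ : L' ≃+* L) : Algebra L' (Tv γ) :=
  ((algebraMap L (Sep L)).comp (γ : L' →+* L)).toAlgebra

instance tvSepClosed (γ : L' ≃+* L) : IsSepClosed (Tv γ) := (inferInstance : IsSepClosed (Sep L))

instance tvSep (γ : L' ≃+* L) : IsSepClosure L' (Tv γ) := by
  refine ⟨inferInstance, ⟨fun x => ?_⟩⟩
  haveI : Algebra.IsSeparable L (Sep L) := IsSepClosure.separable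
  let y : Sep L := x
  have h1 : IsSeparable L y := Algebra.IsSeparable.isSeparable L y
  have h2 : ((minpoly L y).map (γ.symm : L →+* L')).Separable :=
    Polynomial.Separable.map (p := minpoly L y) h1
  refine Polynomial.Separable.of_dvd h2 ?_
  apply minpoly.dvd
  have h3 : aeval x ((minpoly L y).map (γ.symm : L →+* L')) =
      eval₂ (((algebraMap L (Sep L)).comp (γ : L' →+* L)).comp (γ.symm : L →+* L')) y
        (minpoly L y) := by
    rw [aeval_def, eval₂_map]
    rfl
  have h4 : ((algebraMap L (Sep L)).comp (γ : L' →+* L)).comp (γ.symm : L →+* L') =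
      algebraMap L (Sep L) := by
    ext z
    simp
  rw [h3, h4, ← aeval_def, minpoly.aeval]
  rfl

/-- Isomorphisms extend to the separable closures. -/
theorem exists_G2 (γ : L' ≃+* L) : ∃ G : Sep L' ≃+* Sep L,
    ∀ x, G (algebraMap L' (Sep L') x) = algebraMap L (Sep L) (γ x) := by
  let e : Sep L' ≃ₐ[L'] Tv γ := IsSepClosure.equiv L' (Sep L') (Tv γ)
  refine ⟨e.toRingEquiv, fun x => ?_⟩
  exact e.commutes x

end tw

section loc

open WeierstrassCurve WeierstrassCurve.Affine
open scoped Classical

variable {K F : Type} [Field K] [Field F] [Algebra K F] (W : WeierstrassCurve K)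

/-- The conjugate of a locally trivial cochain is trivial at the conjugate place. -/
theorem locTriv_conj {L L' : Type} [Field L] [Field L'] [Algebra F L] [Algebra F L'] [Algebra K L]
    [Algebra K L'] [IsScalarTower K F L] [IsScalarTower K F L'] {e : F ≃+* F}
    (heK : ∀ x : K, e (algebraMap K F x) = algebraMap K F x)
    (γ : L' ≃+* L) (hγ : ∀ x : F, γ (algebraMap F L' x) = algebraMap F L (e x))
    {f f' : (Sep F ≃ₐ[F] Sep F) → Pt W (Sep F)} (τ : Sep F ≃ₐ[K] Sep F)
    (hτ : ∀ x : F, τ (algebraMap F (Sep F) x) = algebraMap F (Sep F) (e x))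
    (hf : ∀ σ σ' : Sep F ≃ₐ[F] Sep F, (∀ x, τ (σ' x) = σ (τ x)) →
      f' σ = act W (ak τ) (f σ'))
    (h : LocTriv W L' (Sep L') f) : LocTriv W L (Sep L) f' := by
  obtain ⟨ι, P, hP⟩ := h
  obtain ⟨G, hG⟩ := exists_G2 γ
  have hKL : ∀ x : K, γ (algebraMap K L' x) = algebraMap K L x := by
    intro x
    rw [IsScalarTower.algebraMap_apply K F L', hγ, heK, ← IsScalarTower.algebraMap_apply]
  have hGK : ∀ x : K, G (algebraMap K (Sep L') x) = algebraMap K (Sep L) x := by
    intro x
    rw [IsScalarTower.algebraMap_apply K L' (Sep L'), hG, hKL, ← IsScalarTower.algebraMap_apply]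
  have hGF : ∀ x : F, G (algebraMap F (Sep L') x) = algebraMap F (Sep L) (e x) := by
    intro x
    rw [IsScalarTower.algebraMap_apply F L' (Sep L'), hG, hγ, ← IsScalarTower.algebraMap_apply]
  let GK : Sep L' ≃ₐ[K] Sep L := AlgEquiv.ofRingEquiv (f := G) hGK
  let ι₁ : Sep F →ₐ[F] Sep L :=
    { toRingHom := (G.toRingHom.comp ι.toRingHom).comp τ.symm.toRingEquiv.toRingHom
      commutes' := by
        intro x
        show G (ι (τ.symm (algebraMap F (Sep F) x))) = _
        have h1 : τ.symm (algebraMap F (Sep F) x) = algebraMap F (Sep F) (e.symm x) := by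
          rw [AlgEquiv.symm_apply_eq, hτ, RingEquiv.apply_symm_apply]
        rw [h1, ι.commutes, hGF, RingEquiv.apply_symm_apply] }
  have hι₁ : ∀ x, ι₁ (τ x) = G (ι x) := by
    intro x
    show G (ι (τ.symm (τ x))) = _
    rw [AlgEquiv.symm_apply_apply]
  refine ⟨ι₁, act W GK.toAlgHom P, fun τ₁ σ hσ => ?_⟩
  -- the conjugates
  let τ₂ : Sep L' ≃ₐ[L'] Sep L' :=
    AlgEquiv.ofRingEquiv (f := (G.trans τ₁.toRingEquiv).trans G.symm) (by
      intro x
      show G.symm (τ₁ (G (algebraMap L' (Sep L') x))) = _
      rw [hG, τ₁.commutes, ← hG, RingEquiv.symm_apply_apply])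
  have hτ₂ : ∀ x, G (τ₂ x) = τ₁ (G x) := fun x => G.apply_symm_apply _
  let σ₂ : Sep F ≃ₐ[F] Sep F :=
    AlgEquiv.ofRingEquiv (f := (τ.toRingEquiv.trans σ.toRingEquiv).trans τ.symm.toRingEquiv) (by
      intro x
      show τ.symm (σ (τ (algebraMap F (Sep F) x))) = _
      rw [hτ, σ.commutes, AlgEquiv.symm_apply_eq, hτ])
  have hσ₂ : ∀ x, τ (σ₂ x) = σ (τ x) := fun x => τ.apply_symm_apply _
  have h1 : ∀ x, τ₂ (ι x) = ι (σ₂ x) := by
    intro x
    apply G.injective
    rw [hτ₂, ← hι₁, hσ, ← hσ₂, hι₁]
  have h2 := hP τ₂ σ₂ h1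
  have h3 := congrArg (act W GK.toAlgHom) h2
  rw [map_sub, act_act, act_act] at h3
  rw [hf σ σ₂ hσ₂, act_act, act_act]
  have e1 : (ι₁.restrictScalars K).comp (ak τ) = GK.toAlgHom.comp (ι.restrictScalars K) :=
    AlgHom.ext fun x => hι₁ x
  have e2 : (rs K τ₁).comp GK.toAlgHom = GK.toAlgHom.comp (rs K τ₂) :=
    AlgHom.ext fun x => (hτ₂ x).symm
  rw [e1, e2]
  exact h3

end loc

end Pool.Agent.K9h16.PT
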