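import Pool.Agent.K9h16.PT.Iso
import Pool.Agent.TH115.SD.Inf

/-!
The conjugates of everywhere locally trivial cochains are everywhere locally trivial.
-/

set_option autoImplicit false
set_option linter.all false

open Polynomial IsDedekindDomain WeierstrassCurve WeierstrassCurve.Affine
open scoped Classical

namespace Pool.Agent.K9h16.PT

open Pool.Agent.TH115.GD

section val

variable {R F : Type} [CommRing R] [IsDedekindDomain R] [Field F] [Algebra R F]
  [IsFractionRing R F]

/-- The conjugate place. -/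
noncomputable def cmp (e0 : R ≃+* R) (v : HeightOneSpectrum R) : HeightOneSpectrum R where
  asIdeal := v.asIdeal.comap (e0 : R →+* R)
  isPrime := inferInstance
  ne_bot := by
    intro h
    apply v.ne_bot
    rw [eq_bot_iff]
    intro x hx
    have h1 : e0.symm x ∈ v.asIdeal.comap (e0 : R →+* R) := by
      rw [Ideal.mem_comap]
      show e0 (e0.symm x) ∈ _
      rwa [RingEquiv.apply_symm_apply]
    rw [h, Ideal.mem_bot] at h1
    rw [Ideal.mem_bot]
    exact e0.symm.injective (by rw [h1, map_zero])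

theorem cmp_int (e0 : R ≃+* R) (v : HeightOneSpectrum R) (r : R) :
    v.intValuation (e0 r) = (cmp e0 v).intValuation r := by
  by_cases hr : r = 0
  · rw [hr, map_zero, map_zero, map_zero]
  have hr' : e0 r ≠ 0 := fun h => hr (e0.injective (by rw [h, map_zero]))
  have hpow : ∀ n : ℕ, e0 r ∈ v.asIdeal ^ n ↔ r ∈ (cmp e0 v).asIdeal ^ n := by
    intro n
    have h1 : (cmp e0 v).asIdeal ^ n = (v.asIdeal ^ n).comap (e0 : R →+* R) := by
      show (v.asIdeal.comap (e0 : R →+* R)) ^ n = _
      have h2 : ∀ I : Ideal R, I.comap (e0 : R →+* R) = I.map (e0.symm : R →+* R) := fun I => by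
        exact (Ideal.map_symm e0).symm
      rw [h2, h2, Ideal.map_pow]
    rw [h1, Ideal.mem_comap]
    rfl
  have key : ∀ n : ℕ, v.intValuation (e0 r) ≤ WithZero.exp (-(n : ℤ)) ↔
      (cmp e0 v).intValuation r ≤ WithZero.exp (-(n : ℤ)) := by
    intro n
    rw [HeightOneSpectrum.intValuation_le_pow_iff_mem,
      HeightOneSpectrum.intValuation_le_pow_iff_mem, hpow]
  obtain ⟨m, hm⟩ : ∃ m : ℕ, v.intValuation (e0 r) = WithZero.exp (-(m : ℤ)) :=
    ⟨_, v.intValuation_if_neg hr'⟩
  obtain ⟨m', hm'⟩ : ∃ m : ℕ, (cmp e0 v).intValuation r = WithZero.exp (-(m : ℤ)) :=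
    ⟨_, (cmp e0 v).intValuation_if_neg hr⟩
  rw [hm, hm'] at key
  rw [hm, hm']
  have h1 := (key m).1 le_rfl
  have h2 := (key m').2 le_rfl
  rw [WithZero.exp_le_exp] at h1 h2
  have : m = m' := by omega
  rw [this]

theorem cmp_val (e0 : R ≃+* R) (e : F ≃+* F) (he : ∀ r, e (algebraMap R F r) =
    algebraMap R F (e0 r)) (v : HeightOneSpectrum R) (x : F) :
    v.valuation F (e x) = (cmp e0 v).valuation F x := by
  obtain ⟨n, d, hd, rfl⟩ := IsFractionRing.div_surjective (A := R) x
  rw [map_div₀, map_div₀, map_div₀, he, he, v.valuation_of_algebraMap, v.valuation_of_algebraMap,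
    (cmp e0 v).valuation_of_algebraMap, (cmp e0 v).valuation_of_algebraMap, cmp_int, cmp_int]

end val

section lt

variable {k k' K F : Type} [Field k] [Field k'] [Algebra k k'] [Field K] [Algebra k[X] K]
    [Field F] [Algebra k'[X] F] [IsFractionRing k'[X] F] [Algebra K F]
    (hT : IsTower k k' K F) {W : WeierstrassCurve K}

include hT in
/-- The conjugate of an everywhere locally trivial cochain. -/
theorem lt_conj (τ : Sep F ≃ₐ[K] Sep F) {f f' : (Sep F ≃ₐ[F] Sep F) → Pt W (Sep F)}
    (hf : ∀ σ σ' : Sep F ≃ₐ[F] Sep F, (∀ x, τ (σ' x) = σ (τ x)) →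
      f' σ = act W (ak τ) (f σ'))
    (h : LocallyTrivial k' W f) : LocallyTrivial k' W f' := by
  haveI := hT.sep
  haveI := hT.fracK
  obtain ⟨s, hs⟩ := restr hT.map τ
  have hτ : ∀ x : F, τ (algebraMap F (Sep F) x) = algebraMap F (Sep F) (es F (s : k' ≃+* k') x) := by
    intro x
    obtain ⟨n, d, hd, rfl⟩ := IsFractionRing.div_surjective (A := k'[X]) x
    rw [map_div₀, map_div₀, hs, hs, map_div₀, es_poly, es_poly, map_div₀]
    rfl
  have heK : ∀ x : K, es F (s : k' ≃+* k') (algebraMap K F x) = algebraMap K F x := es_K hT s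
  refine ⟨fun v => ?_, ?_⟩
  · obtain ⟨γ, hγ⟩ := comp_iso v (cmp (Polynomial.mapEquiv (s : k' ≃+* k')) v)
      (es F (s : k' ≃+* k')) (cmp_val _ _ (fun r => es_poly _ _) v)
    exact locTriv_conj W heK γ hγ τ hτ hf (h.1 _)
  · obtain ⟨γ, hγ, -⟩ := comp_aut (F := AtInf F) (pl (0 : k')) (es (AtInf F) (s : k' ≃+* k'))
      (es_val 0 (s : k' ≃+* k') (map_zero _))
    have hγ' : ∀ x : F, γ (algebraMap F (CompInf k' F) x) =
        algebraMap F (CompInf k' F) (es F (s : k' ≃+* k') x) := by
      intro x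
      rw [← es_inf]
      exact hγ x
    exact locTriv_conj (L := CompInf k' F) (L' := CompInf k' F) W heK γ hγ' τ hτ hf h.2

end lt

end Pool.Agent.K9h16.PT
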