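import Pool.Agent.K9h16.PT.Pot

/-!
The number of pairs of split polynomials with a nonsquare minor.
-/

set_option autoImplicit false
set_option linter.all false

open Polynomial
open scoped Classical

namespace Pool.Agent.K9h16.PT

open Pool.Agent.X243.Gen Pool.Agent.X243.Tate Pool.Agent.X243.Sol Pool.Agent.Y160.T3

section count

variable {F : Type} [Field F] [Fintype F]

/-- The points with a nonsquare value. -/
noncomputable def G1 (c₁ c₂ : F) : Finset F :=
  Finset.univ.filter (fun η : F => ¬ IsSquare ((c₁ - η) * (c₂ - η)))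

/-- The points with a nonzero square value. -/
noncomputable def G0 (c₁ c₂ : F) : Finset F :=
  Finset.univ.filter (fun η : F => (c₁ - η) * (c₂ - η) ≠ 0 ∧ IsSquare ((c₁ - η) * (c₂ - η)))

theorem GG_card (h2 : (2 : F) ≠ 0) {c₁ c₂ : F} (hc : c₁ ≠ c₂) (hq : 2 ≤ Fintype.card F) :
    Fintype.card F ≤ 4 * (G1 c₁ c₂).card ∧ Fintype.card F ≤ 4 * ((G0 c₁ c₂).card + 1) := by
  obtain ⟨k1, k2⟩ := card_sq h2 hq
  have hcc : c₂ - c₁ ≠ 0 := sub_ne_zero.2 hc.symm
  let φ : F → F := fun z => (c₁ - z * c₂) / (1 - z)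
  have e1 : ∀ z : F, z ≠ 1 → c₁ - φ z = z * ((c₂ - c₁) / (1 - z)) := by
    intro z hz
    have : 1 - z ≠ 0 := sub_ne_zero.2 hz.symm
    show c₁ - (c₁ - z * c₂) / (1 - z) = _
    field_simp
    ring
  have e2 : ∀ z : F, z ≠ 1 → c₂ - φ z = (c₂ - c₁) / (1 - z) := by
    intro z hz
    have : 1 - z ≠ 0 := sub_ne_zero.2 hz.symm
    show c₂ - (c₁ - z * c₂) / (1 - z) = _
    field_simp
    ring
  have e3 : ∀ z : F, z ≠ 1 → (c₁ - φ z) * (c₂ - φ z) = z * ((c₂ - c₁) / (1 - z)) ^ 2 := by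
    intro z hz
    rw [e1 z hz, e2 z hz]
    ring
  have hu : ∀ z : F, z ≠ 1 → (c₂ - c₁) / (1 - z) ≠ 0 := fun z hz =>
    div_ne_zero hcc (sub_ne_zero.2 hz.symm)
  have hinj : ∀ z z' : F, z ≠ 1 → z' ≠ 1 → φ z = φ z' → z = z' := by
    intro z z' hz hz' h
    have h1 := e1 z hz
    have h3 := e1 z' hz'
    have h4 := e2 z hz
    have h5 := e2 z' hz'
    rw [← h] at h3 h5
    rw [← h5] at h3
    rw [← h4, h3] at h1
    have h6 : c₂ - φ z ≠ 0 := by
      rw [h4]
      exact hu z hz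
    exact (mul_right_cancel₀ h6 h1).symm
  have hsq : ∀ z : F, z ≠ 1 → (IsSquare ((c₁ - φ z) * (c₂ - φ z)) ↔ IsSquare z) := by
    intro z hz
    rw [e3 z hz]
    constructor
    · rintro ⟨y, hy⟩
      refine ⟨y / ((c₂ - c₁) / (1 - z)), ?_⟩
      have := hu z hz
      rw [div_mul_div_comm, ← hy, ← sq]
      exact (mul_div_cancel_right₀ _ (pow_ne_zero 2 this)).symm
    · rintro ⟨y, hy⟩
      exact ⟨y * ((c₂ - c₁) / (1 - z)), by rw [hy]; ring⟩
  constructor
  · refine k2.trans (Nat.mul_le_mul_left _ ?_)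
    refine Finset.card_le_card_of_injOn φ ?_ ?_
    · intro z hz
      have hz' := (Finset.mem_filter.1 (Finset.mem_coe.1 hz)).2
      have h1 : z ≠ 1 := by
        rintro rfl
        exact hz' ⟨1, by ring⟩
      refine Finset.mem_coe.2 (Finset.mem_filter.2 ⟨Finset.mem_univ _, ?_⟩)
      rw [hsq z h1]
      exact hz'
    · intro z hz z' hz' h
      have h1 := (Finset.mem_filter.1 (Finset.mem_coe.1 hz)).2
      have h3 := (Finset.mem_filter.1 (Finset.mem_coe.1 hz')).2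
      refine hinj z z' ?_ ?_ h
      · rintro rfl
        exact h1 ⟨1, by ring⟩
      · rintro rfl
        exact h3 ⟨1, by ring⟩
  · refine k1.trans (Nat.mul_le_mul_left _ ?_)
    have h1 : ((Finset.univ.filter (fun x : F => x ≠ 0 ∧ IsSquare x)).erase 1).card ≤
        (G0 c₁ c₂).card := by
      refine Finset.card_le_card_of_injOn φ ?_ ?_
      · intro z hz
        have hz1 := Finset.mem_erase.1 (Finset.mem_coe.1 hz)
        have hz' := (Finset.mem_filter.1 hz1.2).2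
        refine Finset.mem_coe.2 (Finset.mem_filter.2 ⟨Finset.mem_univ _, ?_, ?_⟩)
        · rw [e3 z hz1.1]
          exact mul_ne_zero hz'.1 (pow_ne_zero 2 (hu z hz1.1))
        · rw [hsq z hz1.1]
          exact hz'.2
      · intro z hz z' hz' h
        exact hinj z z' (Finset.mem_erase.1 (Finset.mem_coe.1 hz)).1
          (Finset.mem_erase.1 (Finset.mem_coe.1 hz')).1 h
    have h3 := Finset.pred_card_le_card_erase (s := Finset.univ.filter
      (fun x : F => x ≠ 0 ∧ IsSquare x)) (a := (1 : F))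
    omega

/-- The constant. -/
def KM (N : ℕ) : ℕ := 8 * (16 ^ (N - 1) * (N - 1).factorial)

theorem KM_pos (N : ℕ) : 0 < KM N := by
  have := Nat.factorial_pos (N - 1)
  unfold KM
  positivity

theorem MM_fix (h2 : (2 : F) ≠ 0) {N : ℕ} (hN : 2 ≤ N) (hq : 16 * N + 16 ≤ Fintype.card F)
    {x : Fin (N + 1) → F} (hx : x ∈ E4 F N) :
    Fintype.card F ^ (N + 1) ≤ KM N * ({y : Fin (N + 1) → F | MM N (bF x) (bF y)}).ncard := by
  obtain ⟨d, S, hd, hS, hx⟩ := hx
  obtain ⟨c₁, hc₁, c₂, hc₂, hne⟩ := Finset.one_lt_card.1 (show 1 < S.card by omega)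
  obtain ⟨k1, k2⟩ := GG_card h2 hne (by omega)
  have hdis : ∀ η, η ∈ G1 c₁ c₂ → η ∉ G0 c₁ c₂ := by
    intro η h h'
    exact (Finset.mem_filter.1 h).2 (Finset.mem_filter.1 h').2.2
  let Φ : Fˣ × {η : F // η ∈ G1 c₁ c₂} × {T : Finset F // T ∈ Finset.powersetCard (N - 1)
      (G0 c₁ c₂)} → (Fin (N + 1) → F) :=
    fun x j => (C (x.1 : F) * ∏ c ∈ insert x.2.1.1 x.2.2.1, (X - C c)).coeff j
  have hTc : ∀ T : {T : Finset F // T ∈ Finset.powersetCard (N - 1) (G0 c₁ c₂)},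
      T.1.card = N - 1 := fun T => (Finset.mem_powersetCard.1 T.2).2
  have hTs : ∀ T : {T : Finset F // T ∈ Finset.powersetCard (N - 1) (G0 c₁ c₂)},
      T.1 ⊆ G0 c₁ c₂ := fun T => (Finset.mem_powersetCard.1 T.2).1
  have hnot : ∀ (η : {η : F // η ∈ G1 c₁ c₂})
      (T : {T : Finset F // T ∈ Finset.powersetCard (N - 1) (G0 c₁ c₂)}), η.1 ∉ T.1 :=
    fun η T h => hdis _ η.2 (hTs T h)
  have hcard : ∀ x : Fˣ × {η : F // η ∈ G1 c₁ c₂} × {T : Finset F // T ∈
      Finset.powersetCard (N - 1) (G0 c₁ c₂)}, (insert x.2.1.1 x.2.2.1).card = N := by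
    intro x
    rw [Finset.card_insert_of_notMem (hnot _ _), hTc]
    omega
  have hmon : ∀ S : Finset F, (∏ c ∈ S, (X - C c) : F[X]).Monic :=
    fun S => monic_prod_X_sub_C (fun c => c) S
  have hb : ∀ x, bF (Φ x) = C (x.1 : F) * ∏ c ∈ insert x.2.1.1 x.2.2.1, (X - C c) := by
    intro x
    apply bF_coeffs
    rw [natDegree_C_mul x.1.ne_zero, natDegree_finset_prod_X_sub_C_eq_card, hcard]
  have hinj : Function.Injective Φ := by
    rintro ⟨u, η, T⟩ ⟨u', η', T'⟩ h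
    have h1 := hb (u, η, T)
    rw [h, hb (u', η', T')] at h1
    obtain ⟨h3, h4⟩ := smul_inj (hmon _) (hmon _) h1
    simp only at h3 h4
    have h5 : insert η'.1 T'.1 = insert η.1 T.1 := by
      have h6 := congrArg roots h4
      rw [roots_prod_X_sub_C, roots_prod_X_sub_C] at h6
      exact Finset.val_injective h6
    have h6 : η = η' := by
      apply Subtype.ext
      have h7 : η.1 ∈ insert η'.1 T'.1 := by
        rw [h5]
        exact Finset.mem_insert_self _ _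
      rcases Finset.mem_insert.1 h7 with h8 | h8
      · exact h8
      · exact absurd h8 (hnot η T')
    subst h6
    have h7 : T = T' := by
      apply Subtype.ext
      rw [← Finset.erase_insert (hnot η T), ← h5, Finset.erase_insert (hnot η T')]
    rw [h7, h3.symm]
  have hmem : ∀ x', Φ x' ∈ {y : Fin (N + 1) → F | MM N (bF x) (bF y)} := by
    intro x'
    obtain ⟨t, ht⟩ : x'.2.2.1.Nonempty := by
      rw [← Finset.card_pos, hTc]
      omega
    refine ⟨d, x'.1, S, insert x'.2.1.1 x'.2.2.1, c₁, c₂, x'.2.1.1, t, hd, x'.1.ne_zero, hS,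
      hcard x', hx, hb x', hc₁, hc₂, Finset.mem_insert_self _ _,
      Finset.mem_insert_of_mem ht, ?_⟩
    have h1 := (Finset.mem_filter.1 x'.2.1.2).2
    obtain ⟨h3, h4⟩ := (Finset.mem_filter.1 (hTs _ ht)).2
    rintro ⟨y, hy⟩
    obtain ⟨z, hz⟩ := h4
    have hz0 : z ≠ 0 := by
      rintro rfl
      rw [mul_zero] at hz
      exact h3 hz
    apply h1
    refine ⟨y / z, ?_⟩
    rw [div_mul_div_comm, ← hy, ← hz]
    exact (mul_div_cancel_right₀ _ h3).symm
  have h1 := ncard_ge Φ hinj _ hmem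
  rw [Fintype.card_prod, Fintype.card_prod, Fintype.card_coe, Fintype.card_coe,
    Finset.card_powersetCard] at h1
  have h3 := two_le_units (F := F) (by omega)
  have h4 : Fintype.card F ≤ 8 * (G0 c₁ c₂).card := by omega
  have h5 := choose_ge (q := (G0 c₁ c₂).card) (r := N - 1) (by omega)
  have h6 : Fintype.card F ^ (N - 1) ≤ 16 ^ (N - 1) * (N - 1).factorial *
      ((G0 c₁ c₂).card).choose (N - 1) := by
    calc Fintype.card F ^ (N - 1) ≤ (8 * (G0 c₁ c₂).card) ^ (N - 1) := Nat.pow_le_pow_left h4 _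
      _ = 8 ^ (N - 1) * (G0 c₁ c₂).card ^ (N - 1) := mul_pow _ _ _
      _ ≤ 8 ^ (N - 1) * (2 ^ (N - 1) * (N - 1).factorial * ((G0 c₁ c₂).card).choose (N - 1)) :=
          Nat.mul_le_mul_left _ h5
      _ = _ := by
          rw [show (16 : ℕ) = 8 * 2 by norm_num, mul_pow]
          ring
  calc Fintype.card F ^ (N + 1) = Fintype.card F * (Fintype.card F * Fintype.card F ^ (N - 1)) := by
        obtain ⟨M, rfl⟩ : ∃ M, N = M + 1 := ⟨N - 1, by omega⟩
        rw [Nat.add_sub_cancel]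
        ring
    _ ≤ (2 * Fintype.card Fˣ) * ((4 * (G1 c₁ c₂).card) * (16 ^ (N - 1) * (N - 1).factorial *
      ((G0 c₁ c₂).card).choose (N - 1))) := Nat.mul_le_mul h3 (Nat.mul_le_mul k1 h6)
    _ = KM N * (Fintype.card Fˣ * ((G1 c₁ c₂).card * ((G0 c₁ c₂).card).choose (N - 1))) := by
        unfold KM
        ring
    _ ≤ _ := Nat.mul_le_mul_left _ h1

theorem MM_card (h2 : (2 : F) ≠ 0) {N : ℕ} (hN : 2 ≤ N) (hq : 16 * N + 16 ≤ Fintype.card F) :
    Fintype.card F ^ (2 * N + 2) ≤ (KM N * D4 N) *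
      ({x : (Fin (N + 1) → F) × (Fin (N + 1) → F) | MM N (bF x.1) (bF x.2)}).ncard := by
  obtain ⟨Q, hQ⟩ : ∃ Q, Q = Fintype.card F ^ (N + 1) := ⟨_, rfl⟩
  have h1 := E4_card (F := F) hN (by omega)
  rw [← hQ] at h1
  have hK := KM_pos N
  let T : (Fin (N + 1) → F) → Set (Fin (N + 1) → F) := fun x => {y | MM N (bF x) (bF y)}
  have hT : ∀ x ∈ E4 F N, Q ≤ KM N * (T x).ncard := by
    intro x hx
    rw [hQ]
    exact MM_fix h2 hN hq hx
  obtain ⟨m, hm⟩ : ∃ m, m = (Q + (KM N - 1)) / KM N := ⟨_, rfl⟩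
  have h5 : Q ≤ KM N * m := by
    have h6 := Nat.div_add_mod (Q + (KM N - 1)) (KM N)
    have h7 := Nat.mod_lt (Q + (KM N - 1)) hK
    rw [← hm] at h6
    omega
  have h3 := ncard_sigma (E4 F N) T (m := m) (fun x hx => by
    have h6 := hT x hx
    rw [hm]
    apply Nat.le_of_lt_succ
    rw [Nat.div_lt_iff_lt_mul hK, Nat.succ_mul, mul_comm]
    omega)
  have h4 : ({x : (Fin (N + 1) → F) × (Fin (N + 1) → F) | x.1 ∈ E4 F N ∧ x.2 ∈ T x.1}).ncard ≤
      ({x : (Fin (N + 1) → F) × (Fin (N + 1) → F) | MM N (bF x.1) (bF x.2)}).ncard :=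
    Set.ncard_le_ncard (fun x hx => hx.2) (Set.toFinite _)
  calc Fintype.card F ^ (2 * N + 2) = Q * Q := by
        rw [hQ]
        ring
    _ ≤ (D4 N * (E4 F N).ncard) * (KM N * m) := Nat.mul_le_mul h1 h5
    _ = KM N * D4 N * ((E4 F N).ncard * m) := by ring
    _ ≤ _ := Nat.mul_le_mul_left _ (h3.trans h4)

end count

end Pool.Agent.K9h16.PT
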