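import Mathlib

/-!
Norms over groups of double transpositions.
-/

set_option autoImplicit false
set_option linter.all false

open scoped Classical

namespace Pool.Agent.K9h16.PT

section nrm

variable {I A B : Type*} [AddCommGroup A] [AddCommGroup B]

/-- The double transposition. -/
noncomputable def dt (x y z w : I) : Equiv.Perm I := Equiv.swap x y * Equiv.swap z w

theorem dt_1 {x y z w : I} (h1 : x ≠ z) (h2 : x ≠ w) : dt x y z w x = y := by
  rw [dt, Equiv.Perm.mul_apply, Equiv.swap_apply_of_ne_of_ne h1 h2, Equiv.swap_apply_left]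

theorem dt_2 {x y z w : I} (h1 : y ≠ z) (h2 : y ≠ w) : dt x y z w y = x := by
  rw [dt, Equiv.Perm.mul_apply, Equiv.swap_apply_of_ne_of_ne h1 h2, Equiv.swap_apply_right]

theorem dt_3 {x y z w : I} (h1 : x ≠ w) (h2 : y ≠ w) : dt x y z w z = w := by
  rw [dt, Equiv.Perm.mul_apply, Equiv.swap_apply_left, Equiv.swap_apply_of_ne_of_ne h1.symm h2.symm]

theorem dt_4 {x y z w : I} (h1 : x ≠ z) (h2 : y ≠ z) : dt x y z w w = z := by
  rw [dt, Equiv.Perm.mul_apply, Equiv.swap_apply_right, Equiv.swap_apply_of_ne_of_ne h1.symm h2.symm]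

theorem dt_5 {x y z w t : I} (h1 : t ≠ x) (h2 : t ≠ y) (h3 : t ≠ z) (h4 : t ≠ w) :
    dt x y z w t = t := by
  rw [dt, Equiv.Perm.mul_apply, Equiv.swap_apply_of_ne_of_ne h3 h4,
    Equiv.swap_apply_of_ne_of_ne h1 h2]

variable (hA : ∀ x : A, x + x = 0) (hB : ∀ x : B, x + x = 0) (S : AddSubgroup ((I → A) × B))
  (hS : ∀ x y z w : I, x ≠ y → x ≠ z → x ≠ w → y ≠ z → y ≠ w → z ≠ w → ∀ (φ : I → A) (b : B),
    (φ, b) ∈ S → (φ ∘ dt x y z w, b) ∈ S)

include hA hB hS in
theorem nrm_one {φ : I → A} {b : B} (h : (φ, b) ∈ S) {x y z w : I} (h1 : x ≠ y) (h2 : x ≠ z)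
    (h3 : x ≠ w) (h4 : y ≠ z) (h5 : y ≠ w) (h6 : z ≠ w) :
    ((fun i => if i = x ∨ i = y ∨ i = z ∨ i = w then φ x + φ y + φ z + φ w else 0), (0 : B)) ∈ S := by
  have k1 := S.add_mem h (hS x y z w h1 h2 h3 h4 h5 h6 φ b h)
  rw [Prod.mk_add_mk, hB] at k1
  have k2 := S.add_mem k1 (hS x z y w h2 h1 h3 h4.symm h6 h5 _ _ k1)
  rw [Prod.mk_add_mk, hB] at k2
  convert k2 using 2
  funext i
  simp only [Pi.add_apply, Function.comp]
  by_cases hx : i = x
  · subst hx
    rw [if_pos (Or.inl rfl), dt_1 h2 h3, dt_1 h1 h3, dt_3 h3 h5]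
    abel
  by_cases hy : i = y
  · subst hy
    rw [if_pos (Or.inr (Or.inl rfl)), dt_2 h4 h5, dt_3 h3 h6, dt_4 h2 h4]
    abel
  by_cases hz : i = z
  · subst hz
    rw [if_pos (Or.inr (Or.inr (Or.inl rfl))), dt_3 h3 h5, dt_2 h4.symm h6, dt_1 h2 h3]
    abel
  by_cases hw : i = w
  · subst hw
    rw [if_pos (Or.inr (Or.inr (Or.inr rfl))), dt_4 h2 h4, dt_4 h1 h4.symm, dt_2 h4 h5]
    abel
  · rw [if_neg (by push Not; exact ⟨hx, hy, hz, hw⟩), dt_5 hx hy hz hw, dt_5 hx hz hy hw,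
      dt_5 hx hy hz hw, hA]

include hA hB hS in
theorem nrm_two {φ : I → A} {b : B} (h : (φ, b) ∈ S) {x y z w v : I} (h1 : x ≠ y) (h2 : x ≠ z)
    (h3 : x ≠ w) (h4 : y ≠ z) (h5 : y ≠ w) (h6 : z ≠ w) (hx : x ≠ v) (hy : y ≠ v) (hz : z ≠ v)
    (hw : w ≠ v) :
    (Pi.single x (φ x + φ y + φ z + φ w) + Pi.single v (φ x + φ y + φ z + φ w), (0 : B)) ∈ S := by
  have k1 := nrm_one hA hB S hS h h1 h2 h3 h4 h5 h6
  have k2 := S.add_mem k1 (hS x v y z hx h1 h2 hy.symm hz.symm h4 _ _ k1)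
  rw [Prod.mk_add_mk, hB] at k2
  convert k2 using 2
  generalize φ x + φ y + φ z + φ w = s
  funext i
  simp only [Pi.add_apply, Function.comp, Pi.single_apply]
  by_cases hx' : i = x
  · subst hx'
    rw [dt_1 h1 h2, if_pos rfl, if_neg hx, if_pos (Or.inl rfl), if_neg (by
      push Not
      exact ⟨hx.symm, hy.symm, hz.symm, hw.symm⟩)]
  by_cases hv' : i = v
  · subst hv'
    rw [dt_2 hy.symm hz.symm, if_neg hx', if_pos rfl, if_neg (by
      push Not
      exact ⟨hx', hy.symm, hz.symm, hw.symm⟩), if_pos (Or.inl rfl)]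
  rw [if_neg hx', if_neg hv', add_zero]
  by_cases hy' : i = y
  · subst hy'
    rw [dt_3 h2 hz.symm, if_pos (Or.inr (Or.inl rfl)), if_pos (Or.inr (Or.inr (Or.inl rfl))), hA]
  by_cases hz' : i = z
  · subst hz'
    rw [dt_4 h1 hy.symm, if_pos (Or.inr (Or.inr (Or.inl rfl))), if_pos (Or.inr (Or.inl rfl)), hA]
  rw [dt_5 hx' hv' hy' hz', hA]

/-- Generated by `single u s + single v s`. -/
def Rl (S : AddSubgroup ((I → A) × B)) (s : A) (u v : I) : Prop :=
  ((Pi.single u s + Pi.single v s : I → A), (0 : B)) ∈ S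

include hA in
theorem Rl.refl (s : A) (u : I) : Rl S s u u := by
  show ((Pi.single u s + Pi.single u s : I → A), (0 : B)) ∈ S
  have : (Pi.single u s + Pi.single u s : I → A) = 0 := by
    funext i
    simp only [Pi.add_apply, Pi.zero_apply]
    exact hA _
  rw [this]
  exact S.zero_mem

theorem Rl.symm {s : A} {u v : I} (h : Rl S s u v) : Rl S s v u := by
  show ((Pi.single v s + Pi.single u s : I → A), (0 : B)) ∈ S
  rw [add_comm]
  exact h

include hA in
theorem Rl.trans {s : A} {u v w : I} (h : Rl S s u v) (h' : Rl S s v w) : Rl S s u w := by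
  have h1 := S.add_mem h h'
  rw [Prod.mk_add_mk, add_zero] at h1
  have : (Pi.single u s + Pi.single v s + (Pi.single v s + Pi.single w s) : I → A) =
      Pi.single u s + Pi.single w s := by
    funext i
    simp only [Pi.add_apply]
    rw [add_assoc, ← add_assoc (Pi.single (M := fun _ => A) v s i), hA, zero_add]
  rw [this] at h1
  exact h1

theorem Rl.add {s s' : A} {u v : I} (h : Rl S s u v) (h' : Rl S s' u v) : Rl S (s + s') u v := by
  have h1 := S.add_mem h h'
  rw [Prod.mk_add_mk, add_zero] at h1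
  show ((Pi.single u (s + s') + Pi.single v (s + s') : I → A), (0 : B)) ∈ S
  rw [Pi.single_add, Pi.single_add]
  convert h1 using 2
  abel

theorem exists_ne_four [Finite I] (h5 : 5 ≤ Nat.card I) (x y z w : I) :
    ∃ v, x ≠ v ∧ y ≠ v ∧ z ≠ v ∧ w ≠ v := by
  haveI := Fintype.ofFinite I
  by_contra hall
  push Not at hall
  have h4 : (Finset.univ : Finset I) ⊆ {x, y, z, w} := by
    intro t _
    simp only [Finset.mem_insert, Finset.mem_singleton]
    by_cases hx : x = t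
    · exact Or.inl hx.symm
    by_cases hy : y = t
    · exact Or.inr (Or.inl hy.symm)
    by_cases hz : z = t
    · exact Or.inr (Or.inr (Or.inl hz.symm))
    · exact Or.inr (Or.inr (Or.inr (hall t hx hy hz).symm))
  have h6 := Finset.card_le_card h4
  have h7 := Finset.card_le_four (a := x) (b := y) (c := z) (d := w)
  rw [Finset.card_univ, ← Nat.card_eq_fintype_card] at h6
  omega

include hA hB hS in
theorem nrm_three [Finite I] (h5' : 5 ≤ Nat.card I) {φ : I → A} {b : B} (h : (φ, b) ∈ S)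
    {x y z w : I} (h1 : x ≠ y) (h2 : x ≠ z)
    (h3 : x ≠ w) (h4 : y ≠ z) (h5 : y ≠ w) (h6 : z ≠ w) (u v : I) :
    Rl S (φ x + φ y + φ z + φ w) u v := by
  obtain ⟨t, ht1, ht2, ht3, ht4⟩ := exists_ne_four h5' x y z w
  -- `x`, `y`, `z`, `w` are equivalent to each element outside
  have key : ∀ r, x ≠ r → y ≠ r → z ≠ r → w ≠ r →
      Rl S (φ x + φ y + φ z + φ w) x r ∧ Rl S (φ x + φ y + φ z + φ w) y r ∧
      Rl S (φ x + φ y + φ z + φ w) z r ∧ Rl S (φ x + φ y + φ z + φ w) w r := by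
    intro r r1 r2 r3 r4
    refine ⟨nrm_two hA hB S hS h h1 h2 h3 h4 h5 h6 r1 r2 r3 r4, ?_, ?_, ?_⟩
    · have k := nrm_two hA hB S hS h h1.symm h4 h5 h2 h3 h6 r2 r1 r3 r4
      have e : φ y + φ x + φ z + φ w = φ x + φ y + φ z + φ w := by abel
      rw [e] at k
      exact k
    · have k := nrm_two hA hB S hS h h2.symm h4.symm h6 h1 h3 h5 r3 r1 r2 r4
      have e : φ z + φ x + φ y + φ w = φ x + φ y + φ z + φ w := by abel
      rw [e] at k
      exact k
    · have k := nrm_two hA hB S hS h h3.symm h5.symm h6.symm h1 h2 h4 r4 r1 r2 r3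
      have e : φ w + φ x + φ y + φ z = φ x + φ y + φ z + φ w := by abel
      rw [e] at k
      exact k
  have all : ∀ r, Rl S (φ x + φ y + φ z + φ w) r t := by
    intro r
    have kt := key t ht1 ht2 ht3 ht4
    by_cases r1 : x = r
    · rw [← r1]; exact kt.1
    by_cases r2 : y = r
    · rw [← r2]; exact kt.2.1
    by_cases r3 : z = r
    · rw [← r3]; exact kt.2.2.1
    by_cases r4 : w = r
    · rw [← r4]; exact kt.2.2.2
    exact Rl.trans hA S (Rl.symm S (key r r1 r2 r3 r4).1) kt.1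
  exact Rl.trans hA S (all u) (Rl.symm S (all v))

include hA hB hS in
/-- **The norm.** -/
theorem nrm [Finite I] (h5' : 5 ≤ Nat.card I) {φ : I → A} {b : B} (h : (φ, b) ∈ S) (p q u v : I) :
    Rl S (φ p + φ q) u v := by
  by_cases hpq : p = q
  · subst hpq
    rw [hA]
    show ((Pi.single u (0 : A) + Pi.single v (0 : A) : I → A), (0 : B)) ∈ S
    rw [Pi.single_zero, Pi.single_zero, add_zero]
    exact S.zero_mem
  obtain ⟨x, x1, x2, -, -⟩ := exists_ne_four h5' p q q q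
  obtain ⟨y, y1, y2, y3, -⟩ := exists_ne_four h5' p q x x
  obtain ⟨z, z1, z2, z3, z4⟩ := exists_ne_four h5' p q x y
  have k1 := nrm_three hA hB S hS h5' h (x := p) (y := x) (z := y) (w := z) x1 y1 z1 y3 z3 z4 u v
  have k2 := nrm_three hA hB S hS h5' h (x := q) (y := x) (z := y) (w := z) x2 y2 z2 y3 z3 z4 u v
  have k3 := Rl.add S k1 k2
  have e : φ p + φ x + φ y + φ z + (φ q + φ x + φ y + φ z) = φ p + φ q := by
    have e1 : φ p + φ x + φ y + φ z + (φ q + φ x + φ y + φ z) =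
        φ p + φ q + (φ x + φ x) + (φ y + φ y) + (φ z + φ z) := by abel
    rw [e1, hA, hA, hA, add_zero, add_zero, add_zero]
  rw [e] at k3
  exact k3

end nrm

end Pool.Agent.K9h16.PT
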