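import Pool.Agent.K9h16.PT.SB
import Pool.Agent.TH115.SD.Crit2

/-!
All the classes which are fixed by an open subgroup vanish, if there are only four triples for all the
twists by constants.
-/

set_option autoImplicit false
set_option linter.all false

open Polynomial IsDedekindDomain WeierstrassCurve WeierstrassCurve.Affine
open scoped Classical Pointwise

namespace Pool.Agent.K9h16.PT

open Pool.Agent.TH115.GD

theorem nul_of_gen {k' K F : Type} [Field k'] [Field K] [Field F] [Algebra K F] [Algebra k'[X] F]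
    [IsFractionRing k'[X] F] {W : WeierstrassCurve K} {c : Cc W F}
    (h : GeneratedBy (F := F) k' W 0) (hc : IsTateClass k' W c) : Nul W c := by
  obtain ⟨m, e, hm, -, h⟩ := h
  obtain rfl : m = 0 := by omega
  intro n
  obtain ⟨z, R, hR, h⟩ := h c hc n
  refine ⟨R, hR, fun σ => ?_⟩
  rw [h σ, Finset.univ_eq_empty, Finset.sum_empty, zero_add]

section one

variable {K K' F : Type} [Field K] [Field K'] [Field F] [Algebra K F] [Algebra K' F]
  {α β : K} {α' β' : K'} {ρ : F} (h : IsTr α β α' β' ρ)
  (E : Type) [Field E] [Algebra F E] [Algebra K E] [IsScalarTower K F E] [Algebra K' E]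
  [IsScalarTower K' F E]

theorem Phi_symm' (P : Pt (crv α β) E) : Phi h.symm E (Phi h E P) = P := by
  rcases P with _ | ⟨x, y, hn⟩
  · exact (map_zero (Phi h.symm E))
  · obtain ⟨hn1, e1⟩ := Phi_some h E hn
    rw [e1]
    obtain ⟨hn2, e2⟩ := Phi_some h.symm E hn1
    rw [e2]
    have hρ : algebraMap F E ρ ≠ 0 := (_root_.map_ne_zero _).2 h.ne
    apply some_congr
    · rw [map_inv₀]; field_simp
    · rw [map_inv₀]; field_simp

theorem nul_tr' {c : Cc (crv α β) F} (hc : Nul (crv α' β') (trC h c)) : Nul (crv α β) c := by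
  have h1 := nul_tr h.symm hc
  have h3 : trC h.symm (trC h c) = c := by
    funext n σ
    exact Phi_symm' h (Sep F) (c n σ)
  rwa [h3] at h1

end one

section tow

variable {k k' K F : Type} [Field k] [Field k'] [Algebra k k'] [Field K] [Algebra k[X] K]
    [Field F] [Algebra k'[X] F] [IsFractionRing k'[X] F] [Algebra K F]
    (hT : IsTower k k' K F)

include hT in
theorem exists_lift (s : k' ≃ₐ[k] k') : ∃ τ : Sep F ≃ₐ[K] Sep F, Lifts s τ := by
  haveI := hT.sep
  haveI := hT.fracK
  exact lift hT.map s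

include hT in
/-- **All the classes vanish.** -/
theorem one (h2 : (2 : k) ≠ 0) {a b : k[X]} (hab : SB a b)
    (hcard : ∀ δ : k, δ ≠ 0 → (Triples2 (C δ * a) (C δ * b)).encard ≤ 2 ^ (0 + 2))
    (M : IntermediateField k k') [FiniteDimensional k M] [Normal k M]
    {c : Cc (crv (algebraMap k[X] K a) (algebraMap k[X] K b)) F}
    (hc : PC k' (crv (algebraMap k[X] K a) (algebraMap k[X] K b)) (HM k' K F (M : Set k')) c) :
    Nul _ c := by
  haveI := hT.sep
  haveI := hT.fracK
  by_contra hn
  have hN : Preserves K F (Sep F) := preserves hT.map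
  have hF : NoFour (crv (algebraMap k[X] K a) (algebraMap k[X] K b)) F :=
    noFourF hT h2 hab.ha hab.hb hab.hab hab.co hab.hsep hab.hodd
  obtain ⟨c, χ, hc, hnd, hχ, hmul, hH⟩ := exists_eigen hT hN hF (HM_normal hT M)
    (HM_fin hT M) (fun c hc τ σ σ' hσ => hone hT h2 hab M hc τ hσ) ⟨c, hc, hn⟩
  -- the character
  choose lf hlf using exists_lift (K := K) (F := F) hT
  have hχ1 : ∀ (s : k' ≃ₐ[k] k') (τ : Sep F ≃ₐ[K] Sep F), Lifts s τ → χ τ = χ (lf s) := by
    intro s τ hτ
    have h1 : (lf s)⁻¹ * τ ∈ HM k' K F (M : Set k') := by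
      intro x _
      show (lf s)⁻¹ (τ _) = _
      rw [lifts_cst hτ, ← lifts_cst (hlf s)]
      exact (lf s).symm_apply_apply _
    have h3 := hH _ h1
    have h4 : τ = lf s * ((lf s)⁻¹ * τ) := by group
    rw [h4, hmul, h3, mul_one]
  have hψ : ∀ s s' : k' ≃ₐ[k] k', χ (lf (s * s')) = χ (lf s) * χ (lf s') := by
    intro s s'
    rw [← hmul]
    exact (hχ1 _ _ ((hlf s).mul (hlf s'))).symm
  haveI : Algebra.IsSeparable k k' := IsSepClosure.separable
  haveI : Algebra.IsSeparable k M := inferInstance
  obtain ⟨θ, hθ⟩ := Field.exists_primitive_element k M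
  obtain ⟨ρ, r, hρ0, hρ, hs⟩ := root_of_char h2 (ψ := fun s => χ (lf s)) hψ (θ := (θ : k'))
    (ω := 1) one_ne_zero (fun s hsθ => by
      have h1 : lf s ∈ HM k' K F (M : Set k') := by
        rw [lifts_mem_HM (hlf s)]
        intro x hx
        have h4 : (⟨x, hx⟩ : M) ∈ IntermediateField.adjoin k {θ} := by rw [hθ]; trivial
        let ρ' : M →ₐ[k] k' := (s : k' →ₐ[k] k').comp M.val
        have h5 : ∀ y ∈ IntermediateField.adjoin k {θ}, ρ' y = M.val y := by
          intro y hy
          induction hy using IntermediateField.adjoin_induction with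
          | mem y hy =>
            rw [Set.mem_singleton_iff] at hy
            rw [hy]
            exact hsθ
          | algebraMap r => rw [AlgHom.commutes, AlgHom.commutes]
          | add y z _ _ h1 h2 => rw [map_add, map_add, h1, h2]
          | inv y _ h1 => rw [map_inv₀, map_inv₀, h1]
          | mul y z _ _ h1 h2 => rw [map_mul, map_mul, h1, h2]
        exact h5 _ h4
      show s 1 = ((χ (lf s) : ℤ) : k') * 1
      rw [hH _ h1, map_one, Units.val_one, Int.cast_one, one_mul])
  have hr0 : r ≠ 0 := by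
    rintro rfl
    rw [map_zero] at hρ
    exact hρ0 (pow_eq_zero_iff two_ne_zero |>.1 hρ)
  -- the transport
  have htr : IsTr (F := F) (algebraMap k[X] K a) (algebraMap k[X] K b)
      (algebraMap k[X] K (C r * a)) (algebraMap k[X] K (C r * b)) (cst k' F ρ) := by
    have e : ∀ p : k[X], algebraMap K F (algebraMap k[X] K (C r * p)) =
        cst k' F ρ ^ 2 * algebraMap K F (algebraMap k[X] K p) := by
      intro p
      rw [map_mul, map_mul, hT.map (C r), map_C, ← hρ, C_pow, map_pow]
      rfl
    exact ⟨(_root_.map_ne_zero _).2 hρ0, e a, e b⟩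
  have htate := eig_tr htr hN hF hc (fun τ => (PC.TA hT hN (HM_normal hT M) hc τ).tc) hχ
    (fun τ => by
      refine ⟨τ, fun x => rfl, ?_⟩
      obtain ⟨s, hsτ⟩ := exists_restr hT τ
      rw [lifts_cst hsτ, hs, map_mul, map_mul, hχ1 s τ hsτ]
      simp)
  have htw := hab.twist hr0
  have hgen := bound2 hT h2 htw.ha htw.hb htw.hab htw.co htw.hsep htw.hodd (hcard r hr0)
  have hnul := nul_tr' htr (nul_of_gen hgen htate)
  refine hnd 0 PC.zero ?_
  rw [smul_zero, sub_zero]
  exact hnul

end tow

end Pool.Agent.K9h16.PT
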