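import Pool.Agent.K9h16.PT.Tow

/-!
Curves with rational bad places, and the first descent over them.
-/

set_option autoImplicit false
set_option linter.all false

open Polynomial IsDedekindDomain WeierstrassCurve WeierstrassCurve.Affine
open scoped Classical Pointwise

namespace Pool.Agent.K9h16.PT

open Pool.Agent.TH115.GD

/-- `a`, `b`, `a - b` are products of different linear factors. -/
structure SB {k : Type} [Field k] (a b : k[X]) : Prop where
  spA : a.Splits
  spB : b.Splits
  spD : (a - b).Splits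
  sA : a.Separable
  sB : b.Separable
  sD : (a - b).Separable
  co : IsCoprime a b
  dA : 0 < a.natDegree
  dB : 0 < b.natDegree

namespace SB

variable {k : Type} [Field k] {a b : k[X]} (h : SB a b)

include h

theorem ha : a ≠ 0 := h.sA.ne_zero
theorem hb : b ≠ 0 := h.sB.ne_zero
theorem hab : a ≠ b := fun e => h.sD.ne_zero (sub_eq_zero.2 e)

theorem hsep (π : k[X]) (hπ : Irreducible π) (hd : π ∣ a * b * (a - b)) : π.Separable := by
  rcases hπ.prime.dvd_or_dvd hd with h1 | h1
  · rcases hπ.prime.dvd_or_dvd h1 with h2 | h2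
    · exact h.sA.of_dvd h2
    · exact h.sB.of_dvd h2
  · exact h.sD.of_dvd h1

omit h in
theorem odd_factor {p : k[X]} (hp : p.Splits) (hs : p.Separable) (hd : 0 < p.natDegree) :
    HasOddFactor p := by
  obtain ⟨θ, hθ⟩ := hp.exists_eval_eq_zero (by
    rw [degree_eq_natDegree hs.ne_zero]
    exact_mod_cast hd.ne')
  refine ⟨X - C θ, 0, irreducible_X_sub_C θ, by rw [natDegree_X_sub_C]; exact odd_one, ?_, ?_⟩
  · rw [mul_zero, zero_add, pow_one]
    exact dvd_iff_isRoot.2 hθ
  · intro h2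
    rw [mul_zero, zero_add, pow_two] at h2
    have := hs.squarefree (X - C θ) h2
    exact (irreducible_X_sub_C θ).not_isUnit this

theorem hodd : Odd (max a.natDegree b.natDegree) ∨ TwoOddFactors a b :=
  Or.inr (Or.inl ⟨odd_factor h.spA h.sA h.dA, odd_factor h.spB h.sB h.dB⟩)

theorem map {M : Type} [Field M] (φ : k →+* M) : SB (a.map φ) (b.map φ) := by
  refine ⟨h.spA.map φ, h.spB.map φ, ?_, h.sA.map, h.sB.map, ?_, h.co.map (mapRingHom φ), ?_, ?_⟩
  · rw [← Polynomial.map_sub]
    exact h.spD.map φ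
  · rw [← Polynomial.map_sub]
    exact h.sD.map
  · rw [natDegree_map]; exact h.dA
  · rw [natDegree_map]; exact h.dB

theorem twist {δ : k} (hδ : δ ≠ 0) : SB (C δ * a) (C δ * b) := by
  have hu : IsUnit (C δ : k[X]) := isUnit_C.2 (isUnit_iff_ne_zero.2 hδ)
  refine ⟨h.spA.C_mul δ, h.spB.C_mul δ, ?_, h.sA.unit_mul hu, h.sB.unit_mul hu, ?_, ?_, ?_, ?_⟩
  · rw [← mul_sub]
    exact h.spD.C_mul δ
  · rw [← mul_sub]
    exact h.sD.unit_mul hu
  · exact (isCoprime_mul_unit_left hu a b).2 h.co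
  · rw [natDegree_C_mul hδ]; exact h.dA
  · rw [natDegree_C_mul hδ]; exact h.dB

end SB

section tow

variable {k k' K F : Type} [Field k] [Field k'] [Algebra k k'] [Field K] [Algebra k[X] K]
    [Field F] [Algebra k'[X] F] [IsFractionRing k'[X] F] [Algebra K F]
    (hT : IsTower k k' K F)

include hT in
/-- The tower over an intermediate field. -/
theorem exists_tower (M : IntermediateField k k') :
    ∃ (KM : Type) (_ : Field KM) (_ : Algebra M[X] KM) (_ : Algebra KM F), IsTower M k' KM F := by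
  haveI := hT.sep
  haveI := hT.fracK
  haveI : IsSepClosed k' := IsSepClosure.sep_closed k
  haveI : Algebra.IsSeparable k k' := IsSepClosure.separable
  haveI : Algebra.IsSeparable M k' := Algebra.isSeparable_tower_top_of_isSeparable k M k'
  let g : M[X] →+* F := (algebraMap k'[X] F).comp (mapRingHom (algebraMap M k'))
  have hg : Function.Injective g :=
    (IsFractionRing.injective k'[X] F).comp (map_injective _ (algebraMap M k').injective)
  letI : Algebra (FractionRing M[X]) F := (IsFractionRing.lift (A := M[X]) (K := FractionRing M[X]) hg).toAlgebra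
  refine ⟨FractionRing M[X], inferInstance, inferInstance, inferInstance, ⟨⟨inferInstance,
    inferInstance⟩, inferInstance, fun p => ?_⟩⟩
  exact IsFractionRing.lift_algebraMap hg p

/-- The identity between the curve over `k(t)` and over `M(t)`. -/
theorem isTr_base {M : IntermediateField k k'} {KM : Type} [Field KM] [Algebra M[X] KM]
    [Algebra KM F] (hT : IsTower k k' K F) (hTM : IsTower M k' KM F) (a b : k[X]) :
    IsTr (F := F) (algebraMap k[X] K a) (algebraMap k[X] K b)
      (algebraMap M[X] KM (a.map (algebraMap k M))) (algebraMap M[X] KM (b.map (algebraMap k M)))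
      1 := by
  refine ⟨one_ne_zero, ?_, ?_⟩
  · rw [hTM.map, hT.map, one_pow, one_mul, Polynomial.map_map]
    rfl
  · rw [hTM.map, hT.map, one_pow, one_mul, Polynomial.map_map]
    rfl

/-- Automorphisms over `M(t)` as automorphisms over `k(t)` which fix `M`. -/
theorem down_aut {M : IntermediateField k k'} {KM : Type} [Field KM] [Algebra M[X] KM]
    [Algebra KM F] (hT : IsTower k k' K F) (hTM : IsTower M k' KM F) (τ' : Sep F ≃ₐ[KM] Sep F) :
    ∃ τ ∈ HM k' K F (M : Set k'), ∀ x, τ x = τ' x := by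
  haveI := hT.fracK
  have hfix : ∀ p : k[X], τ' (algebraMap K (Sep F) (algebraMap k[X] K p)) =
      algebraMap K (Sep F) (algebraMap k[X] K p) := by
    intro p
    have e : algebraMap K (Sep F) (algebraMap k[X] K p) =
        algebraMap KM (Sep F) (algebraMap M[X] KM (p.map (algebraMap k M))) := by
      rw [IsScalarTower.algebraMap_apply K F (Sep F), IsScalarTower.algebraMap_apply KM F (Sep F),
        hTM.map, hT.map, Polynomial.map_map]
      rfl
    rw [e, τ'.commutes]
  let τ : Sep F ≃ₐ[K] Sep F := AlgEquiv.ofRingEquiv (f := τ'.toRingEquiv) (by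
    intro x
    obtain ⟨n, d, hd, rfl⟩ := IsFractionRing.div_surjective (A := k[X]) x
    show τ' _ = _
    rw [map_div₀, map_div₀, hfix, hfix])
  refine ⟨τ, fun x hx => ?_, fun x => rfl⟩
  show τ' (algebraMap F (Sep F) (algebraMap k'[X] F (C x))) = _
  have e : algebraMap F (Sep F) (algebraMap k'[X] F (C x)) =
      algebraMap KM (Sep F) (algebraMap M[X] KM (C (⟨x, hx⟩ : M))) := by
    rw [IsScalarTower.algebraMap_apply KM F (Sep F), hTM.map, map_C]
    rfl
  show τ' _ = algebraMap F (Sep F) (algebraMap k'[X] F (C x))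
  rw [e, τ'.commutes]

include hT in
/-- The first descent: the reductions modulo two of the classes are fixed. -/
theorem hone (h2 : (2 : k) ≠ 0) {a b : k[X]} (hab : SB a b) (M : IntermediateField k k')
    {c : Cc (crv (algebraMap k[X] K a) (algebraMap k[X] K b)) F}
    (hc : PC k' (crv (algebraMap k[X] K a) (algebraMap k[X] K b)) (HM k' K F (M : Set k')) c)
    (τ : Sep F ≃ₐ[K] Sep F) {σ σ' : Sep F ≃ₐ[F] Sep F} (hσ : ∀ x, τ (σ' x) = σ (τ x)) :
    act _ (ak τ) (c 1 σ') = c 1 σ := by
  haveI := hT.sep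
  haveI := hT.fracK
  obtain ⟨KM, _, _, _, hTM⟩ := exists_tower hT M
  haveI := hTM.fracK
  have h2M : (2 : M) ≠ 0 := by
    rw [← map_ofNat (algebraMap k M) 2]
    exact (_root_.map_ne_zero _).2 h2
  have htr := isTr_base hT hTM a b
  have hM := hab.map (algebraMap k M)
  have hc' : IsTateClass k' _ (trC htr c) := by
    have h1 := pc_tr htr (H' := ⊤) (fun τ' _ => by
      obtain ⟨τ, hτ, h⟩ := down_aut hT hTM τ'
      exact ⟨τ, hτ, h, by rw [map_one, map_one]⟩) hc
    exact ⟨h1.tc, h1.loc, fun τ => h1.inv τ trivial⟩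
  obtain ⟨⟨A, B, D⟩, ht, a0, a1, n0, n1, hrep, q0, q1⟩ :=
    triple_cls hTM h2M hM.ha hM.hb hM.hab hM.co hM.hsep hM.hodd hc' 0
  obtain ⟨mA, mB, mD, sA, sB, sD, dA, dB, dD, -⟩ := ht
  obtain ⟨A0, -, rfl⟩ := desc_dvd (algebraMap k M) hab.ha hab.spA mA dA
  obtain ⟨B0, -, rfl⟩ := desc_dvd (algebraMap k M) hab.hb hab.spB mB dB
  obtain ⟨D0, -, rfl⟩ := desc_dvd (algebraMap k M) hab.sD.ne_zero hab.spD mD (by
    rw [Polynomial.map_sub]
    exact dD)
  have hemb : ∀ p : k[X], emb M KM F (p.map (algebraMap k M)) =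
      algebraMap K F (algebraMap k[X] K p) := by
    intro p
    show algebraMap KM F (algebraMap M[X] KM _) = _
    rw [hTM.map, hT.map, Polynomial.map_map]
    rfl
  have z0 : ∀ x y : KM, d0 x y (0 : Pt (crv x y) KM) = 1 := fun x y => rfl
  have z1 : ∀ x y : KM, d1 x y (0 : Pt (crv x y) KM) = 1 := fun x y => rfl
  rw [z0, map_one, mul_one] at q0
  rw [z1, map_one, mul_one] at q1
  simp only at q0 q1
  rw [← Polynomial.map_mul, hemb] at q0 q1
  obtain ⟨t0, t1, m0, m1, e0, e1, k0, k1⟩ := hrep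
  obtain ⟨c0, hc0, w0⟩ := q0
  obtain ⟨c1, hc1, w1⟩ := q1
  have h2K : (2 : K) ≠ 0 := tt h2
  have inj := IsFractionRing.injective k[X] K
  have haK : algebraMap k[X] K a ≠ 0 := by simpa using hab.ha
  have hbK : algebraMap k[X] K b ≠ 0 := by simpa using hab.hb
  have habK : algebraMap k[X] K a ≠ algebraMap k[X] K b := fun h => hab.hab (inj h)
  have hL := isE (algebraMap k[X] K a) (algebraMap k[X] K b) (Sep F) h2K haK hbK habK
  -- the signs
  have key : ∀ (t : Sep F) (κ : K) (x : F) (cc : F) (s s' : Sep F), t ≠ 0 → cc ≠ 0 →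
      t ^ 2 = algebraMap F (Sep F) x → x = cc ^ 2 * algebraMap K F κ →
      (s = 1 ∨ s = -1) → (s' = 1 ∨ s' = -1) → σ t = s * t → σ' t = s' * t → s' = s := by
    intro t κ x cc s s' ht hcc h1 h3 hs hs' h4 h5
    have hcc' : algebraMap F (Sep F) cc ≠ 0 := (_root_.map_ne_zero _).2 hcc
    set u : Sep F := t / algebraMap F (Sep F) cc with hu
    have hu0 : u ≠ 0 := div_ne_zero ht hcc'
    have hu2 : u ^ 2 = algebraMap K (Sep F) κ := by
      rw [hu, div_pow, h1, h3, map_mul, map_pow, ← IsScalarTower.algebraMap_apply K F (Sep F)]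
      field_simp
    have hσu : σ u = s * u := by rw [hu, map_div₀, h4, σ.commutes, mul_div_assoc]
    have hσu' : σ' u = s' * u := by rw [hu, map_div₀, h5, σ'.commutes, mul_div_assoc]
    have hτu : τ u = u ∨ τ u = -u := by
      apply sq_eq_sq_iff_eq_or_eq_neg.1
      rw [← map_pow, hu2, τ.commutes]
    have hτs : τ s' = s' := by
      rcases hs' with h | h <;> rw [h] <;> simp
    have h6 := hσ u
    rw [hσu', map_mul, hτs] at h6
    rcases hτu with h | h
    · rw [h, hσu] at h6
      exact mul_right_cancel₀ hu0 h6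
    · rw [h, map_neg, hσu, mul_neg, neg_inj] at h6
      exact mul_right_cancel₀ hu0 h6
  have htor : ∀ σ, c 1 σ + c 1 σ = 0 := fun σ => by
    rw [← two_nsmul, hc.tc.two 0 σ, hc.tc.zero]
  have hs0 : ∀ σ, σ t0 = s0 (c 1 σ) * t0 := fun σ => by
    rw [k0]
    show s0 (Phi htr (Sep F) (c 1 σ)) * t0 = _
    rw [Phi_s0]
  have hs1 : ∀ σ, σ t1 = s1 (algebraMap K (Sep F) (algebraMap k[X] K a)) (c 1 σ) * t1 := fun σ => by
    rw [k1]
    show s1 _ (Phi htr (Sep F) (c 1 σ)) * t1 = _
    rw [Phi_s1]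
  have h3 : c 1 σ' = c 1 σ := by
    apply tor_ext hL (htor _) (htor _)
    · exact key t0 _ a0 c0 _ _ m0 hc0 e0 w0 (s0_sq _) (s0_sq _) (hs0 σ) (hs0 σ')
    · exact key t1 _ a1 c1 _ _ m1 hc1 e1 w1 (s1_sq _ _) (s1_sq _ _) (hs1 σ) (hs1 σ')
  rw [h3]
  exact act_tor _ hL _ (htor σ)

end tow

end Pool.Agent.K9h16.PT
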