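import Pool.Agent.K9h16.PT.TrC

/-!
Towers over finite extensions of the constants, and the first descent for the classes which are fixed by
an open subgroup.
-/

set_option autoImplicit false
set_option linter.all false

open Polynomial IsDedekindDomain WeierstrassCurve WeierstrassCurve.Affine
open scoped Classical Pointwise

namespace Pool.Agent.K9h16.PT

open Pool.Agent.TH115.GD

/-- Monic divisors of a split polynomial over an extension. -/
theorem desc_dvd {k M : Type} [Field k] [Field M] (φ : k →+* M) {a : k[X]} (ha0 : a ≠ 0)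
    (ha : a.Splits) {A : M[X]} (hA : A.Monic) (hd : A ∣ a.map φ) :
    ∃ A0 : k[X], A0.Monic ∧ A0.map φ = A := by
  have hsp : (a.map φ).Splits := ha.map φ
  have hm0 : a.map φ ≠ 0 := (Polynomial.map_ne_zero_iff φ.injective).2 ha0
  have hAs : A.Splits := hsp.of_dvd hm0 hd
  have hr : ∀ x ∈ A.roots, ∃ y, φ y = x := by
    intro x hx
    have h1 : x ∈ (a.map φ).roots := Multiset.mem_of_le (Polynomial.roots.le_of_dvd hm0 hd) hx
    rw [ha.roots_map φ] at h1
    obtain ⟨y, -, hy⟩ := Multiset.mem_map.1 h1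
    exact ⟨y, hy⟩
  choose! g hg using hr
  refine ⟨((A.roots.map g).map (fun x => X - C x)).prod, monic_multiset_prod_of_monic _ _
    (fun x _ => monic_X_sub_C x), ?_⟩
  rw [Polynomial.map_multiset_prod, Multiset.map_map, Multiset.map_map]
  conv_rhs => rw [hAs.eq_prod_roots_of_monic hA]
  congr 1
  refine Multiset.map_congr rfl fun x hx => ?_
  simp only [Function.comp, Polynomial.map_sub, map_X, map_C, hg x hx]

section tow

variable {k k' K F : Type} [Field k] [Field k'] [Algebra k k'] [Field K] [Algebra k[X] K]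
    [Field F] [Algebra k'[X] F] [IsFractionRing k'[X] F] [Algebra K F]
    (hT : IsTower k k' K F)

/-- The automorphisms which fix `M`. -/
def HM (k' K F : Type) [Field k'] [Field K]
    [Field F] [Algebra k'[X] F] [IsFractionRing k'[X] F] [Algebra K F] (M : Set k') :
    Subgroup (Sep F ≃ₐ[K] Sep F) where
  carrier := {τ | ∀ x ∈ M, τ (algebraMap F (Sep F) (cst k' F x)) = algebraMap F (Sep F) (cst k' F x)}
  mul_mem' := by
    intro σ τ h1 h2 x hx
    show σ (τ _) = _
    rw [h2 x hx, h1 x hx]
  one_mem' := fun x _ => rfl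
  inv_mem' := by
    intro τ h x hx
    show τ.symm _ = _
    rw [AlgEquiv.symm_apply_eq, h x hx]

theorem lifts_cst {s : k' ≃ₐ[k] k'} {τ : Sep F ≃ₐ[K] Sep F} (h : Lifts s τ) (x : k') :
    τ (algebraMap F (Sep F) (cst k' F x)) = algebraMap F (Sep F) (cst k' F (s x)) := by
  have h1 := h (C x)
  rw [map_C] at h1
  exact h1

include hT in
theorem exists_restr (τ : Sep F ≃ₐ[K] Sep F) : ∃ s : k' ≃ₐ[k] k', Lifts s τ := by
  haveI := hT.sep
  haveI := hT.fracK
  exact restr hT.map τ

theorem cst_inj : Function.Injective (fun x : k' => algebraMap F (Sep F) (cst k' F x)) :=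
  fun x y h => (cst k' F).injective ((algebraMap F (Sep F)).injective h)

theorem lifts_mem_HM {s : k' ≃ₐ[k] k'} {τ : Sep F ≃ₐ[K] Sep F} (h : Lifts s τ) (M : Set k') :
    τ ∈ HM k' K F M ↔ ∀ x ∈ M, s x = x := by
  constructor
  · intro h1 x hx
    have h3 := h1 x hx
    rw [lifts_cst h] at h3
    exact cst_inj (F := F) h3
  · intro h1 x hx
    rw [lifts_cst h, h1 x hx]

include hT in
theorem HM_normal (M : IntermediateField k k') [Normal k M] : (HM k' K F (M : Set k')).Normal := by
  refine ⟨fun τ hτ g => ?_⟩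
  obtain ⟨s, hs⟩ := exists_restr hT τ
  obtain ⟨t, ht⟩ := exists_restr hT g
  obtain ⟨t', ht'⟩ := exists_restr hT g⁻¹
  have hs' := (lifts_mem_HM hs _).1 hτ
  intro x hx
  show g (τ (g⁻¹ (algebraMap F (Sep F) (cst k' F x)))) = _
  rw [lifts_cst ht']
  have h1 : t' x ∈ M := by
    have := AlgHom.fieldRange_of_normal ((t' : k' →ₐ[k] k').comp M.val)
    rw [← this]
    exact ⟨⟨x, hx⟩, rfl⟩
  rw [hτ _ h1, ← lifts_cst ht']
  exact g.apply_symm_apply _

include hT in
theorem HM_fin (M : IntermediateField k k') [FiniteDimensional k M] [Normal k M] :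
    (HM k' K F (M : Set k')).FiniteIndex := by
  haveI := hT.sep
  haveI := HM_normal hT M
  -- the restriction to `M`
  choose res hres using exists_restr hT
  let f : (Sep F ≃ₐ[K] Sep F) ⧸ HM k' K F (M : Set k') → (M →ₐ[k] k') := fun q =>
    ((res q.out : k' ≃ₐ[k] k') : k' →ₐ[k] k').comp M.val
  haveI : Finite (M →ₐ[k] k') := inferInstance
  haveI : Finite ((Sep F ≃ₐ[K] Sep F) ⧸ HM k' K F (M : Set k')) := by
    refine Finite.of_injective f fun q q' h => ?_
    rw [← QuotientGroup.out_eq' q, ← QuotientGroup.out_eq' q', QuotientGroup.eq]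
    intro x hx
    have h1 : res q.out x = res q'.out x := DFunLike.congr_fun h (⟨x, hx⟩ : M)
    show (q.out)⁻¹ (q'.out (algebraMap F (Sep F) (cst k' F x))) = _
    rw [lifts_cst (hres q'.out), ← h1, ← lifts_cst (hres q.out)]
    exact (q.out).symm_apply_apply _
  exact Subgroup.finiteIndex_of_finite_quotient

end tow

end Pool.Agent.K9h16.PT
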