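import Pool.Agent.K9h16.PT.Scale
import Pool.Agent.K9h16.PT.Eig

/-!
Isomorphisms `(x, y) ↦ (ρ² x, ρ³ y)` between curves over different subfields of `F`, and the classes.
-/

set_option autoImplicit false
set_option linter.all false

open Polynomial IsDedekindDomain WeierstrassCurve WeierstrassCurve.Affine
open scoped Classical Pointwise

namespace Pool.Agent.K9h16.PT

open Pool.Agent.TH115.GD

section one

variable {K K' F : Type} [Field K] [Field K'] [Field F] [Algebra K F] [Algebra K' F]

/-- `α' = ρ² α`, `β' = ρ² β` in `F`. -/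
structure IsTr (α β : K) (α' β' : K') (ρ : F) : Prop where
  ne : ρ ≠ 0
  ha : algebraMap K' F α' = ρ ^ 2 * algebraMap K F α
  hb : algebraMap K' F β' = ρ ^ 2 * algebraMap K F β

theorem IsTr.symm {α β : K} {α' β' : K'} {ρ : F} (h : IsTr α β α' β' ρ) :
    IsTr α' β' α β ρ⁻¹ := by
  have := h.ne
  refine ⟨inv_ne_zero h.ne, ?_, ?_⟩
  · rw [h.ha]; field_simp
  · rw [h.hb]; field_simp

variable {α β : K} {α' β' : K'} {ρ : F} (h : IsTr α β α' β' ρ)
  (E : Type) [Field E] [Algebra F E] [Algebra K E] [IsScalarTower K F E] [Algebra K' E]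
  [IsScalarTower K' F E]

include h in
theorem IsTr.scaled : Scaled ((crv α β).baseChange E).toAffine ((crv α' β').baseChange E).toAffine
    (algebraMap F E ρ) := by
  have e1 : algebraMap K' E α' = algebraMap F E ρ ^ 2 * algebraMap K E α := by
    rw [IsScalarTower.algebraMap_apply K' F E, h.ha, map_mul, map_pow,
      ← IsScalarTower.algebraMap_apply]
  have e2 : algebraMap K' E β' = algebraMap F E ρ ^ 2 * algebraMap K E β := by
    rw [IsScalarTower.algebraMap_apply K' F E, h.hb, map_mul, map_pow,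
      ← IsScalarTower.algebraMap_apply]
  refine ⟨(_root_.map_ne_zero _).2 h.ne, ?_, ?_, ?_, ?_, ?_⟩
  · show algebraMap K' E 0 = _ * algebraMap K E 0
    rw [map_zero, map_zero, mul_zero]
  · show algebraMap K' E (-(α' + β')) = _ * algebraMap K E (-(α + β))
    rw [map_neg, map_neg, map_add, map_add, e1, e2]
    ring
  · show algebraMap K' E 0 = _ * algebraMap K E 0
    rw [map_zero, map_zero, mul_zero]
  · show algebraMap K' E (α' * β') = _ * algebraMap K E (α * β)
    rw [map_mul, map_mul, e1, e2]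
    ring
  · show algebraMap K' E 0 = _ * algebraMap K E 0
    rw [map_zero, map_zero, mul_zero]

/-- The isomorphism on the points. -/
def Phi : Pt (crv α β) E →+ Pt (crv α' β') E := scaleHom (h.scaled E)

theorem Phi_some {x y : E} (hn : ((crv α β).baseChange E).toAffine.Nonsingular x y) :
    ∃ hn', Phi h E (Point.some x y hn) =
      Point.some (algebraMap F E ρ ^ 2 * x) (algebraMap F E ρ ^ 3 * y) hn' := ⟨_, rfl⟩

theorem some_congr {W : WeierstrassCurve K} {x y x' y' : E}
    (hn : (W.baseChange E).toAffine.Nonsingular x y)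
    (hn' : (W.baseChange E).toAffine.Nonsingular x' y') (hx : x = x') (hy : y = y') :
    (Point.some x y hn : Pt W E) = Point.some x' y' hn' := by
  subst hx hy
  rfl

theorem Phi_symm (P : Pt (crv α' β') E) : Phi h E (Phi h.symm E P) = P := by
  rcases P with _ | ⟨x, y, hn⟩
  · exact (map_zero (Phi h E))
  · obtain ⟨hn1, e1⟩ := Phi_some h.symm E hn
    rw [e1]
    obtain ⟨hn2, e2⟩ := Phi_some h E hn1
    rw [e2]
    have hρ : algebraMap F E ρ ≠ 0 := (_root_.map_ne_zero _).2 h.ne
    apply some_congr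
    · rw [map_inv₀]; field_simp
    · rw [map_inv₀]; field_simp

theorem Phi_s0 (P : Pt (crv α β) E) : s0 (Phi h E P) = s0 P := by
  rcases P with _ | ⟨x, y, hn⟩
  · rfl
  · obtain ⟨hn1, e1⟩ := Phi_some h E hn
    rw [e1]
    have hρ : algebraMap F E ρ ≠ 0 := (_root_.map_ne_zero _).2 h.ne
    simp only [s0, mul_eq_zero, pow_eq_zero_iff, ne_eq, OfNat.ofNat_ne_zero, not_false_eq_true, hρ,
      false_or]

theorem Phi_s1 (P : Pt (crv α β) E) :
    s1 (algebraMap K' E α') (Phi h E P) = s1 (algebraMap K E α) P := by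
  rcases P with _ | ⟨x, y, hn⟩
  · rfl
  · obtain ⟨hn1, e1⟩ := Phi_some h E hn
    rw [e1]
    have hρ : algebraMap F E ρ ^ 2 ≠ 0 := pow_ne_zero 2 ((_root_.map_ne_zero _).2 h.ne)
    have e : algebraMap K' E α' = algebraMap F E ρ ^ 2 * algebraMap K E α := by
      rw [IsScalarTower.algebraMap_apply K' F E, h.ha, map_mul, map_pow,
        ← IsScalarTower.algebraMap_apply]
    simp only [s1, e, mul_right_inj' hρ]

variable {E} {E' : Type} [Field E'] [Algebra F E'] [Algebra K E'] [IsScalarTower K F E']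
  [Algebra K' E'] [IsScalarTower K' F E']

theorem Phi_act (φ : E →ₐ[F] E') (P : Pt (crv α β) E) :
    act (crv α' β') (φ.restrictScalars K') (Phi h E P) =
      Phi h E' (act (crv α β) (φ.restrictScalars K) P) := by
  rcases P with _ | ⟨x, y, hn⟩
  · exact (map_zero (act (crv α' β') (φ.restrictScalars K'))).trans
      (map_zero (Phi h E')).symm
  · obtain ⟨hn1, e1⟩ := Phi_some h E hn
    obtain ⟨hn2, e2⟩ := act_some (crv α β) (φ.restrictScalars K) hn
    obtain ⟨hn3, e3⟩ := act_some (crv α' β') (φ.restrictScalars K') hn1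
    obtain ⟨hn4, e4⟩ := Phi_some h E' hn2
    rw [e1, e2, e3, e4]
    apply some_congr
    · show φ (algebraMap F E ρ ^ 2 * x) = algebraMap F E' ρ ^ 2 * φ x
      rw [map_mul, map_pow, φ.commutes]
    · show φ (algebraMap F E ρ ^ 3 * y) = algebraMap F E' ρ ^ 3 * φ y
      rw [map_mul, map_pow, φ.commutes]

/-- Semilinear automorphisms. -/
theorem Phi_semi (τ : E ≃ₐ[K] E) (τ' : E ≃ₐ[K'] E) (hττ : ∀ x, τ x = τ' x) {ε : ℤˣ}
    (hρ : τ (algebraMap F E ρ) = ((ε : ℤ) : E) * algebraMap F E ρ) (P : Pt (crv α β) E) :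
    act (crv α' β') (ak τ') (Phi h E P) = (ε : ℤ) • Phi h E (act (crv α β) (ak τ) P) := by
  rcases P with _ | ⟨x, y, hn⟩
  · have e1 : (Phi h E) (Point.zero : Pt (crv α β) E) = 0 := map_zero _
    have e2 : act (crv α β) (ak τ) (Point.zero : Pt (crv α β) E) = 0 := map_zero _
    rw [e1, e2, map_zero, map_zero, smul_zero]
  · obtain ⟨hn1, e1⟩ := Phi_some h E hn
    obtain ⟨hn2, e2⟩ := act_some (crv α β) (ak τ) hn
    obtain ⟨hn3, e3⟩ := act_some (crv α' β') (ak τ') hn1
    obtain ⟨hn4, e4⟩ := Phi_some h E hn2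
    rw [e1, e2, e3, e4]
    rcases Int.units_eq_one_or ε with rfl | rfl
    · rw [Units.val_one, one_smul]
      rw [Units.val_one, Int.cast_one, one_mul] at hρ
      apply some_congr
      · show τ' (algebraMap F E ρ ^ 2 * x) = algebraMap F E ρ ^ 2 * τ x
        rw [← hττ, map_mul, map_pow, hρ]
      · show τ' (algebraMap F E ρ ^ 3 * y) = algebraMap F E ρ ^ 3 * τ y
        rw [← hττ, map_mul, map_pow, hρ]
    · rw [Units.val_neg, Units.val_one, neg_smul, one_smul, Point.neg_some]
      rw [Units.val_neg, Units.val_one, Int.cast_neg, Int.cast_one, neg_one_mul] at hρ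
      apply some_congr
      · show τ' (algebraMap F E ρ ^ 2 * x) = algebraMap F E ρ ^ 2 * τ x
        rw [← hττ, map_mul, map_pow, hρ, neg_sq]
      · show τ' (algebraMap F E ρ ^ 3 * y) = -(algebraMap F E ρ ^ 3 * τ y) -
          algebraMap K' E 0 * (algebraMap F E ρ ^ 2 * τ x) - algebraMap K' E 0
        rw [← hττ, map_mul, map_pow, hρ, map_zero]
        ring

end one

end Pool.Agent.K9h16.PT
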