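import Pool.Agent.K9h16.PT.Tr

/-!
The transport of classes.
-/

set_option autoImplicit false
set_option linter.all false

open Polynomial IsDedekindDomain WeierstrassCurve WeierstrassCurve.Affine
open scoped Classical Pointwise

namespace Pool.Agent.K9h16.PT

open Pool.Agent.TH115.GD

section one

variable {K K' F : Type} [Field K] [Field K'] [Field F] [Algebra K F] [Algebra K' F]
  {α β : K} {α' β' : K'} {ρ : F} (h : IsTr α β α' β' ρ)

/-- The transport of cochains. -/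
noncomputable def trC (c : Cc (crv α β) F) : Cc (crv α' β') F := fun n σ => Phi h (Sep F) (c n σ)

theorem Phi_rs (σ : Sep F ≃ₐ[F] Sep F) (P : Pt (crv α β) (Sep F)) :
    act (crv α' β') (rs K' σ) (Phi h (Sep F) P) = Phi h (Sep F) (act (crv α β) (rs K σ) P) :=
  Phi_act h σ.toAlgHom P

theorem coc_tr {f : (Sep F ≃ₐ[F] Sep F) → Pt (crv α β) (Sep F)} (hf : IsCoc (crv α β) f) :
    IsCoc (crv α' β') (fun σ => Phi h (Sep F) (f σ)) := by
  refine ⟨hf.lc.comp _, fun σ τ => ?_⟩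
  rw [hf.mul, map_add, Phi_rs]

theorem tc_tr {c : Cc (crv α β) F} (hc : IsTC (crv α β) c) : IsTC (crv α' β') (trC h c) := by
  refine ⟨fun n => coc_tr h (hc.coc n), fun σ => ?_, fun n σ => ?_⟩
  · show Phi h (Sep F) (c 0 σ) = 0
    rw [hc.zero, map_zero]
  · show 2 • Phi h (Sep F) (c (n + 1) σ) = Phi h (Sep F) (c n σ)
    rw [← map_nsmul, hc.two]

theorem tm_tr {Q : ℕ → Pt (crv α β) (Sep F)} (hQ : IsTM (crv α β) Q) :
    IsTM (crv α' β') (fun n => Phi h (Sep F) (Q n)) := by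
  refine ⟨?_, fun n => ?_⟩
  · show Phi h (Sep F) (Q 0) = 0
    rw [hQ.zero, map_zero]
  · show 2 • Phi h (Sep F) (Q (n + 1)) = Phi h (Sep F) (Q n)
    rw [← map_nsmul, hQ.two]

theorem loc_tr {L : Type} [Field L] [Algebra F L] [Algebra K L] [IsScalarTower K F L]
    [Algebra K' L] [IsScalarTower K' F L]
    {f : (Sep F ≃ₐ[F] Sep F) → Pt (crv α β) (Sep F)} (hf : LocTriv (crv α β) L (Sep L) f) :
    LocTriv (crv α' β') L (Sep L) (fun σ => Phi h (Sep F) (f σ)) := by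
  obtain ⟨ι, P, hP⟩ := hf
  refine ⟨ι, Phi h (Sep L) P, fun τ σ hτ => ?_⟩
  rw [Phi_act h ι]
  have h1 : act (crv α' β') (rs K' τ) (Phi h (Sep L) P) =
      Phi h (Sep L) (act (crv α β) (rs K τ) P) := Phi_act h (τ.toAlgHom.restrictScalars F) P
  rw [h1, ← map_sub]
  exact congrArg _ (hP τ σ hτ)

theorem nul_tr {c : Cc (crv α β) F} (hc : Nul (crv α β) c) : Nul (crv α' β') (trC h c) := by
  intro n
  obtain ⟨R, hR, e⟩ := hc n
  refine ⟨Phi h (Sep F) R, by rw [← map_nsmul, hR, map_zero], fun σ => ?_⟩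
  show Phi h (Sep F) (c n σ) = _
  rw [e, map_sub, Phi_rs]

theorem tr_symm (c : Cc (crv α' β') F) : trC h (trC h.symm c) = c := by
  funext n σ
  exact Phi_symm h (Sep F) (c n σ)

variable {k' : Type} [Field k'] [Algebra k'[X] F] [IsFractionRing k'[X] F]

theorem lt_tr {f : (Sep F ≃ₐ[F] Sep F) → Pt (crv α β) (Sep F)}
    (hf : LocallyTrivial k' (crv α β) f) :
    LocallyTrivial k' (crv α' β') (fun σ => Phi h (Sep F) (f σ)) :=
  ⟨fun v => loc_tr h (hf.1 v), loc_tr h hf.2⟩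

/-- The transport of classes which are fixed by a subgroup. -/
theorem pc_tr {H : Subgroup (Sep F ≃ₐ[K] Sep F)} {H' : Subgroup (Sep F ≃ₐ[K'] Sep F)}
    (hH : ∀ τ' ∈ H', ∃ τ ∈ H, (∀ x, τ x = τ' x) ∧
      τ (algebraMap F (Sep F) ρ) = algebraMap F (Sep F) ρ) {c : Cc (crv α β) F}
    (hc : PC k' (crv α β) H c) : PC k' (crv α' β') H' (trC h c) := by
  refine ⟨tc_tr h hc.tc, fun n => lt_tr h (hc.loc n), fun τ' hτ' => ?_⟩
  obtain ⟨τ, hτ, hττ, hρ⟩ := hH τ' hτ'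
  obtain ⟨m, Q, hQ, e⟩ := hc.inv τ hτ
  refine ⟨m, fun n => Phi h (Sep F) (Q n), tm_tr h hQ, fun n σ σ' hσ => ?_⟩
  have h1 := e n σ σ' (fun x => by rw [hττ, hττ]; exact hσ x)
  have h2 := Phi_semi h τ τ' hττ (ε := 1) (by
    rw [Units.val_one, Int.cast_one, one_mul]
    exact hρ) (c n σ')
  rw [Units.val_one, one_smul] at h2
  show 2 ^ m • (act (crv α' β') (ak τ') (Phi h (Sep F) (c n σ')) - Phi h (Sep F) (c n σ)) = _
  rw [h2, ← map_sub, ← map_nsmul, h1, map_sub, Phi_rs]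

/-- The transport of eigenvectors. -/
theorem eig_tr (hN : Preserves K F (Sep F)) (hF : NoFour (crv α β) F)
    {H : Subgroup (Sep F ≃ₐ[K] Sep F)} {c : Cc (crv α β) F}
    (hc : PC k' (crv α β) H c) {χ : (Sep F ≃ₐ[K] Sep F) → ℤˣ}
    (hTA : ∀ τ, IsTC (crv α β) (TA hN τ c))
    (hχ : ∀ τ, Nul (crv α β) (TA hN τ c - (χ τ : ℤ) • c))
    (hH : ∀ τ' : Sep F ≃ₐ[K'] Sep F, ∃ τ : Sep F ≃ₐ[K] Sep F, (∀ x, τ x = τ' x) ∧
      τ (algebraMap F (Sep F) ρ) = ((χ τ : ℤ) : Sep F) * algebraMap F (Sep F) ρ) :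
    IsTateClass k' (crv α' β') (trC h c) := by
  refine ⟨tc_tr h hc.tc, fun n => lt_tr h (hc.loc n), fun τ' => ?_⟩
  obtain ⟨τ, hττ, hρ⟩ := hH τ'
  obtain ⟨e, he⟩ : ∃ e, e = TA hN τ c - (χ τ : ℤ) • c := ⟨_, rfl⟩
  have htc : IsTC (crv α β) e := by
    have h1 := (hTA τ).add _ (hc.tc.smul _ (-(χ τ : ℤ)))
    rw [he]
    have e1 : TA hN τ c - (χ τ : ℤ) • c = fun n σ => TA hN τ c n σ + (-(χ τ : ℤ)) • c n σ := by
      funext n σ
      show TA hN τ c n σ - (χ τ : ℤ) • c n σ = _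
      rw [neg_smul, ← sub_eq_add_neg]
    rw [e1]
    exact h1
  have hn := hχ τ
  rw [← he] at hn
  obtain ⟨Q, hQ, hs⟩ := hn.inv hF htc
  have hsq : (χ τ : ℤ) * (χ τ : ℤ) = 1 := by
    rcases Int.units_eq_one_or (χ τ) with h | h <;> rw [h] <;> rfl
  refine ⟨1, fun n => (χ τ : ℤ) • Phi h (Sep F) (Q n), ⟨?_, fun n => ?_⟩, fun n σ σ' hσ => ?_⟩
  · show (χ τ : ℤ) • Phi h (Sep F) (Q 0) = 0
    rw [hQ.zero, map_zero, smul_zero]
  · show 2 • ((χ τ : ℤ) • Phi h (Sep F) (Q (n + 1))) = (χ τ : ℤ) • Phi h (Sep F) (Q n)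
    rw [smul_comm, ← map_nsmul, hQ.two]
  · have h2 := Phi_semi h τ τ' hττ hρ (c n σ')
    have h3 : cj hN τ σ = σ' := cj_eq hN fun x => by rw [hττ, hττ]; exact hσ x
    have h4 : act (crv α β) (ak τ) (c n σ') = e n σ + (χ τ : ℤ) • c n σ := by
      rw [he]
      show _ = (TA hN τ c n σ - (χ τ : ℤ) • c n σ) + (χ τ : ℤ) • c n σ
      rw [sub_add_cancel]
      show _ = act (crv α β) (ak τ) (c n (cj hN τ σ))
      rw [h3]
    show 2 ^ 1 • (act (crv α' β') (ak τ') (Phi h (Sep F) (c n σ')) - Phi h (Sep F) (c n σ)) =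
      act (crv α' β') (rs K' σ) ((χ τ : ℤ) • Phi h (Sep F) (Q n)) -
        (χ τ : ℤ) • Phi h (Sep F) (Q n)
    rw [h2, h4, map_add, map_zsmul, smul_add, smul_smul, hsq, one_smul, add_sub_cancel_right,
      pow_one, smul_comm, ← map_nsmul, hs, map_sub, smul_sub, map_zsmul, Phi_rs]

end one

end Pool.Agent.K9h16.PT
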